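import Pool.Agent.H36.MMSMain

open Finset

namespace Pool.Agent.H36.MMS

/-- The Manickam–Miklós–Singhi bound for all `n ≥ 9 k`. -/
theorem mms_nine (k n : ℕ) (hk : 1 ≤ k) (hn : 9 * k ≤ n) (x : Fin n → ℝ)
    (hx : 0 ≤ ∑ i, x i) :
    (n - 1).choose (k - 1) ≤
      (((Finset.univ : Finset (Fin n)).powersetCard k).filter
        (fun s => 0 ≤ ∑ i ∈ s, x i)).card := by
  classical
  have hn0 : 0 < n := by omega
  have hn0' : (0:ℝ) < n := by exact_mod_cast hn0
  have : Nonempty (Fin n) := ⟨⟨0, hn0⟩⟩
  obtain ⟨a0, -, ha0⟩ := Finset.exists_max_image (Finset.univ : Finset (Fin n)) x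
    ⟨Classical.arbitrary _, Finset.mem_univ _⟩
  -- the case k = 1
  rcases Nat.eq_or_lt_of_le hk with hk1 | hk2
  · subst hk1
    have hxa : 0 ≤ x a0 := by
      by_contra hcon
      push Not at hcon
      have : ∑ i, x i < 0 := by
        apply Finset.sum_neg
        · intro i hi
          exact lt_of_le_of_lt (ha0 i hi) hcon
        · exact ⟨a0, Finset.mem_univ _⟩
      linarith
    simp only [Nat.sub_self, Nat.choose_zero_right]
    rw [Nat.one_le_iff_ne_zero, ← Nat.pos_iff_ne_zero, Finset.card_pos]
    refine ⟨{a0}, ?_⟩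
    rw [Finset.mem_filter, Finset.mem_powersetCard]
    refine ⟨⟨Finset.subset_univ _, Finset.card_singleton _⟩, ?_⟩
    rw [Finset.sum_singleton]; exact hxa
  · have hk2' : 2 ≤ k := hk2
    set s : ℝ := (∑ i, x i) / n with hs
    have hs0 : 0 ≤ s := by rw [hs]; positivity
    -- centred vector
    set y : Fin n → ℝ := fun i => x i - s with hy
    have hysum : ∑ i, y i = 0 := by
      rw [hy]
      rw [Finset.sum_sub_distrib, Finset.sum_const, Finset.card_univ, Fintype.card_fin, nsmul_eq_mul, hs]
      field_simp
      ring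
    have hyx : ∀ S : Finset (Fin n), 0 ≤ ∑ i ∈ S, y i → 0 ≤ ∑ i ∈ S, x i := by
      intro S h
      have : ∑ i ∈ S, y i = ∑ i ∈ S, x i - S.card * s := by
        rw [hy, Finset.sum_sub_distrib, Finset.sum_const, nsmul_eq_mul]
      rw [this] at h
      have : 0 ≤ (S.card : ℝ) * s := by positivity
      linarith
    have hmono : (((Finset.univ : Finset (Fin n)).powersetCard k).filter
        (fun S => 0 ≤ ∑ i ∈ S, y i)).card ≤ (((Finset.univ : Finset (Fin n)).powersetCard k).filter
        (fun S => 0 ≤ ∑ i ∈ S, x i)).card := by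
      apply Finset.card_le_card
      intro S hS
      rw [Finset.mem_filter] at hS ⊢
      exact ⟨hS.1, hyx S hS.2⟩
    refine le_trans ?_ hmono
    have hymax : ∀ i, y i ≤ y a0 := by
      intro i
      have := ha0 i (Finset.mem_univ _)
      simp only [hy]; linarith
    by_cases hy0 : y a0 ≤ 0
    · -- all `y` vanish
      have hall : ∀ i, y i = 0 := by
        intro i
        have h1 : ∀ j ∈ (Finset.univ : Finset (Fin n)), y j ≤ 0 := fun j _ => (hymax j).trans hy0
        exact (Finset.sum_eq_zero_iff_of_nonpos h1).mp hysum i (Finset.mem_univ _)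
      have : ((Finset.univ : Finset (Fin n)).powersetCard k).filter (fun S => 0 ≤ ∑ i ∈ S, y i)
          = (Finset.univ : Finset (Fin n)).powersetCard k := by
        apply Finset.filter_true_of_mem
        intro S _
        rw [Finset.sum_eq_zero (fun i _ => hall i)]
      rw [this, Finset.card_powersetCard, Finset.card_univ, Fintype.card_fin]
      obtain ⟨j, rfl⟩ : ∃ j, k = j + 1 := ⟨k - 1, by omega⟩
      obtain ⟨n', rfl⟩ : ∃ n', n = n' + 1 := ⟨n - 1, by omega⟩
      simp only [Nat.add_sub_cancel]
      rw [Nat.choose_succ_succ]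
      omega
    · push Not at hy0
      set z : Fin n → ℝ := fun i => y i / y a0 with hz
      have hzy : ∀ S : Finset (Fin n), sg z S = (∑ i ∈ S, y i) / y a0 := by
        intro S
        unfold sg
        rw [hz, Finset.sum_div]
      have hc := core z (Ω := (Finset.univ : Finset (Fin n))) (n := n) (k := k) (a0 := a0) hk2' hn
        (by rw [Finset.card_univ, Fintype.card_fin]) (Finset.mem_univ _)
        (by simp only [hz]; exact div_self hy0.ne')
        (by intro i _; simp only [hz]; rw [div_le_one hy0]; exact hymax i)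
        (by rw [hzy, hysum, zero_div])
      refine hc.trans (Finset.card_le_card ?_)
      intro S hS
      rw [Finset.mem_filter] at hS ⊢
      refine ⟨hS.1, ?_⟩
      have h := hS.2
      rw [hzy] at h
      have := mul_nonneg h hy0.le
      rwa [div_mul_cancel₀ _ hy0.ne'] at this

end Pool.Agent.H36.MMS
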