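import Mathlib

namespace Pool.Agent.H36.MMS

lemma qq_eq {p q : ℝ} (hp' : p ≤ 1/9) (hq : q = p / (1 - p)) :
    q * (1 - q) = p * (1 - 2 * p) / (1 - p)^2 := by
  have h1 : 1 - p ≠ 0 := by
    intro h; linarith
  rw [hq]; field_simp; ring

/-- h = 0, bound on `Vb` -/
lemma s0_Vb {p q d : ℝ} (hp : 0 < p) (hp' : p ≤ 1/9) (hq : q = p / (1 - p))
    (hd : p * (1 - p) * d ≤ 0.36) : q * (1 - q) * (d - 1) ≤ 0.361 - 0.64 * p := by
  rw [qq_eq hp' hq]
  have h1 : 0 < 1 - p := by linarith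
  have h2 : 0 < 1 - 2 * p := by linarith
  have h3 : p * (1 - 2 * p) / (1 - p)^2 * (d - 1)
      = (1 - 2 * p) * (p * (1 - p) * d - p * (1 - p)) / (1 - p)^3 := by
    field_simp
  rw [h3, div_le_iff₀ (by positivity)]
  have h4 : (1 - 2 * p) * (p * (1 - p) * d - p * (1 - p)) ≤ (1 - 2 * p) * (0.36 - p * (1 - p)) :=
    mul_le_mul_of_nonneg_left (by linarith) h2.le
  refine h4.trans ?_
  have h5 := mul_nonneg hp.le (sub_nonneg.mpr hp')
  have h6 := mul_nonneg hp.le h5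
  have h7 := mul_nonneg hp.le h6
  nlinarith

/-- h = 0, numeric conditions, `p ≤ 0.09` -/
lemma s0_mb1 {p q : ℝ} (hp : 0 < p) (hp' : p ≤ 0.09) (hq : q = p / (1 - p)) :
    1.14 * (0.361 - 0.64 * p) ≤ (1/q - 1) * 0.2^2 := by
  have h1 : 0 < 1 - p := by linarith
  have e : 1/q - 1 = (1 - 2 * p) / p := by
    rw [hq]; field_simp; ring
  rw [e, div_mul_eq_mul_div, le_div_iff₀ hp]
  nlinarith

lemma s0_E1 {p q : ℝ} (hp : 0 < p) (hp' : p ≤ 0.09) (hq : q = p / (1 - p)) :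
    0.361 - 0.64 * p ≤ 0.4639 * ((0.361 - 0.64 * p) + (1 - q * 3.754)^2) := by
  have h1 : 0 < 1 - p := by linarith
  have e : 1 - q * 3.754 = (1 - 4.754 * p) / (1 - p) := by
    rw [hq]; field_simp; ring
  rw [e, div_pow]
  have h2 : 0.5361 * (0.361 - 0.64 * p) ≤ 0.4639 * ((1 - 4.754 * p)^2 / (1-p)^2) := by
    rw [← mul_div_assoc, le_div_iff₀ (by positivity)]
    have h5 := mul_nonneg hp.le (sub_nonneg.mpr hp')
    have h6 := mul_nonneg hp.le h5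
    nlinarith
  linarith

lemma s0_mb2 {p q : ℝ} (hp : 0.09 ≤ p) (hp' : p ≤ 1/9) (hq : q = p / (1 - p)) :
    1.14 * (0.361 - 0.64 * p) ≤ (1/q - 1) * 0.2175^2 := by
  have h1 : 0 < 1 - p := by linarith
  have h0 : 0 < p := by linarith
  have e : 1/q - 1 = (1 - 2 * p) / p := by
    rw [hq]; field_simp; ring
  rw [e, div_mul_eq_mul_div, le_div_iff₀ h0]
  nlinarith

lemma s0_B2 {p q d : ℝ} (hp : 0.09 ≤ p) (hp' : p ≤ 1/9) (hq : q = p / (1 - p))
    (hd : q * (1 - q) * (d - 1) ≤ 0.361 - 0.64 * p) : q * (1 - q) * (d - 1 - 2) ≤ 0.126 := by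
  have h1 : 0 < 1 - p := by linarith
  have h0 : 0 < p := by linarith
  have h2 : 0.361 - 0.64 * p - 2 * (q * (1 - q)) ≤ 0.126 := by
    rw [qq_eq hp' hq]
    have : (0.235 - 0.64 * p) / 2 ≤ p * (1 - 2 * p) / (1 - p)^2 := by
      rw [div_le_div_iff₀ (by norm_num) (by positivity)]
      nlinarith [mul_nonneg (sub_nonneg.mpr hp) (sub_nonneg.mpr hp'), mul_nonneg h0.le (mul_nonneg (sub_nonneg.mpr hp) (sub_nonneg.mpr hp'))]
    linarith
  linarith

lemma s0_E2 {p q : ℝ} (hp : 0.09 ≤ p) (hp' : p ≤ 1/9) (hq : q = p / (1 - p)) :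
    0.361 - 0.64 * p ≤ 0.4639 * ((0.361 - 0.64 * p) + (1 - q * 3.3217)^2) := by
  have h1 : 0 < 1 - p := by linarith
  have h0 : 0 < p := by linarith
  have e : 1 - q * 3.3217 = (1 - 4.3217 * p) / (1 - p) := by
    rw [hq]; field_simp; ring
  rw [e, div_pow]
  have h2 : 0.5361 * (0.361 - 0.64 * p) ≤ 0.4639 * ((1 - 4.3217 * p)^2 / (1-p)^2) := by
    rw [← mul_div_assoc, le_div_iff₀ (by positivity)]
    nlinarith [mul_nonneg (sub_nonneg.mpr hp) (sub_nonneg.mpr hp'), mul_nonneg h0.le (mul_nonneg (sub_nonneg.mpr hp) (sub_nonneg.mpr hp'))]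
  linarith

lemma frac_aux (c p a B X b : ℝ) (ha : a ≠ 0) (hb : b ≠ 0) :
    (c - p / a) * (B + X / b) = ((c * a - p) * (B * b + X)) / (a * b) := by
  field_simp

/-- h = 1 -/
lemma s1_Vb {p q d m : ℝ} (hp : 0 < p) (hp' : p ≤ 1/9) (hq : q = p / (1 - p))
    (hm : m ≤ 0.0975) (hd : p * (1 - p) * d ≤ 0.265) :
    q * (1 - q) * (d - (1 - m)^2) ≤ 0.2655 - 0.54 * p := by
  rw [qq_eq hp' hq]
  have h1 : 0 < 1 - p := by linarith
  have h2 : 0 < 1 - 2 * p := by linarith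
  have h8 : 0.8145 ≤ (1 - m)^2 := by nlinarith
  have h3 : p * (1 - 2 * p) / (1 - p)^2 * (d - (1 - m)^2)
      = (1 - 2 * p) * (p * (1 - p) * d - p * (1 - p) * (1 - m)^2) / (1 - p)^3 := by
    field_simp
  rw [h3, div_le_iff₀ (by positivity)]
  have h9 : p * (1 - p) * 0.8145 ≤ p * (1 - p) * (1 - m)^2 :=
    mul_le_mul_of_nonneg_left h8 (by positivity)
  have h4 : (1 - 2 * p) * (p * (1 - p) * d - p * (1 - p) * (1 - m)^2)
      ≤ (1 - 2 * p) * (0.265 - p * (1 - p) * 0.8145) :=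
    mul_le_mul_of_nonneg_left (by linarith) h2.le
  refine h4.trans ?_
  have h5 := mul_nonneg hp.le (sub_nonneg.mpr hp')
  have h6 := mul_nonneg hp.le h5
  have h7 := mul_nonneg hp.le h6
  nlinarith

lemma s1_mb {p q : ℝ} (hp : 0 < p) (hp' : p ≤ 1/9) (hq : q = p / (1 - p)) :
    1.14 * (0.2655 - 0.54 * p) ≤ (1/q - 1 - 1) * 0.198^2 := by
  have h1 : 0 < 1 - p := by linarith
  have e : 1/q - 1 - 1 = (1 - 3 * p) / p := by
    rw [hq]; field_simp; ring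
  rw [e, div_mul_eq_mul_div, le_div_iff₀ hp]
  nlinarith

lemma s1_E {p q : ℝ} (hp : 0 < p) (hp' : p ≤ 1/9) (hq : q = p / (1 - p)) :
    0.2655 - 0.54 * p ≤ (0.4639 - q / (1 - q)) * ((0.2655 - 0.54 * p) + (1 - q * 2.574)^2) := by
  have h1 : 0 < 1 - p := by linarith
  have h2 : 0 < 1 - 2 * p := by linarith
  have e : 1 - q * 2.574 = (1 - 3.574 * p) / (1 - p) := by
    rw [hq]; field_simp; ring
  have e2 : q / (1 - q) = p / (1 - 2 * p) := by
    rw [hq]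
    have : 1 - p / (1 - p) = (1 - 2 * p) / (1 - p) := by field_simp; ring
    rw [this]; field_simp
  rw [e, e2, div_pow]
  have e3 : (0.4639 - p / (1 - 2 * p)) * ((0.2655 - 0.54 * p) + (1 - 3.574 * p)^2 / (1 - p)^2)
      = ((0.4639 * (1 - 2 * p) - p) * ((0.2655 - 0.54 * p) * (1-p)^2 + (1 - 3.574 * p)^2))
        / ((1 - 2 * p) * (1 - p)^2) := by
    exact frac_aux _ _ _ _ _ _ h2.ne' (by positivity)
  rw [e3, le_div_iff₀ (by positivity)]
  have h5 := mul_nonneg hp.le (sub_nonneg.mpr hp')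
  have h6 := mul_nonneg hp.le h5
  have h7 := mul_nonneg hp.le h6
  nlinarith

end Pool.Agent.H36.MMS
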