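import Pool.Agent.H36.MMSStar
import Pool.Agent.H36.MMSStarNum

open Finset

set_option linter.unusedSectionVars false

namespace Pool.Agent.H36.MMS

variable {α : Type*} [DecidableEq α]

lemma choose_eq {n k : ℕ} (hk : 1 ≤ k) (hn : k ≤ n) :
    ((n-1).choose (k-1) : ℝ) = (k:ℝ)/n * (n.choose k : ℝ) := by
  obtain ⟨j, rfl⟩ : ∃ j, k = j + 1 := ⟨k - 1, by omega⟩
  obtain ⟨n', rfl⟩ : ∃ n', n = n' + 1 := ⟨n - 1, by omega⟩
  have h1 : ((n'+1 : ℕ):ℝ) * (n'.choose j : ℝ) = ((n'+1).choose (j+1) : ℝ) * ((j+1 : ℕ):ℝ) := by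
    exact_mod_cast Nat.add_one_mul_choose_eq n' j
  have h2 : ((n'+1 : ℕ):ℝ) ≠ 0 := by positivity
  simp only [Nat.add_sub_cancel]
  rw [div_mul_eq_mul_div, eq_div_iff h2]
  linarith

lemma from_pr (x : α → ℝ) {Ω U : Finset α} {n k T : ℕ} (hk : 1 ≤ k) (hkU : k ≤ U.card)
    (hU : U ⊆ Ω) (hUc : U.card + T = n)
    (h : (k:ℝ)/n ≤ pr U k (fun S => 0 ≤ sg x S) * (1 - T * ((k:ℝ)/n))) :
    (n-1).choose (k-1) ≤ ((Ω.powersetCard k).filter (fun S => 0 ≤ sg x S)).card := by
  have h1 : (((U.powersetCard k).filter (fun S => 0 ≤ sg x S)).card : ℝ)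
      = pr U k (fun S => 0 ≤ sg x S) * (U.card.choose k : ℝ) := by
    rw [pr_eq]
    have : (U.card.choose k : ℝ) ≠ 0 := by
      exact_mod_cast (Nat.choose_pos hkU).ne'
    field_simp
  have h2 : ((U.powersetCard k).filter (fun S => 0 ≤ sg x S)).card
      ≤ ((Ω.powersetCard k).filter (fun S => 0 ≤ sg x S)).card := by
    apply Finset.card_le_card
    apply Finset.filter_subset_filter
    exact Finset.powersetCard_mono hU
  have h3 : (((n-1).choose (k-1) : ℕ) : ℝ) ≤ (((U.powersetCard k).filter (fun S => 0 ≤ sg x S)).card : ℝ) := by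
    rw [h1, choose_eq hk (by omega)]
    have h4 := choose_restrict n k (by omega) hk T (by omega)
    have e : n - T = U.card := by omega
    rw [e] at h4
    calc (k:ℝ)/n * (n.choose k : ℝ)
        ≤ (pr U k (fun S => 0 ≤ sg x S) * (1 - T * ((k:ℝ)/n))) * (n.choose k : ℝ) :=
          mul_le_mul_of_nonneg_right h (by positivity)
      _ = pr U k (fun S => 0 ≤ sg x S) * ((1 - T * ((k:ℝ)/n)) * (n.choose k : ℝ)) := by ring
      _ ≤ _ := mul_le_mul_of_nonneg_left h4 (pr_nonneg _ _ _)
  have h5 : (n-1).choose (k-1) ≤ ((U.powersetCard k).filter (fun S => 0 ≤ sg x S)).card := by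
    exact_mod_cast h3
  exact h5.trans h2

lemma from_star (x : α → ℝ) {Ω : Finset α} {n k : ℕ} {a0 : α} (hk : 1 ≤ k)
    (hΩ : Ω.card = n) (ha0 : a0 ∈ Ω)
    (h : ((Ω.powersetCard k).filter (fun A => a0 ∈ A ∧ sg x A < 0)).card
      ≤ ((Ω.powersetCard k).filter (fun S => a0 ∉ S ∧ 0 ≤ sg x S)).card) :
    (n-1).choose (k-1) ≤ ((Ω.powersetCard k).filter (fun S => 0 ≤ sg x S)).card := by
  obtain ⟨j, rfl⟩ : ∃ j, k = j + 1 := ⟨k - 1, by omega⟩
  have h1 : (n-1).choose (j+1-1) ≤ ((Ω.powersetCard (j+1)).filter (fun A => a0 ∈ A)).card := by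
    have h2 : ((Ω.erase a0).powersetCard j).card = (n-1).choose (j+1-1) := by
      rw [Finset.card_powersetCard, Finset.card_erase_of_mem ha0, hΩ]; rfl
    rw [← h2]
    apply Finset.card_le_card_of_injOn (fun R => insert a0 R)
    · intro R hR
      rw [Finset.mem_coe, mem_powersetCard] at hR
      have haR : a0 ∉ R := fun hh => (Finset.mem_erase.mp (hR.1 hh)).1 rfl
      rw [Finset.mem_coe, mem_filter, mem_powersetCard]
      refine ⟨⟨?_, ?_⟩, Finset.mem_insert_self _ _⟩
      · exact Finset.insert_subset ha0 (hR.1.trans (Finset.erase_subset _ _))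
      · rw [Finset.card_insert_of_notMem haR, hR.2]
    · intro R hR R' hR' hRR
      rw [Finset.mem_coe, mem_powersetCard] at hR hR'
      have haR : a0 ∉ R := fun hh => (Finset.mem_erase.mp (hR.1 hh)).1 rfl
      have haR' : a0 ∉ R' := fun hh => (Finset.mem_erase.mp (hR'.1 hh)).1 rfl
      simp only at hRR
      rw [← Finset.erase_insert haR, ← Finset.erase_insert haR', hRR]
  have h3 : ((Ω.powersetCard (j+1)).filter (fun A => a0 ∈ A)).card
      = ((Ω.powersetCard (j+1)).filter (fun A => a0 ∈ A ∧ 0 ≤ sg x A)).card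
        + ((Ω.powersetCard (j+1)).filter (fun A => a0 ∈ A ∧ sg x A < 0)).card := by
    rw [← Finset.card_filter_add_card_filter_not (s := (Ω.powersetCard (j+1)).filter (fun A => a0 ∈ A))
      (fun A => 0 ≤ sg x A), Finset.filter_filter, Finset.filter_filter]
    congr 2
    apply Finset.filter_congr
    intro A _
    rw [not_le]
  have h4 : ((Ω.powersetCard (j+1)).filter (fun S => 0 ≤ sg x S)).card
      = ((Ω.powersetCard (j+1)).filter (fun A => a0 ∈ A ∧ 0 ≤ sg x A)).card
        + ((Ω.powersetCard (j+1)).filter (fun A => a0 ∉ A ∧ 0 ≤ sg x A)).card := by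
    rw [← Finset.card_filter_add_card_filter_not (s := (Ω.powersetCard (j+1)).filter (fun A => 0 ≤ sg x A))
      (fun A => a0 ∈ A), Finset.filter_filter, Finset.filter_filter]
    congr 2
    · apply Finset.filter_congr
      intro A _
      exact and_comm
    · apply Finset.filter_congr
      intro A _
      exact and_comm
  omega

/-- Cantelli step with the actual mean, T = 1 -/
lemma step_a' (x : α → ℝ) {U : Finset α} {k n : ℕ} (hk2 : 2 ≤ k) (hn : 9 * k ≤ n)
    (hU : U.card + 1 = n) (hm : 0 < mean x U)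
    (hV : (k:ℝ)/n * (Vh U.card k * dev x U) ≤ ((k:ℝ) * mean x U)^2 * (1 - 2 * ((k:ℝ)/n))) :
    (k:ℝ)/n ≤ pr U k (fun S => 0 ≤ sg x S) * (1 - ((1:ℕ):ℝ) * ((k:ℝ)/n)) := by
  have hn0 : (0:ℝ) < n := by
    have : 0 < n := by omega
    exact_mod_cast this
  have hk' : (2:ℝ) ≤ k := by exact_mod_cast hk2
  have hn' : 9 * (k:ℝ) ≤ n := by exact_mod_cast hn
  have hU' : (U.card:ℝ) = n - 1 := by
    have : (U.card:ℝ) + 1 = n := by exact_mod_cast hU
    linarith
  have hp0 : 0 < (k:ℝ)/n := by positivity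
  have hp9 : (k:ℝ)/n ≤ 1/9 := by rw [div_le_div_iff₀ hn0 (by norm_num)]; linarith
  have hkU : k ≤ U.card := by omega
  have hVh0 := Vh_pos (N := (U.card:ℝ)) (k := (k:ℝ)) (by linarith) (by rw [hU']; linarith) (by rw [hU']; linarith)
  have hdev := dev_nonneg x U
  set V := Vh U.card k * dev x U with hVdef
  have hVnn : 0 ≤ V := by positivity
  have h1 := avg_W1 x hkU (by omega : 0 < U.card)
  have h2 := avg_W2 x hkU (by omega : 2 ≤ U.card)
  rw [← hVdef] at h2
  have hμ0 : 0 < (k:ℝ) * mean x U := by positivity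
  have hP := cantelli' hkU _ h1 h2 hVnn hμ0
  have hP2 : pr U k (fun S => -((k:ℝ) * mean x U) ≤ sg (zc x U) S) ≤ pr U k (fun S => 0 ≤ sg x S) := by
    apply pr_mono
    intro S hSU hSc h0
    have := sg_eq x U hSc
    linarith
  have hM : 0 < V + ((k:ℝ) * mean x U)^2 := by positivity
  have hP3 : ((k:ℝ) * mean x U)^2 ≤ (V + ((k:ℝ) * mean x U)^2) * pr U k (fun S => 0 ≤ sg x S) := by
    have := hP.trans hP2
    rw [div_le_iff₀ hM] at this
    linarith
  refine fin_mul hM ?_ hP3 ?_
  · push_cast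
    linarith
  · push_cast
    linarith

theorem core (x : α → ℝ) {Ω : Finset α} {n k : ℕ} {a0 : α} (hk2 : 2 ≤ k) (hn : 9 * k ≤ n)
    (hΩ : Ω.card = n) (ha0 : a0 ∈ Ω) (hxa : x a0 = 1) (hx1 : ∀ i ∈ Ω, x i ≤ 1)
    (hsum : sg x Ω = 0) :
    (n-1).choose (k-1) ≤ ((Ω.powersetCard k).filter (fun S => 0 ≤ sg x S)).card := by
  classical
  have hn0 : (0:ℝ) < n := by
    have : 0 < n := by omega
    exact_mod_cast this
  have hk' : (2:ℝ) ≤ k := by exact_mod_cast hk2
  have hn' : 9 * (k:ℝ) ≤ n := by exact_mod_cast hn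
  set p : ℝ := (k:ℝ)/n with hp
  have hp0 : 0 < p := by rw [hp]; positivity
  have hp9 : p ≤ 1/9 := by rw [hp, div_le_div_iff₀ hn0 (by norm_num)]; linarith
  set q : ℝ := (k:ℝ)/((n:ℝ)-k) with hq
  have hnk : 0 < (n:ℝ) - k := by linarith
  have hqp : q = p / (1 - p) := by
    rw [hq, hp]; field_simp
  have hq0 : 0 < q := by rw [hq]; positivity
  have hq8 : q ≤ 1/8 := by rw [hq, div_le_div_iff₀ hnk (by norm_num)]; linarith
  obtain ⟨b1, hb1, hb1min⟩ := Finset.exists_min_image Ω x ⟨a0, ha0⟩
  have hne : (Ω.erase b1).Nonempty := by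
    rw [← Finset.card_pos, Finset.card_erase_of_mem hb1]; omega
  obtain ⟨b2, hb2, hb2min⟩ := Finset.exists_min_image (Ω.erase b1) x hne
  by_cases hc2 : x b2 ≤ -1
  · -- T = 2
    set U := (Ω.erase b1).erase b2 with hU
    have hUc : U.card + 2 = n := by
      rw [hU, Finset.card_erase_of_mem hb2, Finset.card_erase_of_mem hb1]; omega
    have hUc' : (U.card:ℝ) = n - 2 := by
      have : (U.card:ℝ) + 2 = n := by exact_mod_cast hUc
      linarith
    have hUΩ : U ⊆ Ω := (Finset.erase_subset _ _).trans (Finset.erase_subset _ _)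
    have hsgU : sg x U = - x b1 - x b2 := by
      have h1 := sg_erase x Ω hb1
      have h2 := sg_erase x (Ω.erase b1) hb2
      rw [← hU] at h2
      linarith
    have hb12 : x b1 ≤ x b2 := hb1min b2 (Finset.mem_of_mem_erase hb2)
    have hUpos : (0:ℝ) < U.card := by rw [hUc']; linarith
    have hmU : (U.card:ℝ) * mean x U = - x b1 - x b2 := by
      rw [card_mul_mean x U (by omega), hsgU]
    set m := mean x U with hm
    have hm0 : 0 < m := by
      have : 0 < (U.card:ℝ) * m := by rw [hmU]; linarith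
      exact pos_of_mul_pos_right (by linarith [this] : 0 < (U.card:ℝ) * m) hUpos.le
    have hZ0 : 0 < -x b2 + m := by linarith
    have hZ : ∀ i ∈ U, |x i - mean x U| ≤ -x b2 + m := by
      intro i hi
      have h1 : x b2 ≤ x i := hb2min i (Finset.mem_of_mem_erase hi)
      have h2 : x i ≤ 1 := hx1 i (hUΩ hi)
      rw [← hm, abs_le]
      constructor <;> linarith
    have hmZ : (2:ℝ) * (-x b2 + m) ≤ n * mean x U := by
      rw [← hm]
      have : (n:ℝ) * m = U.card * m + 2 * m := by rw [hUc']; ring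
      rw [this, hmU]; linarith
    have := spread2 x hk2 hn hZ0 hZ hUc hmZ
    apply from_pr x (by omega) (by omega) hUΩ hUc
    push_cast
    exact this
  push Not at hc2
  by_cases hc1 : x b1 ≤ -1
  · -- T = 1
    have hH : ({b1} : Finset α) ⊆ Ω := Finset.singleton_subset_iff.mpr hb1
    have haH : a0 ∉ ({b1} : Finset α) := by
      rw [Finset.mem_singleton]
      rintro rfl
      linarith
    have hUe : Ω \ {b1} = Ω.erase b1 := Finset.sdiff_singleton_eq_erase b1 Ω
    have hUc : (Ω \ {b1}).card + 1 = n := by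
      rw [hUe, Finset.card_erase_of_mem hb1]; omega
    have hUc' : ((Ω \ {b1}).card:ℝ) = n - 1 := by
      have : ((Ω \ {b1}).card:ℝ) + 1 = n := by exact_mod_cast hUc
      linarith
    have hUΩ : Ω \ {b1} ⊆ Ω := Finset.sdiff_subset
    have hsgU : sg x (Ω \ {b1}) = - x b1 := by
      have h1 := sg_erase x Ω hb1
      rw [hUe]
      linarith
    have hmU : ((Ω \ {b1}).card:ℝ) * mean x (Ω \ {b1}) = - x b1 := by
      rw [card_mul_mean x _ (by omega), hsgU]
    set m := mean x (Ω \ {b1}) with hm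
    have hUpos : (0:ℝ) < (Ω \ {b1}).card := by rw [hUc']; linarith
    have hm0 : 0 < m := by
      have : 0 < ((Ω \ {b1}).card:ℝ) * m := by rw [hmU]; linarith
      exact pos_of_mul_pos_right this hUpos.le
    have hxl : ∀ i ∈ Ω \ {b1}, -1 ≤ x i := by
      intro i hi
      rw [hUe] at hi
      have := hb2min i hi
      linarith
    have hZ : ∀ i ∈ Ω \ {b1}, |x i - mean x (Ω \ {b1})| ≤ 1 + m := by
      intro i hi
      have h1 := hxl i hi
      have h2 : x i ≤ 1 := hx1 i (hUΩ hi)
      rw [← hm, abs_le]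
      constructor <;> linarith
    have hmZ : 1 + m ≤ n * mean x (Ω \ {b1}) := by
      rw [← hm]
      have : (n:ℝ) * m = (Ω \ {b1}).card * m + m := by rw [hUc']; ring
      rw [this, hmU]; linarith
    by_cases hV1 : 0.22 * (1 + m)^2 ≤ Vh (Ω \ {b1}).card k * dev x (Ω \ {b1})
    · have := spread1 x hk2 hn (by linarith) hZ hUc hmZ hV1
      apply from_pr x (by omega) (by omega) hUΩ hUc
      push_cast
      rw [one_mul]
      exact this
    push Not at hV1
    by_cases hV2 : (k:ℝ)/n * (Vh (Ω \ {b1}).card k * dev x (Ω \ {b1}))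
        ≤ ((k:ℝ) * mean x (Ω \ {b1}))^2 * (1 - 2 * ((k:ℝ)/n))
    · have := step_a' x hk2 hn hUc hm0 hV2
      exact from_pr x (by omega) (by omega) hUΩ hUc this
    push Not at hV2
    rw [← hp, ← hm] at hV2
    set V := Vh (Ω \ {b1}).card k * dev x (Ω \ {b1}) with hV
    have hVpos : 0 < V := by
      have h1 : 0 ≤ ((k:ℝ) * m)^2 * (1 - 2 * p) := mul_nonneg (by positivity) (by linarith)
      have h2 : 0 < p * V := by linarith
      exact pos_of_mul_pos_right h2 hp0.le
    set μ := (k:ℝ) * m with hμ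
    have hμ0 : 0 < μ := by rw [hμ]; positivity
    have h7 : 7 * μ^2 ≤ V := by
      have h1 : p * (7 * μ^2) ≤ μ^2 * (1 - 2 * p) := by
        have : 7 * p ≤ 1 - 2 * p := by linarith
        have := mul_le_mul_of_nonneg_left this (sq_nonneg μ)
        linarith
      have h2 : p * (7 * μ^2) ≤ p * V := by linarith
      exact le_of_mul_le_mul_left h2 hp0
    have hmμ : 2 * m ≤ μ := by rw [hμ]; exact mul_le_mul_of_nonneg_right hk' hm0.le
    have hμlt : μ ≤ 0.195 := by
      by_contra hcon
      push Not at hcon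
      have h1 : 0.22 * (1 + m)^2 ≤ 0.22 * (1 + μ/2)^2 := by
        apply mul_le_mul_of_nonneg_left _ (by norm_num)
        apply pow_le_pow_left₀ (by linarith); linarith
      nlinarith
    have hm1 : m ≤ 0.0975 := by linarith
    have hVlt : V ≤ 0.265 := by nlinarith
    have hpd : p * (1 - p) * dev x (Ω \ {b1}) ≤ 0.265 := by
      refine le_trans ?_ hVlt
      rw [hV]
      apply mul_le_mul_of_nonneg_right _ (dev_nonneg _ _)
      rw [hUc', hp]
      exact Vh_ge (Or.inr (Or.inl rfl)) hk' (by linarith)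
    have hVb := s1_Vb hp0 hp9 hqp hm1 hpd
    have hqq : 0 < q * (1 - q) := mul_pos hq0 (by linarith)
    have h1q : 0 < 1 - q := by linarith
    have h1q' : 0 < 0.4639 * (1 - q) := by positivity
    apply from_star x (by omega) hΩ ha0
    apply star x hk2 hn hΩ ha0 hxa hx1 hH (h := 1) (by simp) (le_refl 1) haH hxl
      (by intro i hi; rw [Finset.mem_singleton] at hi; rw [hi]; exact hc1) hsum
      (q := q) (Vb := 0.2655 - 0.54 * p) (Bb := 0.2655) (mb := 0.198) (vb := 1.188)
      (T0 := 2.574) (W1 := 1 / (0.4639 * (1 - q))) (E := 0.4639 - q / (1 - q)) hq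
    · rw [← hm]; exact hVb
    · norm_num
    · rw [← hm]; linarith
    · norm_num
    · push_cast; exact s1_mb hp0 hp9 hqp
    · norm_num
    · norm_num
    · norm_num
    · rw [le_div_iff₀ h1q']; linarith
    · push_cast
      have : 1 / (0.4639 * (1 - q)) * 0.4639 * (1 - 1 * q) = 1 := by
        field_simp
      rw [this]
    · norm_num
    · push_cast; linarith
    · push_cast
      have := s1_E hp0 hp9 hqp
      have e : (1 : ℝ) + 2.574 - 1 = 2.574 := by norm_num
      rw [e]; exact this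
    · have : 0 ≤ q / (1 - q) := by positivity
      linarith
    · push_cast
      rw [div_mul_eq_mul_div, div_le_one h1q']
      have e : (1:ℝ) * (1 - (1 - (0.4639 - q / (1 - q))) * (1 - 1 * q)) = 0.4639 * (1 - q) := by
        field_simp
        ring
      rw [e]
  · -- T = 0
    push Not at hc1
    have hxl : ∀ i ∈ Ω, -1 ≤ x i := by
      intro i hi
      have := hb1min i hi
      linarith
    have hm : mean x Ω = 0 := by unfold mean; rw [hsum]; simp
    have hZ : ∀ i ∈ Ω, |x i - mean x Ω| ≤ 1 := by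
      intro i hi
      rw [hm, sub_zero, abs_le]
      exact ⟨hxl i hi, hx1 i hi⟩
    by_cases hV1 : 0.36 * (1:ℝ)^2 ≤ Vh Ω.card k * dev x Ω
    · have := spread0 x hk2 hn (by norm_num) hZ hΩ (by rw [hm]) hV1
      apply from_pr x (T := 0) (by omega) (by omega) (le_refl Ω) (by omega)
      simpa using this
    push Not at hV1
    have hpd : p * (1 - p) * dev x (Ω \ ∅) ≤ 0.36 := by
      rw [Finset.sdiff_empty]
      refine le_trans ?_ (by linarith : Vh Ω.card k * dev x Ω ≤ 0.36)
      apply mul_le_mul_of_nonneg_right _ (dev_nonneg _ _)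
      rw [hΩ, hp]
      have := Vh_ge (n := (n:ℝ)) (k := (k:ℝ)) (T := 0) (Or.inl rfl) hk' (by linarith)
      rw [sub_zero] at this
      exact this
    have hVb := s0_Vb hp0 hp9 hqp hpd
    have hqq : 0 < q * (1 - q) := mul_pos hq0 (by linarith)
    have hm' : mean x (Ω \ ∅) = 0 := by rw [Finset.sdiff_empty]; exact hm
    apply from_star x (by omega) hΩ ha0
    rcases le_total p 0.09 with hp1 | hp1
    · apply star x hk2 hn hΩ ha0 hxa hx1 (H := ∅) (Finset.empty_subset _) (h := 0) (by simp) (by norm_num)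
        (Finset.notMem_empty _) (by intro i hi; rw [Finset.sdiff_empty] at hi; exact hxl i hi)
        (by intro i hi; exact absurd hi (Finset.notMem_empty _)) hsum
        (q := q) (Vb := 0.361 - 0.64 * p) (Bb := 0.361) (mb := 0.2) (vb := 1.277)
        (T0 := 2.754) (W1 := 1 / 0.4639) (E := 0.4639) hq
      · rw [hm']; norm_num at hVb ⊢; exact hVb
      · norm_num
      · rw [hm']; norm_num at hVb ⊢; linarith
      · norm_num
      · push_cast; rw [sub_zero]; exact s0_mb1 hp0 hp1 hqp
      · norm_num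
      · norm_num
      · norm_num
      · norm_num
      · norm_num
      · norm_num
      · push_cast; linarith
      · push_cast
        have e : (1 : ℝ) + 2.754 - 0 = 3.754 := by norm_num
        rw [e]; exact s0_E1 hp0 hp1 hqp
      · norm_num
      · norm_num
    · apply star x hk2 hn hΩ ha0 hxa hx1 (H := ∅) (Finset.empty_subset _) (h := 0) (by simp) (by norm_num)
        (Finset.notMem_empty _) (by intro i hi; rw [Finset.sdiff_empty] at hi; exact hxl i hi)
        (by intro i hi; exact absurd hi (Finset.notMem_empty _)) hsum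
        (q := q) (Vb := 0.361 - 0.64 * p) (Bb := 0.126) (mb := 0.2175) (vb := 1.0521)
        (T0 := 2.3217) (W1 := 1 / 0.4639) (E := 0.4639) hq
      · rw [hm']; norm_num at hVb ⊢; exact hVb
      · norm_num
      · rw [hm']
        have := s0_B2 hp1 hp9 hqp hVb
        norm_num at this ⊢; exact this
      · norm_num
      · push_cast; rw [sub_zero]; exact s0_mb2 hp1 hp9 hqp
      · norm_num
      · norm_num
      · norm_num
      · norm_num
      · norm_num
      · norm_num
      · push_cast; linarith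
      · push_cast
        have e : (1 : ℝ) + 2.3217 - 0 = 3.3217 := by norm_num
        rw [e]; exact s0_E2 hp1 hp9 hqp
      · norm_num
      · norm_num

end Pool.Agent.H36.MMS
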