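import Mathlib

open Finset

set_option linter.unusedSectionVars false

namespace Pool.Agent.H36.MMS

variable {α : Type*} [DecidableEq α]

/-- double counting of pairs (element, subset) -/
lemma sum_erase (U : Finset α) (k : ℕ) (F : α → Finset α → ℝ) :
    ∑ S ∈ U.powersetCard (k+1), ∑ i ∈ S, F i (S.erase i)
      = ∑ i ∈ U, ∑ R ∈ (U.erase i).powersetCard k, F i R := by
  rw [Finset.sum_sigma', Finset.sum_sigma']
  refine Finset.sum_bij' (fun p _ => ⟨p.2, p.1.erase p.2⟩)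
    (fun p _ => ⟨insert p.1 p.2, p.1⟩) ?_ ?_ ?_ ?_ ?_
  · rintro ⟨S, i⟩ h
    simp only [mem_sigma, mem_powersetCard] at h ⊢
    obtain ⟨⟨hSU, hS⟩, hi⟩ := h
    refine ⟨hSU hi, ?_, ?_⟩
    · exact Finset.erase_subset_erase _ hSU
    · rw [Finset.card_erase_of_mem hi, hS]; rfl
  · rintro ⟨i, R⟩ h
    simp only [mem_sigma, mem_powersetCard] at h ⊢
    obtain ⟨hi, hRU, hR⟩ := h
    have hiR : i ∉ R := fun hh => (Finset.mem_erase.mp (hRU hh)).1 rfl
    refine ⟨⟨?_, ?_⟩, Finset.mem_insert_self _ _⟩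
    · exact Finset.insert_subset hi (hRU.trans (Finset.erase_subset _ _))
    · rw [Finset.card_insert_of_notMem hiR, hR]
  · rintro ⟨S, i⟩ h
    simp only [mem_sigma, mem_powersetCard] at h
    simp only [Finset.insert_erase h.2]
  · rintro ⟨i, R⟩ h
    simp only [mem_sigma, mem_powersetCard] at h
    obtain ⟨hi, hRU, hR⟩ := h
    have hiR : i ∉ R := fun hh => (Finset.mem_erase.mp (hRU hh)).1 rfl
    simp only [Finset.erase_insert hiR]
  · rintro ⟨S, i⟩ h
    rfl

/-- normalised average over the `k`-subsets of `U` -/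
noncomputable def avg (U : Finset α) (k : ℕ) (f : Finset α → ℝ) : ℝ :=
  (∑ S ∈ U.powersetCard k, f S) / (U.card.choose k : ℝ)

lemma avg_congr {U : Finset α} {k : ℕ} {f g : Finset α → ℝ}
    (h : ∀ S, S ⊆ U → S.card = k → f S = g S) : avg U k f = avg U k g := by
  unfold avg
  congr 1
  refine Finset.sum_congr rfl ?_
  intro S hS
  rw [mem_powersetCard] at hS
  exact h S hS.1 hS.2

lemma avg_mono {U : Finset α} {k : ℕ} {f g : Finset α → ℝ}
    (h : ∀ S, S ⊆ U → S.card = k → f S ≤ g S) : avg U k f ≤ avg U k g := by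
  unfold avg
  refine div_le_div_of_nonneg_right ?_ (by positivity)
  refine Finset.sum_le_sum ?_
  intro S hS
  rw [mem_powersetCard] at hS
  exact h S hS.1 hS.2

lemma avg_add (U : Finset α) (k : ℕ) (f g : Finset α → ℝ) :
    avg U k (fun S => f S + g S) = avg U k f + avg U k g := by
  unfold avg
  rw [Finset.sum_add_distrib, add_div]

lemma avg_sub (U : Finset α) (k : ℕ) (f g : Finset α → ℝ) :
    avg U k (fun S => f S - g S) = avg U k f - avg U k g := by
  unfold avg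
  rw [Finset.sum_sub_distrib, sub_div]

lemma avg_mul (U : Finset α) (k : ℕ) (c : ℝ) (f : Finset α → ℝ) :
    avg U k (fun S => c * f S) = c * avg U k f := by
  unfold avg
  rw [← Finset.mul_sum, mul_div_assoc]

lemma avg_const {U : Finset α} {k : ℕ} (hk : k ≤ U.card) (c : ℝ) :
    avg U k (fun _ => c) = c := by
  unfold avg
  rw [Finset.sum_const, Finset.card_powersetCard, nsmul_eq_mul]
  have : (U.card.choose k : ℝ) ≠ 0 := by
    exact_mod_cast (Nat.choose_pos hk).ne'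
  field_simp

lemma avg_zero (U : Finset α) (f : Finset α → ℝ) : avg U 0 f = f ∅ := by
  unfold avg
  simp

lemma avg_succ {U : Finset α} {k : ℕ} (hk : k + 1 ≤ U.card) (F : α → Finset α → ℝ) :
    avg U (k+1) (fun S => ∑ i ∈ S, F i (S.erase i))
      = ((k:ℝ)+1) / U.card * ∑ i ∈ U, avg (U.erase i) k (F i) := by
  unfold avg
  rw [sum_erase]
  have hN : 0 < U.card := by omega
  have h1 : ∑ i ∈ U, (∑ S ∈ (U.erase i).powersetCard k, F i S) / ((U.erase i).card.choose k : ℝ)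
      = (∑ i ∈ U, ∑ S ∈ (U.erase i).powersetCard k, F i S) / ((U.card - 1).choose k : ℝ) := by
    rw [Finset.sum_div]
    refine Finset.sum_congr rfl ?_
    intro i hi
    rw [Finset.card_erase_of_mem hi]
  rw [h1]
  obtain ⟨N, hN'⟩ : ∃ N, U.card = N + 1 := ⟨U.card - 1, by omega⟩
  rw [hN']
  simp only [Nat.add_sub_cancel]
  have h2 : ((N+1 : ℕ):ℝ) * (N.choose k : ℝ) = ((N+1).choose (k+1) : ℝ) * ((k:ℝ)+1) := by
    exact_mod_cast Nat.add_one_mul_choose_eq N k
  have h3 : (N.choose k : ℝ) ≠ 0 := by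
    exact_mod_cast (Nat.choose_pos (by omega : k ≤ N)).ne'
  have h4 : ((N+1).choose (k+1) : ℝ) ≠ 0 := by
    exact_mod_cast (Nat.choose_pos (by omega : k+1 ≤ N+1)).ne'
  have h5 : ((N+1 : ℕ):ℝ) ≠ 0 := by positivity
  rw [div_mul_div_comm, div_eq_div_iff h4 (mul_ne_zero h5 h3), h2]
  ring

/-- subset sum -/
noncomputable def sg (z : α → ℝ) (S : Finset α) : ℝ := ∑ i ∈ S, z i

lemma sg_erase (z : α → ℝ) (S : Finset α) {i : α} (hi : i ∈ S) : z i + sg z (S.erase i) = sg z S := by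
  unfold sg
  exact Finset.add_sum_erase S z hi

lemma sg_empty (z : α → ℝ) : sg z ∅ = 0 := by simp [sg]

lemma sg_pow_succ (z : α → ℝ) (S : Finset α) (j : ℕ) :
    sg z S ^ (j+1) = ∑ i ∈ S, z i * (z i + sg z (S.erase i)) ^ j := by
  have : ∀ i ∈ S, z i * (z i + sg z (S.erase i)) ^ j = z i * sg z S ^ j := by
    intro i hi
    rw [sg_erase z S hi]
  rw [Finset.sum_congr rfl this, ← Finset.sum_mul, pow_succ, mul_comm]
  rfl

/-- power sums -/
noncomputable def ps (z : α → ℝ) (j : ℕ) (U : Finset α) : ℝ := ∑ i ∈ U, z i ^ j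

lemma ps_erase (z : α → ℝ) (j : ℕ) {U : Finset α} {i : α} (hi : i ∈ U) :
    ps z j (U.erase i) = ps z j U - z i ^ j := by
  unfold ps
  have := Finset.add_sum_erase U (fun i => z i ^ j) hi
  linarith

lemma avg_pow_succ {U : Finset α} {k : ℕ} (hk : k + 1 ≤ U.card) (z : α → ℝ) (j : ℕ) :
    avg U (k+1) (fun S => sg z S ^ (j+1))
      = ((k:ℝ)+1) / U.card * ∑ i ∈ U, z i * avg (U.erase i) k (fun R => (z i + sg z R) ^ j) := by
  have h1 : avg U (k+1) (fun S => sg z S ^ (j+1))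
      = avg U (k+1) (fun S => ∑ i ∈ S, (fun i R => z i * (z i + sg z R) ^ j) i (S.erase i)) := by
    refine avg_congr ?_
    intro S _ _
    exact sg_pow_succ z S j
  rw [h1, avg_succ hk (fun i R => z i * (z i + sg z R) ^ j)]
  congr 1
  refine Finset.sum_congr rfl ?_
  intro i _
  exact avg_mul _ _ _ _

lemma avg_shift1 {U : Finset α} {k : ℕ} (hk : k ≤ U.card) (z : α → ℝ) (c : ℝ) :
    avg U k (fun R => (c + sg z R) ^ 1) = c + avg U k (fun R => sg z R ^ 1) := by
  have : (fun R => (c + sg z R) ^ 1) = (fun R => (fun _ => c) R + sg z R ^ 1) := by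
    funext R; ring
  rw [this, avg_add, avg_const hk]

lemma avg_shift2 {U : Finset α} {k : ℕ} (hk : k ≤ U.card) (z : α → ℝ) (c : ℝ) :
    avg U k (fun R => (c + sg z R) ^ 2)
      = c^2 + 2 * c * avg U k (fun R => sg z R ^ 1) + avg U k (fun R => sg z R ^ 2) := by
  have : (fun R => (c + sg z R) ^ 2)
      = (fun R => ((fun _ => c^2) R + (2 * c) * sg z R ^ 1) + sg z R ^ 2) := by
    funext R; ring
  rw [this, avg_add, avg_add, avg_mul, avg_const hk]

lemma avg_shift3 {U : Finset α} {k : ℕ} (hk : k ≤ U.card) (z : α → ℝ) (c : ℝ) :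
    avg U k (fun R => (c + sg z R) ^ 3)
      = c^3 + 3 * c^2 * avg U k (fun R => sg z R ^ 1) + 3 * c * avg U k (fun R => sg z R ^ 2)
        + avg U k (fun R => sg z R ^ 3) := by
  have : (fun R => (c + sg z R) ^ 3)
      = (fun R => (((fun _ => c^3) R + (3 * c^2) * sg z R ^ 1) + (3 * c) * sg z R ^ 2)
          + sg z R ^ 3) := by
    funext R; ring
  rw [this, avg_add, avg_add, avg_add, avg_mul, avg_mul, avg_const hk]

lemma cast_card_erase {U : Finset α} {i : α} (hi : i ∈ U) :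
    (((U.erase i).card : ℕ) : ℝ) = (U.card : ℝ) - 1 := by
  rw [Finset.card_erase_of_mem hi]
  have : 1 ≤ U.card := Finset.card_pos.mpr ⟨i, hi⟩
  push_cast [Nat.cast_sub this]
  ring

lemma mom1 {U : Finset α} {k : ℕ} (hk : k ≤ U.card) (z : α → ℝ) :
    avg U k (fun S => sg z S ^ 1) = (k:ℝ) / U.card * ps z 1 U := by
  cases k with
  | zero => simp [avg_zero, sg_empty]
  | succ k =>
    rw [avg_pow_succ hk z 0]
    have : ∀ i ∈ U, z i * avg (U.erase i) k (fun R => (z i + sg z R) ^ 0) = z i ^ 1 := by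
      intro i hi
      have hc : k ≤ (U.erase i).card := by
        rw [Finset.card_erase_of_mem hi]; omega
      simp only [pow_zero]
      rw [avg_const hc]; ring
    rw [Finset.sum_congr rfl this]
    push_cast
    rfl

lemma mom2 {U : Finset α} {k : ℕ} (hk : k ≤ U.card) (z : α → ℝ) :
    avg U k (fun S => sg z S ^ 2)
      = (k:ℝ) / U.card * (ps z 2 U + ((k:ℝ)-1)/((U.card:ℝ)-1) * ((ps z 1 U)^2 - ps z 2 U)) := by
  cases k with
  | zero => simp [avg_zero, sg_empty]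
  | succ k =>
    rw [avg_pow_succ hk z 1]
    have : ∀ i ∈ U, z i * avg (U.erase i) k (fun R => (z i + sg z R) ^ 1)
        = (1 - (k:ℝ)/((U.card:ℝ)-1)) * z i ^ 2 + (k:ℝ)/((U.card:ℝ)-1) * ps z 1 U * z i ^ 1 := by
      intro i hi
      have hc : k ≤ (U.erase i).card := by
        rw [Finset.card_erase_of_mem hi]; omega
      rw [avg_shift1 hc, mom1 hc, ps_erase z 1 hi, cast_card_erase hi]
      ring
    rw [Finset.sum_congr rfl this, Finset.sum_add_distrib, ← Finset.mul_sum, ← Finset.mul_sum]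
    change _ / _ * (_ * ps z 2 U + _ * ps z 1 U) = _
    push_cast
    ring

lemma mom3 {U : Finset α} {k : ℕ} (hk : k ≤ U.card) (z : α → ℝ) :
    avg U k (fun S => sg z S ^ 3)
      = (k:ℝ) / U.card * (ps z 3 U + ((k:ℝ)-1)/((U.card:ℝ)-1) *
          (3 * (ps z 1 U * ps z 2 U - ps z 3 U)
            + ((k:ℝ)-2)/((U.card:ℝ)-2) *
              ((ps z 1 U)^3 - 3 * ps z 1 U * ps z 2 U + 2 * ps z 3 U))) := by
  cases k with
  | zero => simp [avg_zero, sg_empty]
  | succ k =>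
    rw [avg_pow_succ hk z 2]
    set u : ℝ := (k:ℝ)/((U.card:ℝ)-1) with hu
    set w : ℝ := ((k:ℝ)-1)/((U.card:ℝ)-2) with hw
    have : ∀ i ∈ U, z i * avg (U.erase i) k (fun R => (z i + sg z R) ^ 2)
        = (1 - 3*u + 2*u*w) * z i ^ 3 + (2*u*ps z 1 U - 2*u*w*ps z 1 U) * z i ^ 2
          + (u * ps z 2 U + u*w*((ps z 1 U)^2 - ps z 2 U)) * z i ^ 1 := by
      intro i hi
      have hc : k ≤ (U.erase i).card := by
        rw [Finset.card_erase_of_mem hi]; omega
      rw [avg_shift2 hc, mom1 hc, mom2 hc, ps_erase z 1 hi, ps_erase z 2 hi, cast_card_erase hi]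
      have e1 : (U.card:ℝ) - 1 - 1 = (U.card:ℝ) - 2 := by ring
      rw [e1, ← hu, ← hw]
      ring
    rw [Finset.sum_congr rfl this, Finset.sum_add_distrib, Finset.sum_add_distrib,
      ← Finset.mul_sum, ← Finset.mul_sum, ← Finset.mul_sum]
    change _ / _ * (_ * ps z 3 U + _ * ps z 2 U + _ * ps z 1 U) = _
    push_cast
    have e2 : (k:ℝ) + 1 - 1 = k := by ring
    have e3 : (k:ℝ) + 1 - 2 = k - 1 := by ring
    rw [e2, e3, ← hu, ← hw]
    ring

lemma mom4 {U : Finset α} {k : ℕ} (hk : k ≤ U.card) (z : α → ℝ) (h0 : ps z 1 U = 0) :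
    avg U k (fun S => sg z S ^ 4)
      = (k:ℝ) / U.card * (ps z 4 U + ((k:ℝ)-1)/((U.card:ℝ)-1) *
          (3 * (ps z 2 U)^2 - 7 * ps z 4 U
            + ((k:ℝ)-2)/((U.card:ℝ)-2) *
              (12 * ps z 4 U - 6 * (ps z 2 U)^2
                + ((k:ℝ)-3)/((U.card:ℝ)-3) * (3 * (ps z 2 U)^2 - 6 * ps z 4 U)))) := by
  cases k with
  | zero => simp [avg_zero, sg_empty]
  | succ k =>
    rw [avg_pow_succ hk z 3]
    set u : ℝ := (k:ℝ)/((U.card:ℝ)-1) with hu
    set w : ℝ := ((k:ℝ)-1)/((U.card:ℝ)-2) with hw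
    set v : ℝ := ((k:ℝ)-2)/((U.card:ℝ)-3) with hv
    have : ∀ i ∈ U, z i * avg (U.erase i) k (fun R => (z i + sg z R) ^ 3)
        = (1 - 7*u + 12*u*w - 6*u*w*v) * z i ^ 4
          + (3*u*ps z 2 U - 6*u*w*ps z 2 U + 3*u*w*v*ps z 2 U) * z i ^ 2
          + (u * ps z 3 U - 3*u*w*ps z 3 U + 2*u*w*v*ps z 3 U) * z i ^ 1 := by
      intro i hi
      have hc : k ≤ (U.erase i).card := by
        rw [Finset.card_erase_of_mem hi]; omega
      rw [avg_shift3 hc, mom1 hc, mom2 hc, mom3 hc, ps_erase z 1 hi, ps_erase z 2 hi,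
        ps_erase z 3 hi, cast_card_erase hi, h0]
      have e1 : (U.card:ℝ) - 1 - 1 = (U.card:ℝ) - 2 := by ring
      have e1' : (U.card:ℝ) - 1 - 2 = (U.card:ℝ) - 3 := by ring
      rw [e1, e1', ← hu, ← hw, ← hv]
      ring
    rw [Finset.sum_congr rfl this, Finset.sum_add_distrib, Finset.sum_add_distrib,
      ← Finset.mul_sum, ← Finset.mul_sum, ← Finset.mul_sum]
    change _ / _ * (_ * ps z 4 U + _ * ps z 2 U + _ * ps z 1 U) = _
    rw [h0]
    push_cast
    have e2 : (k:ℝ) + 1 - 1 = k := by ring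
    have e3 : (k:ℝ) + 1 - 2 = k - 1 := by ring
    have e4 : (k:ℝ) + 1 - 3 = k - 2 := by ring
    rw [e2, e3, e4, ← hu, ← hw, ← hv]
    ring

end Pool.Agent.H36.MMS
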