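import Mathlib

namespace Pool.Agent.H36.MMS

/-- concave quadratic on an interval -/
lemma concave_end {A B G V V1 V2 : ℝ} (h1 : V1 ≤ V) (h2 : V ≤ V2)
    (g1 : G ≤ A * V1 - 3 * V1^2 + B) (g2 : G ≤ A * V2 - 3 * V2^2 + B) :
    G ≤ A * V - 3 * V^2 + B := by
  rcases eq_or_lt_of_le (h1.trans h2) with h | h
  · have : V = V1 := le_antisymm (by linarith) h1
    rw [this]; exact g1
  · have h3 : 0 ≤ 3 * ((V - V1) * (V2 - V) * (V2 - V1)) := by
      have := mul_nonneg (mul_nonneg (sub_nonneg.mpr h1) (sub_nonneg.mpr h2)) (sub_nonneg.mpr h.le)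
      linarith
    have e : (V2 - V1) * (A * V - 3 * V^2 + B)
        = (V2 - V) * (A * V1 - 3 * V1^2 + B) + (V - V1) * (A * V2 - 3 * V2^2 + B)
          + 3 * ((V - V1) * (V2 - V) * (V2 - V1)) := by ring
    have h4 := mul_le_mul_of_nonneg_left g1 (sub_nonneg.mpr h2)
    have h5 := mul_le_mul_of_nonneg_left g2 (sub_nonneg.mpr h1)
    have h6 : (V2 - V1) * G ≤ (V2 - V1) * (A * V - 3 * V^2 + B) := by
      rw [e]; nlinarith
    exact le_of_mul_le_mul_left h6 (by linarith)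

/-- numerator of the shifted bound -/
noncomputable def En (p V b τ : ℝ) : ℝ :=
  -(V + 3 * V * (V - 2 * (p * (1-p)))) + (3 * b^2 + 2 * b * τ + τ^2) * V + b^2 * τ * (2 * b + τ)

noncomputable def Mn (b τ : ℝ) : ℝ := 4.85 * b^4 + 11.2 * b^3 * τ + 9 * b^2 * τ^2

lemma En_concave {p V b τ G V1 V2 : ℝ} (h1 : V1 ≤ V) (h2 : V ≤ V2)
    (g1 : G ≤ En p V1 b τ) (g2 : G ≤ En p V2 b τ) : G ≤ En p V b τ := by
  have e : ∀ V, En p V b τ = (-1 + 6 * (p * (1-p)) + (3 * b^2 + 2 * b * τ + τ^2)) * V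
      - 3 * V^2 + b^2 * τ * (2 * b + τ) := by
    intro V; unfold En; ring
  rw [e] at g1 g2 ⊢
  exact concave_end h1 h2 g1 g2

lemma En_range {p V b τ T V1 V2 : ℝ} (hT : 0 < 1 - T * p) (h1 : V1 ≤ V) (h2 : V ≤ V2)
    (g1 : p * Mn b τ ≤ En p V1 b τ * (1 - T * p)) (g2 : p * Mn b τ ≤ En p V2 b τ * (1 - T * p)) :
    p * Mn b τ ≤ En p V b τ * (1 - T * p) := by
  rw [← div_le_iff₀ hT] at g1 g2 ⊢
  exact En_concave h1 h2 g1 g2

section
variable {p V : ℝ} (hp : 0 < p) (hp' : p ≤ 1/9)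
include hp hp'

lemma n2a (h1 : 4*p - 12*p^2 ≤ V) (h2 : V ≤ 0.65) :
    p * Mn 1 (2*p) ≤ En p V 1 (2*p) * (1 - 2 * p) := by
  have h3 := mul_nonneg hp.le (sub_nonneg.mpr hp')
  have h4 := mul_nonneg hp.le h3
  have h5 := mul_nonneg hp.le h4
  have h6 := mul_nonneg hp.le h5
  apply En_range (by linarith) h1 h2
  · unfold Mn En; nlinarith
  · unfold Mn En; nlinarith

lemma n2b (h1 : 0.65 ≤ V) (h2 : V ≤ 1.1) :
    p * Mn 1.3 (2*p) ≤ En p V 1.3 (2*p) * (1 - 2 * p) := by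
  have h3 := mul_nonneg hp.le (sub_nonneg.mpr hp')
  have h4 := mul_nonneg hp.le h3
  have h5 := mul_nonneg hp.le h4
  have h6 := mul_nonneg hp.le h5
  apply En_range (by linarith) h1 h2
  · unfold Mn En; nlinarith
  · unfold Mn En; nlinarith

lemma n2c (h1 : 1.1 ≤ V) (h2 : V ≤ 2) :
    p * Mn 1.7 (2*p) ≤ En p V 1.7 (2*p) * (1 - 2 * p) := by
  have h3 := mul_nonneg hp.le (sub_nonneg.mpr hp')
  have h4 := mul_nonneg hp.le h3
  have h5 := mul_nonneg hp.le h4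
  have h6 := mul_nonneg hp.le h5
  apply En_range (by linarith) h1 h2
  · unfold Mn En; nlinarith
  · unfold Mn En; nlinarith

lemma n1a (h1 : 0.22 ≤ V) (h2 : V ≤ 0.3) :
    p * Mn 0.8 p ≤ En p V 0.8 p * (1 - 1 * p) := by
  have h3 := mul_nonneg hp.le (sub_nonneg.mpr hp')
  have h4 := mul_nonneg hp.le h3
  have h5 := mul_nonneg hp.le h4
  have h6 := mul_nonneg hp.le h5
  apply En_range (by linarith) h1 h2
  · unfold Mn En; nlinarith
  · unfold Mn En; nlinarith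

lemma n1b (h1 : 0.3 ≤ V) (h2 : V ≤ 0.62) :
    p * Mn 1 p ≤ En p V 1 p * (1 - 1 * p) := by
  have h3 := mul_nonneg hp.le (sub_nonneg.mpr hp')
  have h4 := mul_nonneg hp.le h3
  have h5 := mul_nonneg hp.le h4
  have h6 := mul_nonneg hp.le h5
  apply En_range (by linarith) h1 h2
  · unfold Mn En; nlinarith
  · unfold Mn En; nlinarith

end

lemma nc_aux {p V V0 T : ℝ} (hV0 : 0 < V0) (h2 : V0 ≤ V)
    (h3 : 0 ≤ 0.4639 * (1 - T * p) - 3 * p)
    (h4 : 0 ≤ (0.4639 * (1 - T * p) - 3 * p) * V0 - p * (1 - 6 * p + 6 * p^2)) :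
    p * (V + 3 * V * (V - 2 * (p * (1-p)))) ≤ 0.4639 * V^2 * (1 - T * p) := by
  have hV : 0 < V := by linarith
  have e1 : 0.4639 * V^2 * (1 - T * p) - p * (V + 3 * V * (V - 2 * (p * (1-p))))
      = V * ((0.4639 * (1 - T*p) - 3 * p) * V - p * (1 - 6 * p + 6 * p^2)) := by ring
  have h5 : (0.4639 * (1 - T*p) - 3 * p) * V0 ≤ (0.4639 * (1 - T*p) - 3 * p) * V :=
      mul_le_mul_of_nonneg_left h2 h3
  have := mul_nonneg hV.le (by linarith : 0 ≤ (0.4639 * (1 - T*p) - 3 * p) * V - p * (1 - 6 * p + 6 * p^2))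
  linarith

section
variable {p V : ℝ} (hp : 0 < p) (hp' : p ≤ 1/9)
include hp hp'

lemma nc2 (h2 : 2 ≤ V) :
    p * (V + 3 * V * (V - 2 * (p * (1-p)))) ≤ 0.4639 * V^2 * (1 - 2 * p) := by
  have h3 := mul_nonneg hp.le (sub_nonneg.mpr hp')
  have h4 := mul_nonneg hp.le h3
  apply nc_aux (by norm_num) h2
  · linarith
  · nlinarith

lemma nc1 (h2 : 0.62 ≤ V) :
    p * (V + 3 * V * (V - 2 * (p * (1-p)))) ≤ 0.4639 * V^2 * (1 - 1 * p) := by
  have h3 := mul_nonneg hp.le (sub_nonneg.mpr hp')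
  have h4 := mul_nonneg hp.le h3
  apply nc_aux (by norm_num) h2
  · linarith
  · nlinarith

lemma nc0 (h2 : 0.36 ≤ V) :
    p * (V + 3 * V * (V - 2 * (p * (1-p)))) ≤ 0.4639 * V^2 * (1 - 0 * p) := by
  have h3 := mul_nonneg hp.le (sub_nonneg.mpr hp')
  have h4 := mul_nonneg hp.le h3
  apply nc_aux (by norm_num) h2
  · linarith
  · nlinarith

end

end Pool.Agent.H36.MMS
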