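import Pool.Agent.H36.MMSTail

open Finset

set_option linter.unusedSectionVars false

namespace Pool.Agent.H36.MMS

variable {α : Type*} [DecidableEq α]

/-- mean over `U` -/
noncomputable def mean (x : α → ℝ) (U : Finset α) : ℝ := sg x U / U.card

/-- centred population -/
noncomputable def zc (x : α → ℝ) (U : Finset α) : α → ℝ := fun i => x i - mean x U

/-- sum of squared deviations -/
noncomputable def dev (x : α → ℝ) (U : Finset α) : ℝ := ps (zc x U) 2 U

/-- variance factor -/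
noncomputable def Vh (N k : ℝ) : ℝ := k * (N - k) / (N * (N - 1))

noncomputable def Lh (N k : ℝ) : ℝ := (k - 1) * (N - k - 1) / ((N - 2) * (N - 3))

lemma sg_zc (x : α → ℝ) (U S : Finset α) : sg (zc x U) S = sg x S - S.card * mean x U := by
  unfold sg zc
  rw [Finset.sum_sub_distrib, Finset.sum_const, nsmul_eq_mul]

lemma ps_one (z : α → ℝ) (U : Finset α) : ps z 1 U = sg z U := by
  unfold ps sg
  simp

lemma card_mul_mean (x : α → ℝ) (U : Finset α) (hU : 0 < U.card) :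
    (U.card : ℝ) * mean x U = sg x U := by
  unfold mean
  have : (U.card : ℝ) ≠ 0 := by positivity
  field_simp

lemma ps_zc_one (x : α → ℝ) (U : Finset α) (hU : 0 < U.card) : ps (zc x U) 1 U = 0 := by
  rw [ps_one, sg_zc, card_mul_mean x U hU, sub_self]

lemma dev_nonneg (x : α → ℝ) (U : Finset α) : 0 ≤ dev x U := by
  unfold dev ps
  exact Finset.sum_nonneg (fun i _ => by positivity)

/-- deviation around any centre is at least `dev` -/
lemma dev_le_center (x : α → ℝ) (U : Finset α) (c : ℝ) :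
    dev x U ≤ ∑ i ∈ U, (x i - c)^2 := by
  rcases Nat.eq_zero_or_pos U.card with h | h
  · have : U = ∅ := Finset.card_eq_zero.mp h
    subst this
    simp [dev, ps]
  · have e : ∑ i ∈ U, (x i - c)^2 = dev x U + U.card * (mean x U - c)^2 := by
      have h1 : ∀ i ∈ U, (x i - c)^2 = (zc x U i)^2 + 2 * (mean x U - c) * (zc x U i)^1
          + (mean x U - c)^2 := by
        intro i _; unfold zc; ring
      rw [Finset.sum_congr rfl h1, Finset.sum_add_distrib, Finset.sum_add_distrib,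
        ← Finset.mul_sum, Finset.sum_const, nsmul_eq_mul]
      have h2 : ∑ i ∈ U, zc x U i ^ 1 = 0 := ps_zc_one x U h
      rw [h2]
      unfold dev ps
      ring
    rw [e]
    have : 0 ≤ (U.card:ℝ) * (mean x U - c)^2 := by positivity
    linarith

lemma dev_mono (x : α → ℝ) {U' U : Finset α} (h : U' ⊆ U) : dev x U' ≤ dev x U := by
  refine (dev_le_center x U' (mean x U)).trans ?_
  unfold dev ps zc
  exact Finset.sum_le_sum_of_subset_of_nonneg h (fun i _ _ => by positivity)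

lemma dev_erase (x : α → ℝ) {U' U : Finset α} {a : α} (h : U' ⊆ U.erase a) (ha : a ∈ U) :
    dev x U' ≤ dev x U - (x a - mean x U)^2 := by
  refine (dev_le_center x U' (mean x U)).trans ?_
  have h1 : ∑ i ∈ U', (x i - mean x U)^2 ≤ ∑ i ∈ U.erase a, (x i - mean x U)^2 :=
    Finset.sum_le_sum_of_subset_of_nonneg h (fun i _ _ => by positivity)
  have h2 := Finset.add_sum_erase U (fun i => (x i - mean x U)^2) ha
  have h3 : dev x U = ∑ i ∈ U, (x i - mean x U)^2 := rfl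
  linarith

lemma avg_W1 (x : α → ℝ) {U : Finset α} {k : ℕ} (hk : k ≤ U.card) (hU : 0 < U.card) :
    avg U k (fun S => sg (zc x U) S ^ 1) = 0 := by
  rw [mom1 hk, ps_zc_one x U hU, mul_zero]

lemma avg_W2 (x : α → ℝ) {U : Finset α} {k : ℕ} (hk : k ≤ U.card) (hU : 2 ≤ U.card) :
    avg U k (fun S => sg (zc x U) S ^ 2) = Vh U.card k * dev x U := by
  rw [mom2 hk, ps_zc_one x U (by omega)]
  have h1 : (U.card:ℝ) ≠ 0 := by
    have : 0 < U.card := by omega
    positivity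
  have h2 : (U.card:ℝ) - 1 ≠ 0 := by
    have : (2:ℝ) ≤ U.card := by exact_mod_cast hU
    linarith
  unfold Vh dev
  field_simp
  ring

lemma avg_W4 (x : α → ℝ) {U : Finset α} {k : ℕ} (hk : k ≤ U.card) (hU : 4 ≤ U.card) :
    avg U k (fun S => sg (zc x U) S ^ 4)
      = Vh U.card k * ((1 - 6 * Lh U.card k) * ps (zc x U) 4 U + 3 * Lh U.card k * (dev x U)^2) := by
  rw [mom4 hk _ (ps_zc_one x U (by omega))]
  have h0 : (4:ℝ) ≤ U.card := by exact_mod_cast hU
  have h1 : (U.card:ℝ) ≠ 0 := by linarith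
  have h2 : (U.card:ℝ) - 1 ≠ 0 := by linarith
  have h3 : (U.card:ℝ) - 2 ≠ 0 := by linarith
  have h4 : (U.card:ℝ) - 3 ≠ 0 := by linarith
  unfold Vh Lh dev
  field_simp
  ring

lemma ps4_le_sq (x : α → ℝ) (U : Finset α) : ps (zc x U) 4 U ≤ (dev x U)^2 := by
  unfold dev ps
  have h : ∀ i ∈ U, zc x U i ^ 4 ≤ zc x U i ^ 2 * ∑ j ∈ U, zc x U j ^ 2 := by
    intro i hi
    have h1 : zc x U i ^ 2 ≤ ∑ j ∈ U, zc x U j ^ 2 :=
      Finset.single_le_sum (f := fun j => zc x U j ^ 2) (fun j _ => by positivity) hi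
    have e : zc x U i ^ 4 = zc x U i ^ 2 * zc x U i ^ 2 := by ring
    rw [e]
    exact mul_le_mul_of_nonneg_left h1 (by positivity)
  refine (Finset.sum_le_sum h).trans ?_
  rw [← Finset.sum_mul, sq]

lemma ps4_le_mul (x : α → ℝ) (U : Finset α) {Z : ℝ} (hZ : ∀ i ∈ U, |x i - mean x U| ≤ Z) :
    ps (zc x U) 4 U ≤ Z^2 * dev x U := by
  unfold dev ps
  rw [Finset.mul_sum]
  refine Finset.sum_le_sum ?_
  intro i hi
  have h1 : zc x U i ^ 2 ≤ Z^2 := by
    have := hZ i hi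
    unfold zc
    rw [← sq_abs (x i - mean x U)]
    exact pow_le_pow_left₀ (abs_nonneg _) this 2
  have e : zc x U i ^ 4 = zc x U i ^ 2 * zc x U i ^ 2 := by ring
  rw [e]
  exact mul_le_mul_of_nonneg_right h1 (by positivity)

/-- `L ≤ Vh` -/
lemma Lh_le_Vh {N k : ℝ} (hk : 1 ≤ k) (hN : 4 * k ≤ N) (hN4 : 4 ≤ N) : Lh N k ≤ Vh N k := by
  unfold Lh Vh
  have h2 : 0 < N - 2 := by linarith
  have h3 : 0 < N - 3 := by linarith
  have h1 : 0 < N - 1 := by linarith
  have h0 : 0 < N := by linarith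
  rw [div_le_div_iff₀ (by positivity) (by positivity)]
  have e : k * (N - k) * ((N - 2) * (N - 3)) - (k - 1) * (N - k - 1) * (N * (N - 1))
      = N * (N-1)^2 - k * (N - k) * (4 * N - 6) := by ring
  have hb : k * (N - k) ≤ 3/16 * N^2 := by nlinarith
  have h4 : k * (N - k) * (4 * N - 6) ≤ 3/16 * N^2 * (4 * N - 6) :=
    mul_le_mul_of_nonneg_right hb (by linarith)
  nlinarith [sq_nonneg N, mul_nonneg h0.le (sq_nonneg N), mul_nonneg h0.le (sq_nonneg (N-4))]

lemma Lh_nonneg {N k : ℝ} (hk : 1 ≤ k) (hN : 4 * k ≤ N) (hN4 : 4 ≤ N) : 0 ≤ Lh N k := by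
  unfold Lh
  have h2 : 0 < N - 2 := by linarith
  have h3 : 0 < N - 3 := by linarith
  exact div_nonneg (mul_nonneg (by linarith) (by linarith)) (by positivity)

lemma Vh_pos {N k : ℝ} (hk : 1 ≤ k) (hN : 4 * k ≤ N) (_ : 4 ≤ N) : 0 < Vh N k := by
  unfold Vh
  have h1 : 0 < N - 1 := by linarith
  have h0 : 0 < N := by linarith
  exact div_pos (mul_pos (by linarith) (by linarith)) (by positivity)

/-- the fourth moment bound -/
lemma fourth_le (x : α → ℝ) {U : Finset α} {k : ℕ} (hk1 : 1 ≤ k) (hkN : 7 * k ≤ U.card)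
    {Z : ℝ} (hZ : ∀ i ∈ U, |x i - mean x U| ≤ Z) :
    avg U k (fun S => sg (zc x U) S ^ 4)
      ≤ Z^2 * (Vh U.card k * dev x U)
        + 3 * (Vh U.card k * dev x U) * max 0 (Vh U.card k * dev x U - 2 * Vh U.card k * Z^2) := by
  have hk : k ≤ U.card := by omega
  have hU : 4 ≤ U.card := by omega
  rw [avg_W4 x hk hU]
  have hk1' : (1:ℝ) ≤ k := by exact_mod_cast hk1
  have hkN' : 7 * (k:ℝ) ≤ U.card := by exact_mod_cast hkN
  have hL := Lh_le_Vh hk1' (by linarith : 4 * (k:ℝ) ≤ U.card) (by linarith)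
  have hL0 := Lh_nonneg hk1' (by linarith : 4 * (k:ℝ) ≤ U.card) (by linarith)
  have hV0 := Vh_pos hk1' (by linarith : 4 * (k:ℝ) ≤ U.card) (by linarith)
  have hL6 : 6 * Lh U.card k ≤ 1 := by
    have hVle : Vh U.card k ≤ 1/6 := by
      unfold Vh
      have h1 : 0 < (U.card:ℝ) - 1 := by linarith
      have h0 : 0 < (U.card:ℝ) := by linarith
      rw [div_le_iff₀ (by positivity)]
      nlinarith
    linarith
  set V := Vh (U.card:ℝ) k with hV
  set L := Lh (U.card:ℝ) k with hLdef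
  set D := dev x U with hD
  have hD0 : 0 ≤ D := dev_nonneg x U
  have h4 := ps4_le_mul x U hZ
  have h5 : (1 - 6 * L) * ps (zc x U) 4 U ≤ (1 - 6 * L) * (Z^2 * D) :=
    mul_le_mul_of_nonneg_left h4 (by linarith)
  have h6 : V * ((1 - 6 * L) * ps (zc x U) 4 U + 3 * L * D^2)
      ≤ V * ((1 - 6 * L) * (Z^2 * D) + 3 * L * D^2) :=
    mul_le_mul_of_nonneg_left (by linarith) hV0.le
  refine h6.trans ?_
  -- V((1-6L)Z²D+3LD²) = Z²VD + 3 L D (V D - 2 V Z²)
  have e : V * ((1 - 6 * L) * (Z^2 * D) + 3 * L * D^2)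
      = Z^2 * (V * D) + 3 * L * D * (V * D - 2 * V * Z^2) := by ring
  rw [e]
  have h7 : V * D - 2 * V * Z^2 ≤ max 0 (V * D - 2 * V * Z^2) := le_max_right _ _
  have h8 : 0 ≤ max 0 (V * D - 2 * V * Z^2) := le_max_left _ _
  have h9 : 3 * L * D * (V * D - 2 * V * Z^2) ≤ 3 * L * D * max 0 (V * D - 2 * V * Z^2) :=
    mul_le_mul_of_nonneg_left h7 (by positivity)
  have h10 : 3 * L * D * max 0 (V * D - 2 * V * Z^2) ≤ 3 * (V * D) * max 0 (V * D - 2 * V * Z^2) := by
    apply mul_le_mul_of_nonneg_right _ h8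
    nlinarith [mul_le_mul_of_nonneg_right hL hD0]
  linarith

/-- lower bound `V^2 / E W^4 ≥ k / N` -/
lemma fourth_le_sq (x : α → ℝ) {U : Finset α} {k : ℕ} (hk1 : 1 ≤ k) (hkN : 7 * k ≤ U.card) :
    (k:ℝ) / U.card * avg U k (fun S => sg (zc x U) S ^ 4) ≤ (Vh U.card k * dev x U)^2 := by
  have hk : k ≤ U.card := by omega
  have hU : 4 ≤ U.card := by omega
  rw [avg_W4 x hk hU]
  have hk1' : (1:ℝ) ≤ k := by exact_mod_cast hk1
  have hkN' : 7 * (k:ℝ) ≤ U.card := by exact_mod_cast hkN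
  have hL := Lh_le_Vh hk1' (by linarith : 4 * (k:ℝ) ≤ U.card) (by linarith)
  have hL0 := Lh_nonneg hk1' (by linarith : 4 * (k:ℝ) ≤ U.card) (by linarith)
  have hV0 := Vh_pos hk1' (by linarith : 4 * (k:ℝ) ≤ U.card) (by linarith)
  have hL6 : 6 * Lh U.card k ≤ 1 := by
    have hVle : Vh U.card k ≤ 1/6 := by
      unfold Vh
      have h1 : 0 < (U.card:ℝ) - 1 := by linarith
      have h0 : 0 < (U.card:ℝ) := by linarith
      rw [div_le_iff₀ (by positivity)]
      nlinarith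
    linarith
  have hkey : (k:ℝ) / U.card * (1 - 3 * Lh U.card k) ≤ Vh U.card k := by
    unfold Vh Lh
    set N : ℝ := (U.card:ℝ) with hN
    have h0 : 0 < N := by linarith
    have h1 : 0 < N - 1 := by linarith
    have h2 : 0 < N - 2 := by linarith
    have h3 : 0 < N - 3 := by linarith
    have e : (k:ℝ) * (N - k) / (N * (N - 1)) - (k:ℝ) / N * (1 - 3 * ((k - 1) * (N - k - 1) / ((N - 2) * (N - 3))))
        = k * (k - 1) * (3 * (N - 1) * (N - k - 1) - (N - 2) * (N - 3)) / (N * (N - 1) * ((N - 2) * (N - 3))) := by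
      field_simp
      ring
    have h4 : 0 ≤ 3 * (N - 1) * (N - k - 1) - (N - 2) * (N - 3) := by nlinarith
    have h5 : 0 ≤ k * (k - 1) * (3 * (N - 1) * (N - k - 1) - (N - 2) * (N - 3)) / (N * (N - 1) * ((N - 2) * (N - 3))) := by
      apply div_nonneg
      · exact mul_nonneg (mul_nonneg (by linarith) (by linarith)) h4
      · positivity
    linarith
  set V := Vh (U.card:ℝ) k with hV
  set L := Lh (U.card:ℝ) k with hLdef
  set D := dev x U with hD
  have hD0 : 0 ≤ D := dev_nonneg x U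
  have h4 := ps4_le_sq x U
  have h5 : (1 - 6 * L) * ps (zc x U) 4 U ≤ (1 - 6 * L) * D^2 :=
    mul_le_mul_of_nonneg_left h4 (by linarith)
  have h6 : (k:ℝ) / U.card * (V * ((1 - 6 * L) * ps (zc x U) 4 U + 3 * L * D^2))
      ≤ (k:ℝ) / U.card * (V * ((1 - 6 * L) * D^2 + 3 * L * D^2)) := by
    apply mul_le_mul_of_nonneg_left _ (by positivity)
    apply mul_le_mul_of_nonneg_left _ hV0.le
    linarith
  refine h6.trans ?_
  have h7 : (k:ℝ) / U.card * (1 - 3 * L) * (V * D^2) ≤ V * (V * D^2) :=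
    mul_le_mul_of_nonneg_right hkey (by positivity)
  have e2 : (k:ℝ) / U.card * (V * ((1 - 6 * L) * D^2 + 3 * L * D^2))
      = (k:ℝ) / U.card * (1 - 3 * L) * (V * D^2) := by ring
  rw [e2]
  refine h7.trans (le_of_eq ?_)
  ring

/-- `(E W^2)^2 ≤ E W^4` -/
lemma avg_sq_le {U : Finset α} {k : ℕ} (hk : k ≤ U.card) (W : Finset α → ℝ) {V : ℝ}
    (h2 : avg U k (fun S => W S ^ 2) = V) : V^2 ≤ avg U k (fun S => W S ^ 4) := by
  have h : 0 ≤ avg U k (fun S => (W S ^ 2 - V)^2) := by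
    have : avg U k (fun _ => (0:ℝ)) ≤ avg U k (fun S => (W S ^ 2 - V)^2) := by
      apply avg_mono
      intro S _ _; positivity
    rwa [avg_const hk] at this
  have e : avg U k (fun S => (W S ^ 2 - V)^2) = avg U k (fun S => W S ^ 4) - V^2 := by
    have : (fun S => (W S ^ 2 - V)^2)
        = (fun S => (W S ^ 4 + (-(2 * V)) * W S ^ 2) + (fun _ => V^2) S) := by
      funext S; ring
    rw [this, avg_add, avg_add, avg_mul, avg_const hk, h2]
    ring
  linarith

/-- binomial restriction bound -/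
lemma choose_restrict (n k : ℕ) (hn : 0 < n) (hk : 1 ≤ k) :
    ∀ T : ℕ, T ≤ n → (1 - (T:ℝ) * ((k:ℝ) / n)) * (n.choose k : ℝ) ≤ ((n - T).choose k : ℝ) := by
  intro T
  induction T with
  | zero => intro _; simp
  | succ T ih =>
    intro hT
    have ih' := ih (by omega)
    obtain ⟨j, rfl⟩ : ∃ j, k = j + 1 := ⟨k - 1, by omega⟩
    obtain ⟨m, hm⟩ : ∃ m, n - T = m + 1 := ⟨n - T - 1, by omega⟩
    have hm' : n - (T + 1) = m := by omega
    rw [hm] at ih'
    rw [hm']
    have h1 : ((m+1).choose (j+1) : ℝ) = (m.choose j : ℝ) + (m.choose (j+1) : ℝ) := by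
      exact_mod_cast Nat.choose_succ_succ m j
    obtain ⟨n', rfl⟩ : ∃ n', n = n' + 1 := ⟨n - 1, by omega⟩
    have h2 : (m.choose j : ℝ) ≤ (n'.choose j : ℝ) := by
      exact_mod_cast Nat.choose_le_choose j (by omega)
    have h3 : ((n'+1 : ℕ):ℝ) * (n'.choose j : ℝ) = ((n'+1).choose (j+1) : ℝ) * ((j+1 : ℕ) : ℝ) := by
      exact_mod_cast Nat.add_one_mul_choose_eq n' j
    have h4 : (n'.choose j : ℝ) = (((j+1:ℕ):ℝ) / ((n'+1:ℕ):ℝ)) * ((n'+1).choose (j+1) : ℝ) := by
      have : ((n'+1 : ℕ):ℝ) ≠ 0 := by positivity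
      field_simp
      linarith
    push_cast at *
    linarith

end Pool.Agent.H36.MMS
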