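import Pool.Agent.H36.MMSSample
import Pool.Agent.H36.MMSNum

open Finset

set_option linter.unusedSectionVars false

namespace Pool.Agent.H36.MMS

variable {α : Type*} [DecidableEq α]

lemma sg_eq (x : α → ℝ) (U : Finset α) {S : Finset α} {k : ℕ} (hS : S.card = k) :
    sg x S = sg (zc x U) S + k * mean x U := by
  rw [sg_zc, hS]; ring

/-- `Vh (n-T) k ≥ p (1-p)` for `T ≤ 2` -/
lemma Vh_ge {n k T : ℝ} (hT0 : T = 0 ∨ T = 1 ∨ T = 2) (hk : 2 ≤ k) (hn : 8 * k ≤ n) :
    (k / n) * (1 - k / n) ≤ Vh (n - T) k := by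
  have hn0 : 0 < n := by linarith
  have h1 : (k / n) * (1 - k / n) = k * (n - k) / n^2 := by
    field_simp
  unfold Vh
  have hkn : 0 ≤ k * n := by positivity
  rcases hT0 with rfl | rfl | rfl
  · rw [h1, div_le_div_iff₀ (by positivity) (mul_pos (by linarith) (by linarith))]
    have h2 : 0 ≤ k * (n - k) := mul_nonneg (by linarith) (by linarith)
    nlinarith [mul_nonneg h2 hn0.le]
  · rw [h1, div_le_div_iff₀ (by positivity) (mul_pos (by linarith) (by linarith))]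
    have e : k * (n - 1 - k) * n^2 - k * (n - k) * ((n - 1) * (n - 1 - 1))
        = k * (2 * n^2 - 3 * k * n - 2 * (n - k)) := by ring
    have h3 : 0 ≤ 2 * n^2 - 3 * k * n - 2 * (n - k) := by nlinarith
    have h4 : 0 ≤ k * (2 * n^2 - 3 * k * n - 2 * (n - k)) := mul_nonneg (by linarith) h3
    linarith
  · rw [h1, div_le_div_iff₀ (by positivity) (mul_pos (by linarith) (by linarith))]
    have e : k * (n - 2 - k) * n^2 - k * (n - k) * ((n - 2) * (n - 2 - 1))
        = k * (3 * n^2 - 5 * k * n - 6 * (n - k)) := by ring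
    have h3 : 0 ≤ 3 * n^2 - 5 * k * n - 6 * (n - k) := by nlinarith
    have h4 : 0 ≤ k * (3 * n^2 - 5 * k * n - 6 * (n - k)) := mul_nonneg (by linarith) h3
    linarith

/-- data extracted from a population -/
lemma norm_data (x : α → ℝ) {U : Finset α} {k : ℕ} (hk2 : 2 ≤ k) (hkN : 7 * k ≤ U.card)
    {Z τ : ℝ} (hZ0 : 0 < Z) (hZ : ∀ i ∈ U, |x i - mean x U| ≤ Z)
    (hτ : Z * τ ≤ k * mean x U) :
    ∃ W : Finset α → ℝ, ∃ v : ℝ, v = Vh U.card k * dev x U / Z^2 ∧
      avg U k (fun S => W S ^ 1) = 0 ∧ avg U k (fun S => W S ^ 2) = v ∧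
      avg U k (fun S => W S ^ 4) ≤ v + 3 * v * max 0 (v - 2 * Vh U.card k) ∧
      (∀ S, S ⊆ U → S.card = k → -τ ≤ W S → 0 ≤ sg x S) := by
  have hk : k ≤ U.card := by omega
  refine ⟨fun S => (1/Z) * sg (zc x U) S, _, rfl, ?_, ?_, ?_, ?_⟩
  · have : (fun S => ((1/Z) * sg (zc x U) S) ^ 1) = (fun S => (1/Z) * (sg (zc x U) S) ^ 1) := by
      funext S; ring
    rw [this, avg_mul, avg_W1 x hk (by omega), mul_zero]
  · have : (fun S => ((1/Z) * sg (zc x U) S) ^ 2) = (fun S => (1/Z)^2 * (sg (zc x U) S) ^ 2) := by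
      funext S; ring
    rw [this, avg_mul, avg_W2 x hk (by omega)]
    field_simp
  · have : (fun S => ((1/Z) * sg (zc x U) S) ^ 4) = (fun S => (1/Z)^4 * (sg (zc x U) S) ^ 4) := by
      funext S; ring
    rw [this, avg_mul]
    have h := fourth_le x (by omega : 1 ≤ k) hkN hZ
    have h' := mul_le_mul_of_nonneg_left h (by positivity : 0 ≤ (1/Z)^4)
    refine h'.trans (le_of_eq ?_)
    set V := Vh (U.card:ℝ) k with hV
    set D := dev x U with hD
    have hm : max 0 (V * D - 2 * V * Z^2) = Z^2 * max 0 (V * D / Z^2 - 2 * V) := by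
      rw [mul_max_of_nonneg _ _ (by positivity), mul_zero]
      congr 1
      field_simp
    rw [hm]
    field_simp
  · intro S hS hc hW
    rw [sg_eq x U hc]
    have : Z * (-τ) ≤ Z * ((1/Z) * sg (zc x U) S) := mul_le_mul_of_nonneg_left hW hZ0.le
    have e : Z * ((1/Z) * sg (zc x U) S) = sg (zc x U) S := by field_simp
    rw [e] at this
    linarith

lemma max_bound {v π V : ℝ} (h1 : π ≤ V) (h2 : 2 * π ≤ v) : max 0 (v - 2 * V) ≤ v - 2 * π := by
  apply max_le <;> linarith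

/-- combine -/
lemma fin_mul {p P M E c : ℝ} (hM : 0 < M) (h1 : p * M ≤ E * c) (h2 : E ≤ M * P) (hc : 0 ≤ c) :
    p ≤ P * c := by
  have h3 : E * c ≤ M * P * c := mul_le_mul_of_nonneg_right h2 hc
  have h4 : M * p ≤ M * (P * c) := by linarith
  exact le_of_mul_le_mul_left h4 hM

section main
variable (x : α → ℝ) {U : Finset α} {k n : ℕ} (hk2 : 2 ≤ k) (hn : 9 * k ≤ n)
  {Z : ℝ} (hZ0 : 0 < Z) (hZ : ∀ i ∈ U, |x i - mean x U| ≤ Z)
include hk2 hn hZ0 hZ

/-- large-variance step for `T = 0,1,2` -/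
lemma step_c {T : ℕ} (hT : T ≤ 2) (hU : U.card + T = n) (hm : (T:ℝ) * Z ≤ n * mean x U)
    (h : ∀ v : ℝ, v = Vh U.card k * dev x U / Z^2 →
      2 * ((k:ℝ)/n * (1 - (k:ℝ)/n)) ≤ v ∧ 0 < v ∧
      (k:ℝ)/n * (v + 3 * v * (v - 2 * ((k:ℝ)/n * (1-(k:ℝ)/n)))) ≤ 0.4639 * v^2 * (1 - T * ((k:ℝ)/n))) :
    (k:ℝ)/n ≤ pr U k (fun S => 0 ≤ sg x S) * (1 - T * ((k:ℝ)/n)) := by
  have hn0 : (0:ℝ) < n := by
    have : 0 < n := by omega
    exact_mod_cast this
  have hk' : (2:ℝ) ≤ k := by exact_mod_cast hk2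
  have hn' : 9 * (k:ℝ) ≤ n := by exact_mod_cast hn
  have hU' : (U.card:ℝ) = n - T := by
    have : (U.card:ℝ) + T = n := by exact_mod_cast hU
    linarith
  have hT' : (T:ℝ) ≤ 2 := by exact_mod_cast hT
  have hT0 : (0:ℝ) ≤ T := by positivity
  set p : ℝ := (k:ℝ)/n with hp
  have hp0 : 0 < p := by rw [hp]; positivity
  have hp9 : p ≤ 1/9 := by rw [hp, div_le_div_iff₀ hn0 (by norm_num)]; linarith
  have hc : 0 ≤ 1 - T * p := by nlinarith
  have hτ : Z * 0 ≤ k * mean x U := by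
    have : 0 ≤ n * mean x U := by
      have := mul_nonneg hT0 hZ0.le
      linarith
    have h2 : 0 ≤ mean x U := nonneg_of_mul_nonneg_right this hn0
    have := mul_nonneg (by linarith : (0:ℝ) ≤ k) h2
    linarith
  obtain ⟨W, v, hv, h1, h2, h4, hS⟩ := norm_data x hk2 (by omega) hZ0 hZ hτ
  obtain ⟨hv1, hv2, hv3⟩ := h v hv
  have hVh : p * (1 - p) ≤ Vh U.card k := by
    rw [hU', hp]
    apply Vh_ge _ hk' (by linarith)
    have : T = 0 ∨ T = 1 ∨ T = 2 := by omega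
    rcases this with rfl | rfl | rfl <;> simp
  have hK : avg U k (fun S => W S ^ 4) ≤ v + 3 * v * (v - 2 * (p * (1-p))) := by
    refine h4.trans ?_
    have := mul_le_mul_of_nonneg_left (max_bound hVh hv1) (by positivity : 0 ≤ 3 * v)
    linarith
  have hKpos : 0 < v + 3 * v * (v - 2 * (p * (1-p))) := by
    have := mul_nonneg (by positivity : 0 ≤ 3 * v) (by linarith : 0 ≤ v - 2 * (p * (1-p)))
    linarith
  have hP := pr_nonneg_ge W h1 h2 hK hv2 hKpos
  have hP2 : pr U k (fun S => 0 ≤ W S) ≤ pr U k (fun S => 0 ≤ sg x S) := by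
    apply pr_mono
    intro S hSU hSc h0
    exact hS S hSU hSc (by linarith)
  have hP3 : 0.4639 * v^2 ≤ (v + 3 * v * (v - 2 * (p * (1-p)))) * pr U k (fun S => 0 ≤ sg x S) := by
    have := hP.trans hP2
    rw [← mul_div_assoc, div_le_iff₀ hKpos] at this
    linarith
  exact fin_mul hKpos hv3 hP3 hc

/-- shifted step for `T = 1,2` -/
lemma step_b {T : ℕ} (hT : T ≤ 2) (hU : U.card + T = n) (hm : (T:ℝ) * Z ≤ n * mean x U)
    {b : ℝ} (hb : 0 < b) (hτb : T * ((k:ℝ)/n) ≤ b / 4)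
    (h : ∀ v : ℝ, v = Vh U.card k * dev x U / Z^2 →
      2 * ((k:ℝ)/n * (1 - (k:ℝ)/n)) ≤ v ∧ 0 < v ∧
      (k:ℝ)/n * Mn b (T * ((k:ℝ)/n)) ≤ En ((k:ℝ)/n) v b (T * ((k:ℝ)/n)) * (1 - T * ((k:ℝ)/n))) :
    (k:ℝ)/n ≤ pr U k (fun S => 0 ≤ sg x S) * (1 - T * ((k:ℝ)/n)) := by
  have hn0 : (0:ℝ) < n := by
    have : 0 < n := by omega
    exact_mod_cast this
  have hk' : (2:ℝ) ≤ k := by exact_mod_cast hk2
  have hn' : 9 * (k:ℝ) ≤ n := by exact_mod_cast hn
  have hU' : (U.card:ℝ) = n - T := by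
    have : (U.card:ℝ) + T = n := by exact_mod_cast hU
    linarith
  have hT' : (T:ℝ) ≤ 2 := by exact_mod_cast hT
  have hT0 : (0:ℝ) ≤ T := by positivity
  set p : ℝ := (k:ℝ)/n with hp
  have hp0 : 0 < p := by rw [hp]; positivity
  have hp9 : p ≤ 1/9 := by rw [hp, div_le_div_iff₀ hn0 (by norm_num)]; linarith
  have hc : 0 ≤ 1 - T * p := by nlinarith
  have hτ0 : 0 ≤ T * p := by positivity
  have hτ : Z * (T * p) ≤ k * mean x U := by
    have h1 : (k:ℝ) / n * ((T:ℝ) * Z) ≤ (k:ℝ) / n * (n * mean x U) :=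
      mul_le_mul_of_nonneg_left hm hp0.le
    have e : (k:ℝ) / n * (n * mean x U) = k * mean x U := by field_simp
    rw [e] at h1
    rw [hp]; linarith
  obtain ⟨W, v, hv, h1, h2, h4, hS⟩ := norm_data x hk2 (by omega) hZ0 hZ hτ
  obtain ⟨hv1, hv2, hv3⟩ := h v hv
  have hVh : p * (1 - p) ≤ Vh U.card k := by
    rw [hU', hp]
    apply Vh_ge _ hk' (by linarith)
    have : T = 0 ∨ T = 1 ∨ T = 2 := by omega
    rcases this with rfl | rfl | rfl <;> simp
  have hK : avg U k (fun S => W S ^ 4) ≤ v + 3 * v * (v - 2 * (p * (1-p))) := by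
    refine h4.trans ?_
    have := mul_le_mul_of_nonneg_left (max_bound hVh hv1) (by positivity : 0 ≤ 3 * v)
    linarith
  have hk1 : k ≤ U.card := by omega
  have hP := shift hk1 W h1 h2 hK hb hτ0 hτb
  have hP2 : pr U k (fun S => -(T * p) ≤ W S) ≤ pr U k (fun S => 0 ≤ sg x S) := by
    apply pr_mono
    intro S hSU hSc h0
    exact hS S hSU hSc h0
  have hM : 0 < Mn b (T * p) := by unfold Mn; positivity
  have hP3 : En p v b (T * p) ≤ Mn b (T * p) * pr U k (fun S => 0 ≤ sg x S) := by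
    have h5 := mul_le_mul_of_nonneg_left hP2 hM.le
    unfold En
    unfold Mn at h5 ⊢
    linarith
  exact fin_mul hM hv3 hP3 hc

/-- Cantelli step -/
lemma step_a {T : ℕ} (hT : T ≤ 2) (hT1 : 1 ≤ T) (hU : U.card + T = n)
    (hm : (T:ℝ) * Z ≤ n * mean x U)
    (h : ∀ v : ℝ, v = Vh U.card k * dev x U / Z^2 →
      (k:ℝ)/n * (v + (T * ((k:ℝ)/n))^2) ≤ (T * ((k:ℝ)/n))^2 * (1 - T * ((k:ℝ)/n))) :
    (k:ℝ)/n ≤ pr U k (fun S => 0 ≤ sg x S) * (1 - T * ((k:ℝ)/n)) := by
  have hn0 : (0:ℝ) < n := by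
    have : 0 < n := by omega
    exact_mod_cast this
  have hk' : (2:ℝ) ≤ k := by exact_mod_cast hk2
  have hn' : 9 * (k:ℝ) ≤ n := by exact_mod_cast hn
  have hU' : (U.card:ℝ) = n - T := by
    have : (U.card:ℝ) + T = n := by exact_mod_cast hU
    linarith
  have hT' : (T:ℝ) ≤ 2 := by exact_mod_cast hT
  have hT0 : (1:ℝ) ≤ T := by exact_mod_cast hT1
  set p : ℝ := (k:ℝ)/n with hp
  have hp0 : 0 < p := by rw [hp]; positivity
  have hp9 : p ≤ 1/9 := by rw [hp, div_le_div_iff₀ hn0 (by norm_num)]; linarith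
  have hc : 0 ≤ 1 - T * p := by nlinarith
  have hτ0 : 0 < T * p := by positivity
  have hτ : Z * (T * p) ≤ k * mean x U := by
    have h1 : (k:ℝ) / n * ((T:ℝ) * Z) ≤ (k:ℝ) / n * (n * mean x U) :=
      mul_le_mul_of_nonneg_left hm hp0.le
    have e : (k:ℝ) / n * (n * mean x U) = k * mean x U := by field_simp
    rw [e] at h1
    rw [hp]; linarith
  obtain ⟨W, v, hv, h1, h2, h4, hS⟩ := norm_data x hk2 (by omega) hZ0 hZ hτ
  have hv3 := h v hv
  have hv0 : 0 ≤ v := by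
    rw [hv]
    have := Vh_pos (N := (U.card:ℝ)) (k := (k:ℝ)) (by linarith) (by rw [hU']; linarith) (by rw [hU']; linarith)
    have := dev_nonneg x U
    positivity
  have hk1 : k ≤ U.card := by omega
  have hP := cantelli' hk1 W h1 h2 hv0 hτ0
  have hP2 : pr U k (fun S => -(T * p) ≤ W S) ≤ pr U k (fun S => 0 ≤ sg x S) := by
    apply pr_mono
    intro S hSU hSc h0
    exact hS S hSU hSc h0
  have hM : 0 < v + (T*p)^2 := by positivity
  have hP3 : (T*p)^2 ≤ (v + (T*p)^2) * pr U k (fun S => 0 ≤ sg x S) := by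
    have := hP.trans hP2
    rw [div_le_iff₀ hM] at this
    linarith
  exact fin_mul hM hv3 hP3 hc

theorem spread2 (hU : U.card + 2 = n) (hm : (2:ℝ) * Z ≤ n * mean x U) :
    (k:ℝ)/n ≤ pr U k (fun S => 0 ≤ sg x S) * (1 - 2 * ((k:ℝ)/n)) := by
  have hn0 : (0:ℝ) < n := by
    have : 0 < n := by omega
    exact_mod_cast this
  have hk' : (2:ℝ) ≤ k := by exact_mod_cast hk2
  have hn' : 9 * (k:ℝ) ≤ n := by exact_mod_cast hn
  have hp0 : 0 < (k:ℝ)/n := by positivity
  have hp9 : (k:ℝ)/n ≤ 1/9 := by rw [div_le_div_iff₀ hn0 (by norm_num)]; linarith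
  set v : ℝ := Vh U.card k * dev x U / Z^2 with hv
  have hm' : ((2:ℕ):ℝ) * Z ≤ n * mean x U := by push_cast; exact hm
  have hpp : 0 ≤ (k:ℝ)/n * (1/9 - (k:ℝ)/n) := mul_nonneg hp0.le (by linarith)
  by_cases h1 : v ≤ 4 * ((k:ℝ)/n) - 12 * ((k:ℝ)/n)^2
  · have := step_a x hk2 hn hZ0 hZ (le_refl 2) (by norm_num) hU hm' (by
      intro v' hv'
      rw [← hv] at hv'
      rw [hv']
      push_cast
      nlinarith [mul_le_mul_of_nonneg_left h1 hp0.le])
    simpa using this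
  push Not at h1
  have hv1 : 2 * ((k:ℝ)/n * (1 - (k:ℝ)/n)) ≤ v := by nlinarith
  have hv0 : 0 < v := by nlinarith
  by_cases h2 : v ≤ 0.65
  · have := step_b x hk2 hn hZ0 hZ (T := 2) (le_refl 2) hU hm' (b := 1) (by norm_num)
      (by push_cast; linarith) (by
      intro v' hv'
      rw [← hv] at hv'
      rw [hv']
      refine ⟨hv1, hv0, ?_⟩
      have := n2a hp0 hp9 h1.le h2
      push_cast
      exact this)
    simpa using this
  push Not at h2
  by_cases h3 : v ≤ 1.1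
  · have := step_b x hk2 hn hZ0 hZ (T := 2) (le_refl 2) hU hm' (b := 1.3) (by norm_num)
      (by push_cast; linarith) (by
      intro v' hv'
      rw [← hv] at hv'
      rw [hv']
      refine ⟨hv1, hv0, ?_⟩
      have := n2b hp0 hp9 h2.le h3
      push_cast
      exact this)
    simpa using this
  push Not at h3
  by_cases h4 : v ≤ 2
  · have := step_b x hk2 hn hZ0 hZ (T := 2) (le_refl 2) hU hm' (b := 1.7) (by norm_num)
      (by push_cast; linarith) (by
      intro v' hv'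
      rw [← hv] at hv'
      rw [hv']
      refine ⟨hv1, hv0, ?_⟩
      have := n2c hp0 hp9 h3.le h4
      push_cast
      exact this)
    simpa using this
  push Not at h4
  have := step_c x hk2 hn hZ0 hZ (T := 2) (le_refl 2) hU hm' (by
      intro v' hv'
      rw [← hv] at hv'
      rw [hv']
      refine ⟨hv1, hv0, ?_⟩
      have := nc2 hp0 hp9 h4.le
      push_cast
      exact this)
  simpa using this

theorem spread1 (hU : U.card + 1 = n) (hm : Z ≤ n * mean x U)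
    (hV : 0.22 * Z^2 ≤ Vh U.card k * dev x U) :
    (k:ℝ)/n ≤ pr U k (fun S => 0 ≤ sg x S) * (1 - (k:ℝ)/n) := by
  have hn0 : (0:ℝ) < n := by
    have : 0 < n := by omega
    exact_mod_cast this
  have hk' : (2:ℝ) ≤ k := by exact_mod_cast hk2
  have hn' : 9 * (k:ℝ) ≤ n := by exact_mod_cast hn
  have hp0 : 0 < (k:ℝ)/n := by positivity
  have hp9 : (k:ℝ)/n ≤ 1/9 := by rw [div_le_div_iff₀ hn0 (by norm_num)]; linarith
  set v : ℝ := Vh U.card k * dev x U / Z^2 with hv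
  have hV' : 0.22 ≤ v := by
    rw [hv, le_div_iff₀ (by positivity)]; exact hV
  have hm' : ((1:ℕ):ℝ) * Z ≤ n * mean x U := by push_cast; linarith
  have hpp : 0 ≤ (k:ℝ)/n * (1/9 - (k:ℝ)/n) := mul_nonneg hp0.le (by linarith)
  have hv1 : 2 * ((k:ℝ)/n * (1 - (k:ℝ)/n)) ≤ v := by nlinarith
  have hv0 : 0 < v := by linarith
  by_cases h2 : v ≤ 0.3
  · have := step_b x hk2 hn hZ0 hZ (T := 1) (by norm_num) hU hm' (b := 0.8) (by norm_num)
      (by push_cast; linarith) (by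
      intro v' hv'
      rw [← hv] at hv'
      rw [hv']
      refine ⟨hv1, hv0, ?_⟩
      have := n1a hp0 hp9 hV' h2
      push_cast
      rw [one_mul] at this ⊢
      exact this)
    simpa using this
  push Not at h2
  by_cases h3 : v ≤ 0.62
  · have := step_b x hk2 hn hZ0 hZ (T := 1) (by norm_num) hU hm' (b := 1) (by norm_num)
      (by push_cast; linarith) (by
      intro v' hv'
      rw [← hv] at hv'
      rw [hv']
      refine ⟨hv1, hv0, ?_⟩
      have := n1b hp0 hp9 h2.le h3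
      push_cast
      rw [one_mul] at this ⊢
      exact this)
    simpa using this
  push Not at h3
  have := step_c x hk2 hn hZ0 hZ (T := 1) (by norm_num) hU hm' (by
      intro v' hv'
      rw [← hv] at hv'
      rw [hv']
      refine ⟨hv1, hv0, ?_⟩
      have := nc1 hp0 hp9 h3.le
      push_cast
      exact this)
  simpa using this

theorem spread0 (hU : U.card = n) (hm : 0 ≤ mean x U)
    (hV : 0.36 * Z^2 ≤ Vh U.card k * dev x U) :
    (k:ℝ)/n ≤ pr U k (fun S => 0 ≤ sg x S) := by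
  have hn0 : (0:ℝ) < n := by
    have : 0 < n := by omega
    exact_mod_cast this
  have hk' : (2:ℝ) ≤ k := by exact_mod_cast hk2
  have hn' : 9 * (k:ℝ) ≤ n := by exact_mod_cast hn
  have hp0 : 0 < (k:ℝ)/n := by positivity
  have hp9 : (k:ℝ)/n ≤ 1/9 := by rw [div_le_div_iff₀ hn0 (by norm_num)]; linarith
  set v : ℝ := Vh U.card k * dev x U / Z^2 with hv
  have hV' : 0.36 ≤ v := by
    rw [hv, le_div_iff₀ (by positivity)]; exact hV
  have hm' : ((0:ℕ):ℝ) * Z ≤ n * mean x U := by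
    push_cast
    have := mul_nonneg hn0.le hm
    linarith
  have hpp : 0 ≤ (k:ℝ)/n * (1/9 - (k:ℝ)/n) := mul_nonneg hp0.le (by linarith)
  have hv1 : 2 * ((k:ℝ)/n * (1 - (k:ℝ)/n)) ≤ v := by nlinarith
  have hv0 : 0 < v := by linarith
  have := step_c x hk2 hn hZ0 hZ (T := 0) (by norm_num) (by omega) hm' (by
      intro v' hv'
      rw [← hv] at hv'
      rw [hv']
      refine ⟨hv1, hv0, ?_⟩
      have := nc0 hp0 hp9 hV'
      push_cast
      exact this)
  simpa using this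

end main

end Pool.Agent.H36.MMS
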