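import Pool.Agent.H36.MMSStarLoc

open Finset

set_option linter.unusedSectionVars false

namespace Pool.Agent.H36.MMS

variable {α : Type*} [DecidableEq α]

lemma sg_sdiff (x : α → ℝ) {A Ω : Finset α} (h : A ⊆ Ω) : sg x (Ω \ A) = sg x Ω - sg x A := by
  unfold sg
  have := Finset.sum_sdiff (f := x) h
  linarith

theorem star (x : α → ℝ) {Ω H : Finset α} {k n h : ℕ} {a0 : α} (hk2 : 2 ≤ k) (hn : 9 * k ≤ n)
    (hΩ : Ω.card = n) (ha0 : a0 ∈ Ω) (hxa : x a0 = 1) (hx1 : ∀ i ∈ Ω, x i ≤ 1)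
    (hH : H ⊆ Ω) (hHc : H.card = h) (hh : h ≤ 1) (haH : a0 ∉ H)
    (hxl : ∀ i ∈ Ω \ H, -1 ≤ x i) (hxH : ∀ i ∈ H, x i ≤ -1) (hsum : sg x Ω = 0)
    {q Vb Bb mb vb T0 W1 E : ℝ} (hq : q = (k:ℝ)/((n:ℝ)-k))
    (hVb : q * (1 - q) * (dev x (Ω \ H) - (1 - mean x (Ω \ H))^2) ≤ Vb) (hB0 : 0 ≤ Bb)
    (hB : q * (1 - q) * (dev x (Ω \ H) - (1 - mean x (Ω \ H))^2 - 2) ≤ Bb)
    (hmb0 : 0 ≤ mb) (hmb : 1.14 * Vb ≤ (1/q - 1 - h) * mb^2)
    (hvb0 : 0 ≤ vb) (hvb : 2/3 * ((1 + mb/2)^2 + 3 * (1.14 * Bb)) ≤ vb^2)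
    (hT0 : mb + 2 * vb ≤ T0) (hW1 : 1 ≤ W1) (hW : 1 ≤ W1 * 0.4639 * (1 - h * q))
    (hT1 : 0 ≤ 1 + T0 - h)
    (hτ1 : q * (1 + T0 - h) < 1) (hE : Vb ≤ E * (Vb + (1 - q * (1 + T0 - h))^2)) (hE1 : E ≤ 1)
    (hWE : W1 * (1 - (1 - E) * (1 - h * q)) ≤ 1) :
    ((Ω.powersetCard k).filter (fun A => a0 ∈ A ∧ sg x A < 0)).card
      ≤ ((Ω.powersetCard k).filter (fun S => a0 ∉ S ∧ 0 ≤ sg x S)).card := by
  classical
  obtain ⟨j, rfl⟩ : ∃ j, k = j + 1 := ⟨k - 1, by omega⟩
  obtain ⟨M, hM⟩ : ∃ M, n = M + (j+1) := ⟨n - (j+1), by omega⟩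
  have hM8 : 8 * (j+1) ≤ M := by omega
  have hM0 : (0:ℝ) < M := by
    have : 0 < M := by omega
    exact_mod_cast this
  have hq' : q = ((j+1 : ℕ):ℝ)/M := by
    rw [hq, hM]; push_cast; congr 1; ring
  have hq'' : q = ((j:ℝ)+1)/M := by rw [hq']; push_cast; ring
  have hq0 : 0 < q := by rw [hq'']; positivity
  have hq8 : q ≤ 1/8 := by
    rw [hq'', div_le_div_iff₀ hM0 (by norm_num)]
    have : 8 * ((j:ℝ)+1) ≤ M := by exact_mod_cast hM8
    linarith
  have hqq : 0 < q * (1 - q) := mul_pos hq0 (by linarith)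
  have haU : a0 ∈ Ω \ H := Finset.mem_sdiff.mpr ⟨ha0, haH⟩
  set C : ℝ := ((M-1).choose j : ℝ) with hC
  have hCpos : 0 < C := by
    rw [hC]
    exact_mod_cast Nat.choose_pos (by omega : j ≤ M - 1)
  have hqC : q * (M.choose (j+1) : ℝ) = C := by
    obtain ⟨M', rfl⟩ : ∃ M', M = M' + 1 := ⟨M - 1, by omega⟩
    have h1 : ((M'+1 : ℕ):ℝ) * (M'.choose j : ℝ) = ((M'+1).choose (j+1) : ℝ) * ((j+1 : ℕ):ℝ) := by
      exact_mod_cast Nat.add_one_mul_choose_eq M' j
    rw [hq', hC, Nat.add_sub_cancel]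
    field_simp
    linarith
  set D : ℝ := dev x (Ω \ H) - (1 - mean x (Ω \ H))^2 with hD
  set 𝒜 := (Ω.powersetCard (j+1)).filter (fun A => a0 ∈ A ∧ sg x A < 0) with h𝒜
  set 𝒮 := (Ω.powersetCard (j+1)).filter (fun S => (a0 ∉ S ∧ Disjoint S H) ∧ 0 ≤ sg x S) with h𝒮
  -- claim A
  have claimA : ∀ A ∈ 𝒜, C ≤ ∑ S ∈ 𝒮, (if Disjoint A S then wt T0 W1 (sg x S) else 0) := by
    intro A hA
    rw [h𝒜, mem_filter, mem_powersetCard] at hA
    obtain ⟨⟨hAΩ, hAc⟩, haA, hAneg⟩ := hA
    set U := (Ω \ A) \ H with hU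
    have hUc : U.card + (H \ A).card = M := by
      have h1 : U = (Ω \ A) \ (H \ A) := by
        rw [hU]; ext i; simp only [mem_sdiff]; tauto
      have h2 : H \ A ⊆ Ω \ A := Finset.sdiff_subset_sdiff hH (le_refl A)
      rw [h1, Finset.card_sdiff_of_subset h2, Finset.card_sdiff_of_subset hAΩ, hAc, hΩ]
      have h3 := Finset.card_le_card h2
      rw [Finset.card_sdiff_of_subset hAΩ, hAc, hΩ] at h3
      omega
    have hAh : (H \ A).card ≤ h := by
      rw [← hHc]; exact Finset.card_le_card Finset.sdiff_subset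
    have hxU : ∀ i ∈ U, |x i| ≤ 1 := by
      intro i hi
      rw [hU, mem_sdiff, mem_sdiff] at hi
      rw [abs_le]
      exact ⟨hxl i (mem_sdiff.mpr ⟨hi.1.1, hi.2⟩), hx1 i hi.1.1⟩
    have htot : 0 < sg x U := by
      have h1 := sg_sdiff x hAΩ
      have h2 : sg x (Ω \ A) = sg x U + sg x ((Ω \ A) ∩ H) := by
        rw [hU]; unfold sg
        have h3 : Disjoint ((Ω \ A) \ H) ((Ω \ A) ∩ H) := Finset.disjoint_sdiff_inter _ _
        rw [← Finset.sum_union h3, Finset.sdiff_union_inter]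
      have h3 : sg x ((Ω \ A) ∩ H) ≤ 0 := by
        unfold sg
        apply Finset.sum_nonpos
        intro i hi
        have := hxH i (mem_inter.mp hi).2
        linarith
      linarith
    have hdevU : dev x U ≤ D := by
      have h1 : U ⊆ (Ω \ H).erase a0 := by
        intro i hi
        rw [hU, mem_sdiff, mem_sdiff] at hi
        rw [mem_erase, mem_sdiff]
        refine ⟨?_, hi.1.1, hi.2⟩
        rintro rfl
        exact hi.1.2 haA
      have := dev_erase x h1 haU
      rw [hxa] at this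
      exact this
    have key := starA x (U := U) (k := j+1) (M := M) (hA := (H \ A).card) (h := h) hk2 hM8 hUc hAh hh
      hq' hxU htot
      ((mul_le_mul_of_nonneg_left hdevU hqq.le).trans hVb) hB0
      ((mul_le_mul_of_nonneg_left (by linarith : dev x U - 2 ≤ D - 2) hqq.le).trans hB)
      hmb0 hmb hvb0 hvb hT0 hW1 hW
    rw [hqC] at key
    refine key.trans ?_
    rw [← Finset.sum_filter, ← Finset.sum_filter]
    apply Finset.sum_le_sum_of_subset_of_nonneg
    · intro S hS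
      rw [mem_filter, mem_powersetCard] at hS
      obtain ⟨⟨hSU, hSc⟩, hS0⟩ := hS
      rw [mem_filter, h𝒮, mem_filter, mem_powersetCard]
      have hSΩ : S ⊆ Ω := by
        intro i hi
        have := hSU hi
        rw [hU, mem_sdiff, mem_sdiff] at this
        exact this.1.1
      have hSH : Disjoint S H := by
        rw [Finset.disjoint_left]
        intro i hi hiH
        have := hSU hi
        rw [hU, mem_sdiff] at this
        exact this.2 hiH
      have hSA : Disjoint A S := by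
        rw [Finset.disjoint_right]
        intro i hi hiA
        have := hSU hi
        rw [hU, mem_sdiff, mem_sdiff] at this
        exact this.1.2 hiA
      refine ⟨⟨⟨hSΩ, hSc⟩, ⟨?_, hSH⟩, hS0⟩, hSA⟩
      intro haS
      exact (Finset.disjoint_left.mp hSA) haA haS
    · intro S _ _
      unfold wt
      split_ifs <;> linarith
  -- claim S
  have claimS : ∀ S ∈ 𝒮, wt T0 W1 (sg x S) * ((𝒜.filter (fun A => Disjoint A S)).card : ℝ) ≤ C := by
    intro S hS
    rw [h𝒮, mem_filter, mem_powersetCard] at hS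
    obtain ⟨⟨hSΩ, hSc⟩, ⟨haS, hSH⟩, hS0⟩ := hS
    set Ω' := Ω \ (insert a0 S) with hΩ'
    have hins : insert a0 S ⊆ Ω := Finset.insert_subset ha0 hSΩ
    have hΩ'c : Ω'.card + 1 = M := by
      rw [hΩ', Finset.card_sdiff_of_subset hins, Finset.card_insert_of_notMem haS, hSc, hΩ]
      omega
    have hinj : (𝒜.filter (fun A => Disjoint A S)).card
        ≤ ((Ω'.powersetCard j).filter (fun R => sg x R < -1)).card := by
      apply Finset.card_le_card_of_injOn (fun A => A.erase a0)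
      · intro A hA
        rw [Finset.mem_coe, mem_filter, h𝒜, mem_filter, mem_powersetCard] at hA
        obtain ⟨⟨⟨hAΩ, hAc⟩, haA, hAneg⟩, hAS⟩ := hA
        rw [Finset.mem_coe, mem_filter, mem_powersetCard]
        refine ⟨⟨?_, ?_⟩, ?_⟩
        · intro i hi
          rw [mem_erase] at hi
          rw [hΩ', mem_sdiff, mem_insert, not_or]
          exact ⟨hAΩ hi.2, hi.1, fun hiS => (Finset.disjoint_left.mp hAS) hi.2 hiS⟩
        · rw [Finset.card_erase_of_mem haA, hAc]; rfl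
        · have := sg_erase x A haA
          rw [hxa] at this
          linarith
      · intro A hA B hB hAB
        rw [Finset.mem_coe, mem_filter, h𝒜, mem_filter] at hA hB
        have h1 := Finset.insert_erase hA.1.2.1
        have h2 := Finset.insert_erase hB.1.2.1
        simp only at hAB
        rw [← h1, ← h2, hAB]
    have hinj' : (((𝒜.filter (fun A => Disjoint A S)).card : ℕ):ℝ)
        ≤ (((Ω'.powersetCard j).filter (fun R => sg x R < -1)).card : ℝ) := by exact_mod_cast hinj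
    unfold wt
    by_cases hT : sg x S ≤ T0
    · rw [if_pos hT]
      have hHΩ' : H ⊆ Ω' := by
        intro i hi
        rw [hΩ', mem_sdiff, mem_insert, not_or]
        refine ⟨hH hi, ?_, ?_⟩
        · rintro rfl; exact haH hi
        · intro hiS; exact (Finset.disjoint_left.mp hSH) hiS hi
      have htot : -(1 + T0 - h) ≤ sg x (Ω' \ H) := by
        rw [sg_sdiff x hHΩ', hΩ', sg_sdiff x hins, hsum]
        have h1 : sg x (insert a0 S) = 1 + sg x S := by
          unfold sg; rw [Finset.sum_insert haS, hxa]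
        have h2 : sg x H ≤ -(h:ℝ) := by
          unfold sg
          have h3 : ∑ i ∈ H, x i ≤ ∑ i ∈ H, (-1:ℝ) := Finset.sum_le_sum hxH
          rw [Finset.sum_const, hHc, nsmul_eq_mul] at h3
          linarith
        linarith
      have hdevU : dev x (Ω' \ H) ≤ D := by
        have h1 : Ω' \ H ⊆ (Ω \ H).erase a0 := by
          intro i hi
          rw [mem_sdiff, hΩ', mem_sdiff, mem_insert, not_or] at hi
          rw [mem_erase, mem_sdiff]
          exact ⟨hi.1.2.1, hi.1.1, hi.2⟩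
        have := dev_erase x h1 haU
        rw [hxa] at this
        exact this
      have key := starS x (Ω := Ω') (H := H) (j := j) (M := M) (h := h) (by omega) hM8 hΩ'c hHΩ' hHc hh
        hq'' htot hT1 hτ1 ((mul_le_mul_of_nonneg_left hdevU hqq.le).trans hVb) hE hE1
      calc W1 * ((𝒜.filter (fun A => Disjoint A S)).card : ℝ)
          ≤ W1 * ((1 - (1 - E) * (1 - h * q)) * ((M-1).choose j : ℝ)) := by
            apply mul_le_mul_of_nonneg_left _ (by linarith)
            exact hinj'.trans key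
        _ = (W1 * (1 - (1 - E) * (1 - h * q))) * C := by rw [hC]; ring
        _ ≤ 1 * C := mul_le_mul_of_nonneg_right hWE hCpos.le
        _ = C := one_mul C
    · rw [if_neg hT, one_mul]
      refine hinj'.trans ?_
      have h1 : ((Ω'.powersetCard j).filter (fun R => sg x R < -1)).card ≤ (M-1).choose j := by
        refine (Finset.card_filter_le _ _).trans ?_
        rw [Finset.card_powersetCard]
        have : Ω'.card = M - 1 := by omega
        rw [this]
      rw [hC]
      exact_mod_cast h1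
  -- double counting
  have h1 : (𝒜.card : ℝ) * C ≤ ∑ A ∈ 𝒜, ∑ S ∈ 𝒮, (if Disjoint A S then wt T0 W1 (sg x S) else 0) := by
    rw [← nsmul_eq_mul, ← Finset.sum_const]
    exact Finset.sum_le_sum claimA
  rw [Finset.sum_comm] at h1
  have h2 : ∑ S ∈ 𝒮, ∑ A ∈ 𝒜, (if Disjoint A S then wt T0 W1 (sg x S) else 0) ≤ (𝒮.card : ℝ) * C := by
    rw [← nsmul_eq_mul, ← Finset.sum_const]
    apply Finset.sum_le_sum
    intro S hS
    refine le_trans (le_of_eq ?_) (claimS S hS)
    rw [← Finset.sum_filter, Finset.sum_const, nsmul_eq_mul]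
    ring
  have h3 : (𝒜.card : ℝ) ≤ 𝒮.card := by
    have := h1.trans h2
    exact le_of_mul_le_mul_right this hCpos
  have h4 : 𝒜.card ≤ 𝒮.card := by exact_mod_cast h3
  refine h4.trans ?_
  apply Finset.card_le_card
  intro S hS
  rw [h𝒮, mem_filter] at hS
  rw [mem_filter]
  exact ⟨hS.1, hS.2.1.1, hS.2.2⟩

end Pool.Agent.H36.MMS
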