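import Pool.Agent.H36.MMSSpread

open Finset

set_option linter.unusedSectionVars false

namespace Pool.Agent.H36.MMS

variable {α : Type*} [DecidableEq α]

lemma Vh_le_A {M k h : ℝ} (hh : h = 0 ∨ h = 1) (hk : 2 ≤ k) (hM : 8 * k ≤ M) :
    Vh (M - h) k ≤ 1.14 * (k / M * (1 - k / M)) := by
  have hM0 : 0 < M := by linarith
  have e : 1.14 * (k / M * (1 - k / M)) = 1.14 * k * (M - k) / M^2 := by
    field_simp
  rw [e]
  unfold Vh
  rcases hh with rfl | rfl
  · rw [div_le_div_iff₀ (mul_pos (by linarith) (by linarith)) (by positivity)]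
    have h1 : 0 ≤ k * (M - k) := mul_nonneg (by linarith) (by linarith)
    have h2 : 0 ≤ k * (M - k) * M := mul_nonneg h1 hM0.le
    have h3 : 0 ≤ (k * (M - k) * M) * (0.14 * M - 1.14) := mul_nonneg h2 (by linarith)
    nlinarith
  · rw [div_le_div_iff₀ (mul_pos (by linarith) (by linarith)) (by positivity)]
    have key : (M - 1 - k) * M^2 ≤ 1.14 * (M - k) * ((M - 1) * (M - 1 - 1)) := by
      have ht : M - k ≤ M - 2 := by linarith
      have ht0 : 0 ≤ M - k := by linarith
      have hM16 : 16 ≤ M := by linarith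
      by_cases hc : 0 ≤ 0.14 * M^2 - 3.42 * M + 2.28
      · have := mul_nonneg ht0 hc
        nlinarith
      · push Not at hc
        have h5 : (M - 2) * (0.14 * M^2 - 3.42 * M + 2.28) ≤ (M - k) * (0.14 * M^2 - 3.42 * M + 2.28) :=
          mul_le_mul_of_nonpos_right ht hc.le
        have h6 : 0 ≤ 0.14 * M^3 - 2.7 * M^2 + 9.12 * M - 4.56 := by
          nlinarith [mul_nonneg (sub_nonneg.mpr hM16) (sub_nonneg.mpr hM16),
            mul_nonneg (mul_nonneg (sub_nonneg.mpr hM16) (sub_nonneg.mpr hM16)) (sub_nonneg.mpr hM16)]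
        nlinarith
    have := mul_le_mul_of_nonneg_left key (by linarith : 0 ≤ k)
    linarith

lemma Vh_le_S {M k h : ℝ} (hh : h = 0 ∨ h = 1) (hk : 2 ≤ k) (hM : 8 * k ≤ M) :
    Vh (M - 1 - h) (k - 1) ≤ k / M * (1 - k / M) := by
  have hM0 : 0 < M := by linarith
  have e : (k / M * (1 - k / M)) = k * (M - k) / M^2 := by
    field_simp
  rw [e]
  unfold Vh
  rcases hh with rfl | rfl
  · rw [div_le_div_iff₀ (mul_pos (by linarith) (by linarith)) (by positivity)]
    have h1 : (k - 1) * M^2 ≤ k * ((M - 1) * (M - 2)) := by nlinarith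
    have h2 := mul_le_mul_of_nonneg_left h1 (by linarith : 0 ≤ M - k)
    nlinarith
  · rw [div_le_div_iff₀ (mul_pos (by linarith) (by linarith)) (by positivity)]
    have h1 : (k - 1) * M^2 ≤ k * ((M - 2) * (M - 3)) := by nlinarith
    have h2 := mul_le_mul_of_nonneg_left h1 (by linarith : 0 ≤ M - k - 1)
    have h3 : 0 ≤ k * ((M - 2) * (M - 3)) := by
      have : 0 ≤ (M - 2) * (M - 3) := mul_nonneg (by linarith) (by linarith)
      exact mul_nonneg (by linarith) this
    nlinarith

/-- weight function -/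
noncomputable def wt (T0 W1 s : ℝ) : ℝ := if s ≤ T0 then W1 else 1

lemma sum_eq_avg (U : Finset α) {k : ℕ} (hk : k ≤ U.card) (f : Finset α → ℝ) :
    ∑ S ∈ U.powersetCard k, f S = avg U k f * (U.card.choose k : ℝ) := by
  unfold avg
  have : (U.card.choose k : ℝ) ≠ 0 := by
    exact_mod_cast (Nat.choose_pos hk).ne'
  field_simp

theorem starA (x : α → ℝ) {U : Finset α} {k M hA h : ℕ} (hk2 : 2 ≤ k) (hM : 8 * k ≤ M)
    (hU : U.card + hA = M) (hAh : hA ≤ h) (hh : h ≤ 1)
    {q Vb Bb mb vb T0 W1 : ℝ} (hq : q = (k:ℝ)/M)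
    (hx : ∀ i ∈ U, |x i| ≤ 1) (htot : 0 < sg x U)
    (hVb : q * (1 - q) * dev x U ≤ Vb) (hB0 : 0 ≤ Bb)
    (hB : q * (1 - q) * (dev x U - 2) ≤ Bb)
    (hmb0 : 0 ≤ mb) (hmb : 1.14 * Vb ≤ (1/q - 1 - h) * mb^2)
    (hvb0 : 0 ≤ vb) (hvb : 2/3 * ((1 + mb/2)^2 + 3 * (1.14 * Bb)) ≤ vb^2)
    (hT0 : mb + 2 * vb ≤ T0) (hW1 : 1 ≤ W1) (hW : 1 ≤ W1 * 0.4639 * (1 - h * q)) :
    q * (M.choose k : ℝ) ≤
      ∑ S ∈ U.powersetCard k, (if 0 ≤ sg x S then wt T0 W1 (sg x S) else 0) := by
  have hk' : (2:ℝ) ≤ k := by exact_mod_cast hk2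
  have hM' : 8 * (k:ℝ) ≤ M := by exact_mod_cast hM
  have hM0 : (0:ℝ) < M := by linarith
  have hAh' : (hA:ℝ) ≤ h := by exact_mod_cast hAh
  have hh' : (h:ℝ) ≤ 1 := by exact_mod_cast hh
  have hA0 : (0:ℝ) ≤ hA := by positivity
  have hUM : (U.card:ℝ) = M - hA := by
    have : (U.card:ℝ) + hA = M := by exact_mod_cast hU
    linarith
  have hUle : U.card ≤ M := by omega
  have hkU : k ≤ U.card := by omega
  have hq0 : 0 < q := by rw [hq]; positivity
  have hq8 : q ≤ 1/8 := by rw [hq, div_le_div_iff₀ hM0 (by norm_num)]; linarith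
  have hUpos : (0:ℝ) < U.card := by rw [hUM]; linarith
  have hm0 : 0 < mean x U := by unfold mean; positivity
  set m := mean x U with hm
  have hchoose : (1 - hA * q) * (M.choose k : ℝ) ≤ (U.card.choose k : ℝ) := by
    have := choose_restrict M k (by omega) (by omega) hA (by omega)
    have e : M - hA = U.card := by omega
    rw [e] at this
    rw [hq]; exact this
  have hCM : (0:ℝ) ≤ (M.choose k : ℝ) := by positivity
  have hcA : 0 < 1 - hA * q := by nlinarith
  have hVh0 : 0 < Vh U.card k := by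
    apply Vh_pos (by linarith)
    · rw [hUM]; linarith
    · rw [hUM]; linarith
  have hVhA : Vh U.card k ≤ 1.14 * (q * (1 - q)) := by
    rw [hUM, hq]
    apply Vh_le_A _ hk' hM'
    have : hA = 0 ∨ hA = 1 := by omega
    rcases this with rfl | rfl <;> simp
  have hdev := dev_nonneg x U
  set V := Vh U.card k * dev x U with hV
  have hVnn : 0 ≤ V := by positivity
  have h1 := avg_W1 x hkU (by omega : 0 < U.card)
  have h2 := avg_W2 x hkU (by omega : 2 ≤ U.card)
  rw [← hV] at h2
  set μ := (k:ℝ) * m with hμ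
  have hμ0 : 0 < μ := by rw [hμ]; positivity
  have hsg : ∀ S, S ⊆ U → S.card = k → sg x S = sg (zc x U) S + μ := by
    intro S _ hc
    rw [hμ, hm]; exact sg_eq x U hc
  rw [sum_eq_avg U hkU]
  by_cases hcase : V ≤ (1/q - 1 - hA) * μ^2
  · -- Cantelli
    have hP := cantelli' hkU _ h1 h2 hVnn hμ0
    have hmono : pr U k (fun S => -μ ≤ sg (zc x U) S)
        ≤ avg U k (fun S => if 0 ≤ sg x S then wt T0 W1 (sg x S) else 0) := by
      unfold pr
      apply avg_mono
      intro S hSU hSc
      have e := hsg S hSU hSc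
      by_cases h0 : -μ ≤ sg (zc x U) S
      · have : 0 ≤ sg x S := by linarith
        rw [if_pos h0, if_pos this]
        unfold wt
        split_ifs
        · exact hW1
        · exact le_refl _
      · rw [if_neg h0]
        split_ifs
        · unfold wt
          split_ifs <;> linarith
        · exact le_refl _
    have hP' := hP.trans hmono
    have hpos : 0 < V + μ^2 := by positivity
    have h3 : q / (1 - hA * q) ≤ μ^2 / (V + μ^2) := by
      rw [div_le_div_iff₀ hcA hpos]
      have h4 : q * V ≤ q * ((1/q - 1 - hA) * μ^2) := mul_le_mul_of_nonneg_left hcase hq0.le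
      have e : q * ((1/q - 1 - hA) * μ^2) = (1 - q - hA * q) * μ^2 := by
        field_simp
      rw [e] at h4
      nlinarith
    have h5 := h3.trans hP'
    rw [div_le_iff₀ hcA] at h5
    have hA1 : 0 ≤ avg U k (fun S => if 0 ≤ sg x S then wt T0 W1 (sg x S) else 0) := by
      refine le_trans ?_ hP'
      positivity
    calc q * (M.choose k : ℝ)
        ≤ (avg U k (fun S => if 0 ≤ sg x S then wt T0 W1 (sg x S) else 0) * (1 - hA * q))
            * (M.choose k : ℝ) := mul_le_mul_of_nonneg_right h5 hCM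
      _ = avg U k (fun S => if 0 ≤ sg x S then wt T0 W1 (sg x S) else 0)
            * ((1 - hA * q) * (M.choose k : ℝ)) := by ring
      _ ≤ _ := mul_le_mul_of_nonneg_left hchoose hA1
  · -- fourth moment
    push Not at hcase
    have hgA : 0 < 1/q - 1 - hA := by
      have : 8 ≤ 1/q := by
        rw [le_div_iff₀ hq0]; linarith
      linarith
    have hVpos : 0 < V := lt_of_le_of_lt (by positivity) hcase
    set K := avg U k (fun S => sg (zc x U) S ^ 4) with hK
    have hK1 : V^2 ≤ K := avg_sq_le hkU _ h2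
    have hKpos : 0 < K := lt_of_lt_of_le (by positivity) hK1
    set v := Real.sqrt (2 * K / (3 * V)) with hv
    have hv0 : 0 < v := Real.sqrt_pos.mpr (by positivity)
    have hvsq : v^2 = 2 * K / (3 * V) := Real.sq_sqrt (by positivity)
    have hv2 : v^2 * (3 * V) = 2 * K := by
      rw [hvsq]; field_simp
    have hP := window_opt _ h1 h2 (le_of_eq hK.symm) hVpos hKpos hv0 hv2
    -- bound on μ
    have hVVb : V ≤ 1.14 * Vb := by
      have h3 : V ≤ 1.14 * (q * (1 - q)) * dev x U := mul_le_mul_of_nonneg_right hVhA hdev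
      linarith
    have hμmb : μ ≤ mb := by
      have h3 : (1/q - 1 - hA) * μ^2 ≤ (1/q - 1 - hA) * mb^2 := by
        have h4 : (1/q - 1 - h) * mb^2 ≤ (1/q - 1 - hA) * mb^2 :=
          mul_le_mul_of_nonneg_right (by linarith) (by positivity)
        linarith
      have h5 : μ^2 ≤ mb^2 := le_of_mul_le_mul_left h3 hgA
      exact le_of_sq_le_sq h5 hmb0
    -- bound on v
    have hmle : m ≤ mb / 2 := by
      have : (2:ℝ) * m ≤ μ := by
        rw [hμ]; exact mul_le_mul_of_nonneg_right hk' hm0.le
      linarith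
    have hZ : ∀ i ∈ U, |x i - mean x U| ≤ 1 + m := by
      intro i hi
      rw [← hm]
      have := abs_le.mp (hx i hi)
      rw [abs_le]
      constructor <;> linarith [this.1, this.2]
    have h4 := fourth_le x (by omega : 1 ≤ k) (by omega : 7 * k ≤ U.card) hZ
    rw [← hK, ← hV] at h4
    have hmax : max 0 (V - 2 * Vh U.card k * (1 + m)^2) ≤ 1.14 * Bb := by
      apply max_le
      · positivity
      · have h5 : V - 2 * Vh U.card k * (1 + m)^2 ≤ Vh U.card k * (dev x U - 2) := by
          rw [hV]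
          have : Vh U.card k * 1 ≤ Vh U.card k * (1 + m)^2 := by
            apply mul_le_mul_of_nonneg_left _ hVh0.le
            nlinarith
          linarith
        refine h5.trans ?_
        by_cases h6 : 0 ≤ dev x U - 2
        · have := mul_le_mul_of_nonneg_right hVhA h6
          linarith
        · push Not at h6
          have := mul_nonpos_of_nonneg_of_nonpos hVh0.le h6.le
          have : 0 ≤ 1.14 * Bb := by positivity
          linarith
    have hKle : K ≤ V * ((1+m)^2 + 3 * (1.14 * Bb)) := by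
      have := mul_le_mul_of_nonneg_left hmax (by positivity : 0 ≤ 3 * V)
      linarith
    have hvle : v ≤ vb := by
      have h7 : v^2 ≤ vb^2 := by
        refine le_trans ?_ hvb
        rw [hvsq, div_le_iff₀ (by positivity)]
        have h8 : (1+m)^2 ≤ (1 + mb/2)^2 := by
          apply pow_le_pow_left₀ (by linarith); linarith
        have h9 : V * ((1+m)^2 + 3 * (1.14 * Bb)) ≤ V * ((1+mb/2)^2 + 3 * (1.14 * Bb)) :=
          mul_le_mul_of_nonneg_left (by linarith) hVpos.le
        nlinarith
      exact le_of_sq_le_sq h7 hvb0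
    -- lower bound on the average
    have hmono : W1 * pr U k (fun S => 0 ≤ sg (zc x U) S ∧ sg (zc x U) S ≤ 2 * v)
        ≤ avg U k (fun S => if 0 ≤ sg x S then wt T0 W1 (sg x S) else 0) := by
      unfold pr
      rw [← avg_mul]
      apply avg_mono
      intro S hSU hSc
      have e := hsg S hSU hSc
      by_cases h0 : 0 ≤ sg (zc x U) S ∧ sg (zc x U) S ≤ 2 * v
      · have h1' : 0 ≤ sg x S := by linarith [h0.1]
        have h2' : sg x S ≤ T0 := by linarith [h0.2]
        rw [if_pos h0, if_pos h1']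
        unfold wt
        rw [if_pos h2', mul_one]
      · rw [if_neg h0, mul_zero]
        split_ifs
        · unfold wt
          split_ifs <;> linarith
        · exact le_refl _
    have hlow := fourth_le_sq x (by omega : 1 ≤ k) (by omega : 7 * k ≤ U.card)
    rw [← hK, ← hV] at hlow
    have hVK : q ≤ V^2 / K := by
      rw [le_div_iff₀ hKpos]
      refine le_trans ?_ hlow
      apply mul_le_mul_of_nonneg_right _ hKpos.le
      rw [hq]
      apply div_le_div_of_nonneg_left (by linarith) hUpos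
      rw [hUM]; linarith
    have h10 : W1 * (0.4639 * q) ≤ avg U k (fun S => if 0 ≤ sg x S then wt T0 W1 (sg x S) else 0) := by
      refine le_trans ?_ hmono
      apply mul_le_mul_of_nonneg_left _ (by linarith)
      refine le_trans ?_ hP
      apply mul_le_mul_of_nonneg_left hVK (by norm_num)
    have hA1 : 0 ≤ avg U k (fun S => if 0 ≤ sg x S then wt T0 W1 (sg x S) else 0) := by
      refine le_trans ?_ h10
      positivity
    have h11 : q ≤ W1 * (0.4639 * q) * (1 - hA * q) := by
      have h12 : W1 * 0.4639 * (1 - h * q) ≤ W1 * 0.4639 * (1 - hA * q) := by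
        apply mul_le_mul_of_nonneg_left _ (by positivity)
        nlinarith
      have h13 : 1 * q ≤ (W1 * 0.4639 * (1 - hA * q)) * q :=
        mul_le_mul_of_nonneg_right (hW.trans h12) hq0.le
      linarith
    calc q * (M.choose k : ℝ)
        ≤ (W1 * (0.4639 * q) * (1 - hA * q)) * (M.choose k : ℝ) :=
            mul_le_mul_of_nonneg_right h11 hCM
      _ = (W1 * (0.4639 * q)) * ((1 - hA * q) * (M.choose k : ℝ)) := by ring
      _ ≤ (W1 * (0.4639 * q)) * (U.card.choose k : ℝ) := by
            apply mul_le_mul_of_nonneg_left hchoose (by positivity)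
      _ ≤ _ := mul_le_mul_of_nonneg_right h10 (by positivity)

theorem starS (x : α → ℝ) {Ω H : Finset α} {j M h : ℕ} (hj : 1 ≤ j) (hM : 8 * (j+1) ≤ M)
    (hΩ : Ω.card + 1 = M) (hH : H ⊆ Ω) (hHc : H.card = h) (hh : h ≤ 1)
    {q Vb τ E : ℝ} (hq : q = ((j:ℝ)+1)/M)
    (htot : -τ ≤ sg x (Ω \ H)) (hτ0 : 0 ≤ τ) (hτ1 : q * τ < 1)
    (hVb : q * (1 - q) * dev x (Ω \ H) ≤ Vb)
    (hE : Vb ≤ E * (Vb + (1 - q * τ)^2)) (hE1 : E ≤ 1) :
    ((((Ω.powersetCard j).filter (fun R => sg x R < -1)).card : ℕ) : ℝ)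
      ≤ (1 - (1 - E) * (1 - h * q)) * ((M-1).choose j : ℝ) := by
  set U := Ω \ H with hUdef
  have hj' : (1:ℝ) ≤ j := by exact_mod_cast hj
  have hM' : 8 * ((j:ℝ)+1) ≤ M := by exact_mod_cast hM
  have hM0 : (0:ℝ) < M := by linarith
  have hUc : U.card + h = M - 1 := by
    rw [hUdef, Finset.card_sdiff_of_subset hH, hHc]
    have := Finset.card_le_card hH
    omega
  have hh' : (h:ℝ) ≤ 1 := by exact_mod_cast hh
  have hUc' : (U.card:ℝ) = M - 1 - h := by
    have h1 : U.card + h + 1 = M := by omega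
    have : (U.card:ℝ) + h + 1 = M := by exact_mod_cast h1
    linarith
  have hjU : j ≤ U.card := by omega
  have hq0 : 0 < q := by rw [hq]; positivity
  have hq8 : q ≤ 1/8 := by rw [hq, div_le_div_iff₀ hM0 (by norm_num)]; linarith
  have hUpos : (0:ℝ) < U.card := by rw [hUc']; linarith
  have hVh0 : 0 < Vh U.card j := by
    apply Vh_pos hj'
    · rw [hUc']; linarith
    · rw [hUc']; linarith
  have hVhS : Vh U.card j ≤ q * (1 - q) := by
    rw [hUc', hq]
    have := Vh_le_S (M := M) (k := (j:ℝ)+1) (h := h) ?_ (by linarith) hM'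
    · have e : (j:ℝ) + 1 - 1 = j := by ring
      rw [e] at this
      exact this
    · have : h = 0 ∨ h = 1 := by omega
      rcases this with rfl | rfl <;> simp
  have hdev := dev_nonneg x U
  set V := Vh U.card j * dev x U with hV
  have hVnn : 0 ≤ V := by positivity
  have hVVb : V ≤ Vb := (mul_le_mul_of_nonneg_right hVhS hdev).trans hVb
  have h1 := avg_W1 x hjU (by omega : 0 < U.card)
  have h2 := avg_W2 x hjU (by omega : 2 ≤ U.card)
  rw [← hV] at h2
  have hs : 0 < 1 - q * τ := by linarith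
  have hcant := cantelli hjU _ h1 h2 hVnn hs
  have hmean : -(q * τ) ≤ j * mean x U := by
    have h3 : (j:ℝ) * mean x U = (j / U.card) * sg x U := by unfold mean; field_simp
    have h4 : (j:ℝ) / U.card ≤ q := by
      rw [hq, div_le_div_iff₀ hUpos hM0, hUc']
      nlinarith
    rw [h3]
    by_cases h5 : 0 ≤ sg x U
    · have : 0 ≤ (j:ℝ) / U.card * sg x U := by positivity
      have : 0 ≤ q * τ := by positivity
      linarith
    · push Not at h5
      have h6 : q * sg x U ≤ (j:ℝ) / U.card * sg x U := mul_le_mul_of_nonpos_right h4 h5.le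
      have h7 : q * (-τ) ≤ q * sg x U := mul_le_mul_of_nonneg_left htot hq0.le
      linarith
  have hmono : pr U j (fun R => sg x R < -1) ≤ pr U j (fun R => sg (zc x U) R < -(1 - q * τ)) := by
    apply pr_mono
    intro R hR hc hlt
    have e := sg_eq x U hc
    linarith
  have hprE : pr U j (fun R => sg x R < -1) ≤ E := by
    refine hmono.trans (hcant.trans ?_)
    have hpos : 0 < V + (1 - q * τ)^2 := by positivity
    rw [div_le_iff₀ hpos]
    have hb : (1 - E) * V ≤ (1 - E) * Vb := mul_le_mul_of_nonneg_left hVVb (by linarith)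
    nlinarith
  have hcompl : pr U j (fun R => ¬ (sg x R < -1)) = 1 - pr U j (fun R => sg x R < -1) := by
    apply pr_compl hjU
    intro S _ _
    exact Iff.rfl
  -- counts
  have hcnt : (((U.powersetCard j).filter (fun R => ¬ (sg x R < -1))).card : ℝ)
      = pr U j (fun R => ¬ (sg x R < -1)) * (U.card.choose j : ℝ) := by
    rw [pr_eq]
    have : (U.card.choose j : ℝ) ≠ 0 := by
      exact_mod_cast (Nat.choose_pos hjU).ne'
    field_simp
  have hsub : ((U.powersetCard j).filter (fun R => ¬ (sg x R < -1))).card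
      ≤ ((Ω.powersetCard j).filter (fun R => ¬ (sg x R < -1))).card := by
    apply Finset.card_le_card
    apply Finset.filter_subset_filter
    apply Finset.powersetCard_mono
    rw [hUdef]; exact Finset.sdiff_subset
  have hsplit : ((Ω.powersetCard j).filter (fun R => sg x R < -1)).card
      + ((Ω.powersetCard j).filter (fun R => ¬ (sg x R < -1))).card = (M-1).choose j := by
    rw [Finset.card_filter_add_card_filter_not, Finset.card_powersetCard]
    congr 1
    omega
  have hsplit' : ((((Ω.powersetCard j).filter (fun R => sg x R < -1)).card : ℕ):ℝ)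
      = ((M-1).choose j : ℝ) - (((Ω.powersetCard j).filter (fun R => ¬ (sg x R < -1))).card : ℝ) := by
    rw [← hsplit]; push_cast; ring
  have hsub' : (((U.powersetCard j).filter (fun R => ¬ (sg x R < -1))).card : ℝ)
      ≤ (((Ω.powersetCard j).filter (fun R => ¬ (sg x R < -1))).card : ℝ) := by exact_mod_cast hsub
  have hchoose : (1 - h * q) * ((M-1).choose j : ℝ) ≤ (U.card.choose j : ℝ) := by
    have h3 := choose_restrict (M-1) j (by omega) hj h (by omega)
    have e : M - 1 - h = U.card := by omega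
    rw [e] at h3
    refine le_trans ?_ h3
    apply mul_le_mul_of_nonneg_right _ (by positivity)
    have hM1 : (((M-1 : ℕ)):ℝ) = (M:ℝ) - 1 := by
      have : 1 ≤ M := by omega
      push_cast [Nat.cast_sub this]; ring
    have h4 : (j:ℝ) / ((M-1 : ℕ):ℝ) ≤ q := by
      rw [hM1, hq, div_le_div_iff₀ (by linarith) hM0]
      nlinarith
    have h5 : (h:ℝ) * ((j:ℝ) / ((M-1 : ℕ):ℝ)) ≤ h * q := mul_le_mul_of_nonneg_left h4 (by positivity)
    linarith
  have hprn : 1 - E ≤ pr U j (fun R => ¬ (sg x R < -1)) := by rw [hcompl]; linarith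
  have h9 : (1 - E) * ((1 - h * q) * ((M-1).choose j : ℝ))
      ≤ (((U.powersetCard j).filter (fun R => ¬ (sg x R < -1))).card : ℝ) := by
    rw [hcnt]
    have h10 : (1 - E) * ((1 - h * q) * ((M-1).choose j : ℝ)) ≤ (1 - E) * (U.card.choose j : ℝ) :=
      mul_le_mul_of_nonneg_left hchoose (by linarith)
    refine h10.trans ?_
    exact mul_le_mul_of_nonneg_right hprn (by positivity)
  rw [hsplit']
  nlinarith

end Pool.Agent.H36.MMS
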