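import Pool.Agent.H36.MMSMoments

open Finset

set_option linter.unusedSectionVars false

namespace Pool.Agent.H36.MMS

variable {α : Type*} [DecidableEq α]

/-- probability of a property for a random `k`-subset -/
noncomputable def pr (U : Finset α) (k : ℕ) (P : Finset α → Prop) [DecidablePred P] : ℝ :=
  avg U k (fun S => if P S then (1:ℝ) else 0)

lemma pr_eq (U : Finset α) (k : ℕ) (P : Finset α → Prop) [DecidablePred P] :
    pr U k P = (((U.powersetCard k).filter P).card : ℝ) / (U.card.choose k : ℝ) := by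
  unfold pr avg
  rw [Finset.sum_boole]

lemma pr_mono {U : Finset α} {k : ℕ} {P Q : Finset α → Prop} [DecidablePred P] [DecidablePred Q]
    (h : ∀ S, S ⊆ U → S.card = k → P S → Q S) : pr U k P ≤ pr U k Q := by
  unfold pr
  refine avg_mono ?_
  intro S hS hc
  by_cases hP : P S
  · rw [if_pos hP, if_pos (h S hS hc hP)]
  · rw [if_neg hP]
    split_ifs <;> norm_num

lemma pr_nonneg (U : Finset α) (k : ℕ) (P : Finset α → Prop) [DecidablePred P] : 0 ≤ pr U k P := by
  rw [pr_eq]; positivity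

/-- polynomial method -/
lemma pr_ge_of_poly {U : Finset α} {k : ℕ} {P : Finset α → Prop} [DecidablePred P]
    (f : Finset α → ℝ) (M : ℝ)
    (h1 : ∀ S, S ⊆ U → S.card = k → f S ≤ M)
    (h2 : ∀ S, S ⊆ U → S.card = k → ¬ P S → f S ≤ 0) :
    avg U k f ≤ M * pr U k P := by
  unfold pr
  rw [← avg_mul]
  refine avg_mono ?_
  intro S hS hc
  by_cases hP : P S
  · rw [if_pos hP, mul_one]; exact h1 S hS hc
  · rw [if_neg hP, mul_zero]; exact h2 S hS hc hP

lemma pr_le_of_poly {U : Finset α} {k : ℕ} {P : Finset α → Prop} [DecidablePred P]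
    (f : Finset α → ℝ) (M : ℝ)
    (h1 : ∀ S, S ⊆ U → S.card = k → 0 ≤ f S)
    (h2 : ∀ S, S ⊆ U → S.card = k → P S → M ≤ f S) :
    M * pr U k P ≤ avg U k f := by
  unfold pr
  rw [← avg_mul]
  refine avg_mono ?_
  intro S hS hc
  by_cases hP : P S
  · rw [if_pos hP, mul_one]; exact h2 S hS hc hP
  · rw [if_neg hP, mul_zero]; exact h1 S hS hc

/-- Cantelli, upper form -/
lemma cantelli {U : Finset α} {k : ℕ} (hk : k ≤ U.card) (W : Finset α → ℝ) {V s : ℝ}
    (h1 : avg U k (fun S => W S ^ 1) = 0) (h2 : avg U k (fun S => W S ^ 2) = V)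
    (hV : 0 ≤ V) (hs : 0 < s) :
    pr U k (fun S => W S < -s) ≤ V / (V + s^2) := by
  have key : (s^2 + V)^2 * pr U k (fun S => W S < -s) ≤ avg U k (fun S => (s * W S - V)^2) := by
    refine pr_le_of_poly _ _ ?_ ?_
    · intro S _ _; positivity
    · intro S _ _ hS
      have h : s * W S - V ≤ -(s^2 + V) := by nlinarith
      nlinarith [sq_nonneg (s * W S - V + (s^2+V)), sq_nonneg s]
  have e : avg U k (fun S => (s * W S - V)^2) = V * (V + s^2) := by
    have : (fun S => (s * W S - V)^2)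
        = (fun S => (s^2 * W S ^ 2 + (-(2 * s * V)) * W S ^ 1) + (fun _ => V^2) S) := by
      funext S; ring
    rw [this, avg_add, avg_add, avg_mul, avg_mul, avg_const hk, h1, h2]
    ring
  rw [e] at key
  have hpos : 0 < V + s^2 := by positivity
  rw [le_div_iff₀ hpos]
  have h3 : (V + s^2) * ((V + s^2) * pr U k (fun S => W S < -s)) ≤ (V + s^2) * V := by
    nlinarith [key]
  have := le_of_mul_le_mul_left h3 hpos
  linarith [this, mul_comm (V + s^2) (pr U k (fun S => W S < -s))]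

lemma pr_compl {U : Finset α} {k : ℕ} (hk : k ≤ U.card) (P Q : Finset α → Prop) [DecidablePred P]
    [DecidablePred Q] (h : ∀ S, S ⊆ U → S.card = k → (Q S ↔ ¬ P S)) :
    pr U k Q = 1 - pr U k P := by
  unfold pr
  have e := avg_sub U k (fun _ => (1:ℝ)) (fun S => if P S then (1:ℝ) else 0)
  rw [avg_const hk] at e
  rw [← e]
  refine avg_congr ?_
  intro S hS hc
  by_cases hP : P S
  · have hQ : ¬ Q S := by rw [h S hS hc]; exact fun hh => hh hP
    simp [hP, hQ]
  · have hQ : Q S := by rw [h S hS hc]; exact hP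
    simp [hP, hQ]

/-- Cantelli, lower form -/
lemma cantelli' {U : Finset α} {k : ℕ} (hk : k ≤ U.card) (W : Finset α → ℝ) {V s : ℝ}
    (h1 : avg U k (fun S => W S ^ 1) = 0) (h2 : avg U k (fun S => W S ^ 2) = V)
    (hV : 0 ≤ V) (hs : 0 < s) :
    s^2 / (V + s^2) ≤ pr U k (fun S => -s ≤ W S) := by
  have := cantelli hk W h1 h2 hV hs
  have e : pr U k (fun S => -s ≤ W S) = 1 - pr U k (fun S => W S < -s) := by
    refine pr_compl hk _ _ ?_
    intro S _ _
    exact not_lt.symm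
  rw [e]
  have hpos : 0 < V + s^2 := by positivity
  have e2 : s^2 / (V + s^2) = 1 - V / (V + s^2) := by
    field_simp; ring
  rw [e2]; linarith

lemma poly_window (t : ℝ) : 2 * t + 3 * t^2 - t^4 ≤ 4.85 := by
  nlinarith [sq_nonneg ((t+1)^2 - 2*(t+1) - 0.866), sq_nonneg (0.732 * (t+1) - 1.732)]

lemma poly_window_neg {t : ℝ} (h : ¬ (0 ≤ t ∧ t ≤ 2)) : 2 * t + 3 * t^2 - t^4 ≤ 0 := by
  have e : 2 * t + 3 * t^2 - t^4 = (t * (2 - t)) * (t+1)^2 := by ring
  rw [e]
  have : t * (2 - t) ≤ 0 := by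
    by_cases h0 : 0 ≤ t
    · have : 2 < t := by
        by_contra h2
        exact h ⟨h0, not_lt.mp h2⟩
      nlinarith
    · push Not at h0
      nlinarith
  exact mul_nonpos_of_nonpos_of_nonneg this (by positivity)

/-- fourth moment bound, general window -/
lemma window {U : Finset α} {k : ℕ} (W : Finset α → ℝ) {V K v : ℝ}
    (h1 : avg U k (fun S => W S ^ 1) = 0) (h2 : avg U k (fun S => W S ^ 2) = V)
    (h4 : avg U k (fun S => W S ^ 4) ≤ K) (hv : 0 < v) :
    (3 * V / v^2 - K / v^4) ≤ 4.85 * pr U k (fun S => 0 ≤ W S ∧ W S ≤ 2 * v) := by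
  have key : avg U k (fun S => 2 * (W S / v) + 3 * (W S / v)^2 - (W S / v)^4)
      ≤ 4.85 * pr U k (fun S => 0 ≤ W S ∧ W S ≤ 2 * v) := by
    refine pr_ge_of_poly _ _ ?_ ?_
    · intro S _ _; exact poly_window _
    · intro S _ _ hS
      apply poly_window_neg
      rintro ⟨ha, hb⟩
      apply hS
      constructor
      · rw [le_div_iff₀ hv] at ha; linarith
      · rw [div_le_iff₀ hv] at hb; exact hb
  have e : avg U k (fun S => 2 * (W S / v) + 3 * (W S / v)^2 - (W S / v)^4)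
      = 3 * V / v^2 - avg U k (fun S => W S ^ 4) / v^4 := by
    have : (fun S => 2 * (W S / v) + 3 * (W S / v)^2 - (W S / v)^4)
        = (fun S => ((2 / v) * W S ^ 1 + (3 / v^2) * W S ^ 2) - (1 / v^4) * W S ^ 4) := by
      funext S
      field_simp
    rw [this, avg_sub, avg_add, avg_mul, avg_mul, avg_mul, h1, h2]
    ring
  rw [e] at key
  have : avg U k (fun S => W S ^ 4) / v^4 ≤ K / v^4 :=
    div_le_div_of_nonneg_right h4 (by positivity)
  linarith

/-- optimised window -/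
lemma window_opt {U : Finset α} {k : ℕ} (W : Finset α → ℝ) {V K v : ℝ}
    (h1 : avg U k (fun S => W S ^ 1) = 0) (h2 : avg U k (fun S => W S ^ 2) = V)
    (h4 : avg U k (fun S => W S ^ 4) ≤ K) (hV : 0 < V) (hK : 0 < K) (hv : 0 < v)
    (hv2 : v^2 * (3 * V) = 2 * K) :
    0.4639 * (V^2 / K) ≤ pr U k (fun S => 0 ≤ W S ∧ W S ≤ 2 * v) := by
  have key := window W h1 h2 h4 hv
  have e : 3 * V / v^2 - K / v^4 = 9/4 * (V^2 / K) := by
    have hvv : v^2 = 2 * K / (3 * V) := by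
      field_simp; linarith
    have hvvv : v^4 = (2 * K / (3 * V))^2 := by
      rw [← hvv]; ring
    rw [hvv, hvvv]
    field_simp
    ring
  rw [e] at key
  have hn : 0 ≤ V^2 / K := by positivity
  nlinarith [key, hn]

lemma pr_nonneg_ge {U : Finset α} {k : ℕ} (W : Finset α → ℝ) {V K : ℝ}
    (h1 : avg U k (fun S => W S ^ 1) = 0) (h2 : avg U k (fun S => W S ^ 2) = V)
    (h4 : avg U k (fun S => W S ^ 4) ≤ K) (hV : 0 < V) (hK : 0 < K) :
    0.4639 * (V^2 / K) ≤ pr U k (fun S => 0 ≤ W S) := by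
  have hv : 0 < Real.sqrt (2 * K / (3 * V)) := Real.sqrt_pos.mpr (by positivity)
  have hv2 : (Real.sqrt (2 * K / (3 * V)))^2 * (3 * V) = 2 * K := by
    rw [Real.sq_sqrt (by positivity)]
    field_simp
  refine (window_opt W h1 h2 h4 hV hK hv hv2).trans ?_
  refine pr_mono ?_
  intro S _ _ h
  exact h.1

lemma poly_shift_norm (s r : ℝ) (hr : 0 ≤ r) (hr' : r ≤ 1/4) :
    s^2 * (s - 1 + r) * (3 + r - s) ≤ 4.85 + 11.2 * r + 9 * r^2 := by
  set β : ℝ := 0.866 + 1.65 * r with hβ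
  set A : ℝ := 2 * β - 1 - 2 * r - r^2 with hA
  set C : ℝ := 4.85 + 11.2 * r + 9 * r^2 - β^2 with hC
  have hA0 : 0 < A := by rw [hA, hβ]; nlinarith
  have hAC : 0 ≤ A * C - 4 * β^2 := by
    rw [hA, hC, hβ]
    have h1 : 0 ≤ r * (1/4 - r) := mul_nonneg hr (by linarith)
    nlinarith [mul_nonneg hr h1, mul_nonneg (mul_nonneg hr hr) h1, sq_nonneg (r - 0.1),
      mul_nonneg hr (sq_nonneg (r-0.1))]
  have hrem : 0 ≤ A * s^2 - 4 * β * s + C := by
    have : 0 ≤ A * (A * s^2 - 4 * β * s + C) := by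
      have e : A * (A * s^2 - 4 * β * s + C) = (A * s - 2 * β)^2 + (A * C - 4 * β^2) := by ring
      rw [e]; positivity
    exact nonneg_of_mul_nonneg_right this hA0
  have e : 4.85 + 11.2 * r + 9 * r^2 - s^2 * (s - 1 + r) * (3 + r - s)
      = (s^2 - 2 * s - β)^2 + (A * s^2 - 4 * β * s + C) := by
    rw [hA, hC]; ring
  nlinarith [sq_nonneg (s^2 - 2 * s - β)]

lemma poly_shift (W b τ : ℝ) (hb : 0 < b) (hτ : 0 ≤ τ) (hτ' : τ ≤ b / 4) :
    (W + τ) * (W + b)^2 * (2 * b + τ - W) ≤ 4.85 * b^4 + 11.2 * b^3 * τ + 9 * b^2 * τ^2 := by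
  have h := poly_shift_norm ((W + b) / b) (τ / b) (by positivity)
    (by rw [div_le_iff₀ hb]; linarith)
  have hb4 : 0 < b^4 := by positivity
  have h' := mul_le_mul_of_nonneg_left h hb4.le
  have e1 : b^4 * (((W + b) / b)^2 * ((W + b) / b - 1 + τ / b) * (3 + τ / b - (W + b) / b))
      = (W + τ) * (W + b)^2 * (2 * b + τ - W) := by
    field_simp; ring
  have e2 : b^4 * (4.85 + 11.2 * (τ / b) + 9 * (τ / b)^2)
      = 4.85 * b^4 + 11.2 * b^3 * τ + 9 * b^2 * τ^2 := by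
    field_simp
  rw [e1, e2] at h'
  exact h'

lemma poly_shift_neg {W b τ : ℝ} (hb : 0 < b) (hτ : 0 ≤ τ) (h : ¬ (-τ ≤ W)) :
    (W + τ) * (W + b)^2 * (2 * b + τ - W) ≤ 0 := by
  push Not at h
  have h1 : (W + τ) * (2 * b + τ - W) ≤ 0 :=
    mul_nonpos_of_nonpos_of_nonneg (by linarith) (by linarith)
  have e : (W + τ) * (W + b)^2 * (2 * b + τ - W) = ((W + τ) * (2 * b + τ - W)) * (W+b)^2 := by ring
  rw [e]
  exact mul_nonpos_of_nonpos_of_nonneg h1 (by positivity)

/-- shifted fourth moment bound -/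
lemma shift {U : Finset α} {k : ℕ} (hk : k ≤ U.card) (W : Finset α → ℝ) {V K b τ : ℝ}
    (h1 : avg U k (fun S => W S ^ 1) = 0) (h2 : avg U k (fun S => W S ^ 2) = V)
    (h4 : avg U k (fun S => W S ^ 4) ≤ K) (hb : 0 < b) (hτ : 0 ≤ τ) (hτ' : τ ≤ b / 4) :
    (-K + (3 * b^2 + 2 * b * τ + τ^2) * V + b^2 * τ * (2 * b + τ))
      ≤ (4.85 * b^4 + 11.2 * b^3 * τ + 9 * b^2 * τ^2) * pr U k (fun S => -τ ≤ W S) := by
  have key : avg U k (fun S => (W S + τ) * (W S + b)^2 * (2 * b + τ - W S))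
      ≤ (4.85 * b^4 + 11.2 * b^3 * τ + 9 * b^2 * τ^2) * pr U k (fun S => -τ ≤ W S) := by
    refine pr_ge_of_poly _ _ ?_ ?_
    · intro S _ _; exact poly_shift _ _ _ hb hτ hτ'
    · intro S _ _ hS; exact poly_shift_neg hb hτ hS
  have e : avg U k (fun S => (W S + τ) * (W S + b)^2 * (2 * b + τ - W S))
      = -avg U k (fun S => W S ^ 4) + (3 * b^2 + 2 * b * τ + τ^2) * V
        + b^2 * τ * (2 * b + τ) := by
    have : (fun S => (W S + τ) * (W S + b)^2 * (2 * b + τ - W S))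
        = (fun S => ((((-1) * W S ^ 4 + (3 * b^2 + 2 * b * τ + τ^2) * W S ^ 2)
            + (2 * b^3 + 2 * b * τ * (2 * b + τ)) * W S ^ 1)
            + (fun _ => b^2 * τ * (2 * b + τ)) S)) := by
      funext S; ring
    rw [this, avg_add, avg_add, avg_add, avg_mul, avg_mul, avg_mul, avg_const hk, h1, h2]
    ring
  rw [e] at key
  linarith

end Pool.Agent.H36.MMS
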