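import Pool.Agent.H36.StanleySusp

set_option autoImplicit false

open scoped unitInterval Topology
open ContinuousMap Set

namespace Pool.Agent.H36

/-- a set stable under nonnegative scaling, containing zero -/
structure IsScal {E : Type} [AddCommGroup E] [Module ℝ E] (K : Set E) : Prop where
  zero_mem : (0 : E) ∈ K
  smul_mem : ∀ c : ℝ, 0 ≤ c → ∀ k ∈ K, c • k ∈ K

section
variable {E : Type} [NormedAddCommGroup E] [NormedSpace ℝ E] {K : Set E}

lemma cone_normalize (hK : IsScal K) (N : E → ℝ) (hNc : ContinuousOn N (K \ {0}))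
    (hNpos : ∀ k ∈ K, k ≠ 0 → 0 < N k) (hNh : ∀ c : ℝ, 0 < c → ∀ k ∈ K, N (c • k) = c * N k) :
    Nonempty (↥(K \ {0}) ≃ₕ ↥{k : E | k ∈ K ∧ k ≠ 0 ∧ N k = 1}) := by
  have hNc' : ContinuousOn (fun k => (N k)⁻¹) (K \ {0}) :=
    hNc.inv₀ (fun k hk => (hNpos k hk.1 hk.2).ne')
  refine hEquiv_of _ _ (fun k => (N k)⁻¹ • k) id (hNc'.smul continuousOn_id) continuousOn_id
    ?_ ?_ (fun r k => ((1 - r) * (N k)⁻¹ + r) • k) ?_ ?_ ?_ ?_ (fun r k => k) ?_ ?_ ?_ ?_
  · intro k hk
    have hp := hNpos k hk.1 hk.2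
    refine ⟨hK.smul_mem _ (by positivity) _ hk.1, smul_ne_zero (by positivity) hk.2, ?_⟩
    show N ((N k)⁻¹ • k) = 1
    rw [hNh _ (by positivity) _ hk.1]
    field_simp
  · intro k hk
    exact ⟨hk.1, hk.2.1⟩
  · apply ContinuousOn.smul
    · apply ContinuousOn.add
      · apply ContinuousOn.mul
        · fun_prop
        · exact hNc'.comp continuousOn_snd (fun z hz => hz.2)
      · fun_prop
    · fun_prop
  · intro r hr k hk
    have hp := hNpos k hk.1 hk.2
    have h1 : 0 < (1 - r) * (N k)⁻¹ + r := by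
      rcases eq_or_lt_of_le hr.1 with h | h
      · rw [← h]; simp; exact hp
      · have : 0 ≤ (1 - r) * (N k)⁻¹ := mul_nonneg (by linarith [hr.2]) (by positivity)
        linarith
    exact ⟨hK.smul_mem _ h1.le _ hk.1, smul_ne_zero h1.ne' hk.2⟩
  · intro k hk; simp
  · intro k hk; simp
  · exact continuousOn_snd
  · intro r hr k hk; exact hk
  · intro k hk; simp [hk.2.2]
  · intro k hk; rfl

/-- unit sphere of a cone -/
def usph (K : Set E) : Set E := {k : E | k ∈ K ∧ k ≠ 0 ∧ ‖k‖ = 1}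

lemma cone_norm (hK : IsScal K) : Nonempty (↥(K \ {0}) ≃ₕ ↥(usph K)) :=
  cone_normalize hK (fun k => ‖k‖) (by fun_prop) (fun k _ h => norm_pos_iff.2 h)
    (fun c hc k _ => by simp [norm_smul, abs_of_pos hc])

/-- clamp -/
noncomputable def cl (x : ℝ) : I := Set.projIcc 0 1 zero_le_one x

lemma continuous_cl : Continuous cl := continuous_projIcc (h := zero_le_one)

lemma cl_of_mem {x : ℝ} (h0 : 0 ≤ x) (h1 : x ≤ 1) : (cl x : ℝ) = x := by
  simp [cl, projIcc_of_mem zero_le_one (⟨h0, h1⟩ : x ∈ Icc (0:ℝ) 1)]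

lemma cl_zero {x : ℝ} (h : x ≤ 0) : cl x = 0 := projIcc_of_le_left _ h
lemma cl_one {x : ℝ} (h : 1 ≤ x) : cl x = 1 := projIcc_of_right_le _ h

/-- the punctured product cone -/
def pcone (K : Set E) : Set (E × ℝ) := (K ×ˢ univ) \ {0}

noncomputable def Ffun (K : Set E) (hK : IsScal K) : C(Susp (usph K), pcone K) :=
  Susp.lift ⟨fun z => ⟨((1 - |2 * (z.2 : ℝ) - 1|) • (z.1 : E), 2 * (z.2 : ℝ) - 1), by
      refine ⟨⟨hK.smul_mem _ ?_ _ z.1.2.1, trivial⟩, ?_⟩
      · have h0 := z.2.2.1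
        have h1 := z.2.2.2
        have : |2 * (z.2 : ℝ) - 1| ≤ 1 := abs_le.2 ⟨by linarith, by linarith⟩
        linarith
      · intro h
        have h2 := congrArg Prod.snd h
        have h1 := congrArg Prod.fst h
        simp only [Prod.fst_zero, Prod.snd_zero] at h1 h2
        rw [h2] at h1
        simp at h1
        exact z.1.2.2.1 h1⟩, by
      refine Continuous.subtype_mk ?_ _
      fun_prop⟩
    (fun b => ⟨(0, cond b 1 (-1)), ⟨⟨hK.zero_mem, trivial⟩, by cases b <;> simp⟩⟩)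
    (fun x => by apply Subtype.ext; simp)
    (fun x => by apply Subtype.ext; norm_num)

lemma nrm_mem (hK : IsScal K) {k : E} (hk : k ∈ K) (h : k ≠ 0) : ‖k‖⁻¹ • k ∈ usph K :=
  ⟨hK.smul_mem _ (by positivity) _ hk, smul_ne_zero (by simpa using h) h,
    by rw [norm_smul, norm_inv, norm_norm]; exact inv_mul_cancel₀ (by simpa using h)⟩

noncomputable def Gaux (K : Set E) (hK : IsScal K) (z : {z : pcone K // (z : E × ℝ).1 ≠ 0}) :
    Susp (usph K) :=
  Susp.mk ⟨‖(z.1 : E × ℝ).1‖⁻¹ • (z.1 : E × ℝ).1, nrm_mem hK z.1.2.1.1 z.2⟩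
    (cl (1/2 + (z.1 : E × ℝ).2 / (|(z.1 : E × ℝ).2| + ‖(z.1 : E × ℝ).1‖)))

lemma continuous_Gaux (hK : IsScal K) : Continuous (Gaux K hK) := by
  have hpos : ∀ z : {z : pcone K // (z : E × ℝ).1 ≠ 0}, 0 < ‖(z.1 : E × ℝ).1‖ :=
    fun z => norm_pos_iff.2 z.2
  have h1 : Continuous (fun z : {z : pcone K // (z : E × ℝ).1 ≠ 0} =>
      ‖(z.1 : E × ℝ).1‖⁻¹ • (z.1 : E × ℝ).1) := by
    apply Continuous.smul
    · exact Continuous.inv₀ (by fun_prop) (fun w => (hpos w).ne')
    · fun_prop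
  have h2 : Continuous (fun z : {z : pcone K // (z : E × ℝ).1 ≠ 0} =>
      cl (1/2 + (z.1 : E × ℝ).2 / (|(z.1 : E × ℝ).2| + ‖(z.1 : E × ℝ).1‖))) := by
    refine continuous_cl.comp ?_
    refine Continuous.add continuous_const (Continuous.div (by fun_prop) (by fun_prop) ?_)
    intro w
    have := hpos w
    positivity
  exact Susp.continuous_mk.comp ((h1.subtype_mk _).prodMk h2)

open Classical in
noncomputable def Gfun (K : Set E) (hK : IsScal K) (z : pcone K) : Susp (usph K) :=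
  if h : (z : E × ℝ).1 = 0 then Susp.pole _ (decide (0 < (z : E × ℝ).2))
  else Gaux K hK ⟨z, h⟩

lemma Gfun_pos (hK : IsScal K) (z : pcone K) (h : ‖(z : E × ℝ).1‖ < (z : E × ℝ).2) :
    Gfun K hK z = Susp.pole _ true := by
  have h0 : 0 < (z : E × ℝ).2 := lt_of_le_of_lt (norm_nonneg _) h
  unfold Gfun
  split_ifs with hz
  · simp [h0]
  · unfold Gaux
    rw [cl_one, Susp.mk_one]
    simp only
    rw [abs_of_pos h0]
    have : (1:ℝ)/2 ≤ (z : E × ℝ).2 / ((z : E × ℝ).2 + ‖(z : E × ℝ).1‖) := by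
      rw [div_le_div_iff₀ (by norm_num) (by positivity)]
      linarith
    linarith

lemma Gfun_neg (hK : IsScal K) (z : pcone K) (h : (z : E × ℝ).2 < -‖(z : E × ℝ).1‖) :
    Gfun K hK z = Susp.pole _ false := by
  have h0 : (z : E × ℝ).2 < 0 := by linarith [norm_nonneg (z : E × ℝ).1]
  unfold Gfun
  split_ifs with hz
  · congr 1
    simpa using h0.le
  · unfold Gaux
    rw [cl_zero, Susp.mk_zero]
    simp only
    rw [abs_of_neg h0]
    have hp : 0 < -(z : E × ℝ).2 + ‖(z : E × ℝ).1‖ := by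
      have := norm_nonneg (z : E × ℝ).1
      linarith
    have : (z : E × ℝ).2 / (-(z : E × ℝ).2 + ‖(z : E × ℝ).1‖) ≤ -(1/2) := by
      rw [div_le_iff₀ hp]
      linarith
    linarith

lemma continuous_Gfun (hK : IsScal K) : Continuous (Gfun K hK) := by
  rw [continuous_iff_continuousAt]
  intro z
  by_cases hz : (z : E × ℝ).1 = 0
  · have hs : (z : E × ℝ).2 ≠ 0 := by
      intro h
      exact z.2.2 (Prod.ext hz h)
    rcases lt_or_gt_of_ne hs with hs | hs
    · have hU : ∀ᶠ w : pcone K in 𝓝 z, (w : E × ℝ).2 < -‖(w : E × ℝ).1‖ := by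
        apply IsOpen.mem_nhds (isOpen_lt (by fun_prop) (by fun_prop))
        show (z : E × ℝ).2 < -‖(z : E × ℝ).1‖
        rw [hz]; simpa using hs
      exact (continuousAt_const (y := Susp.pole _ false)).congr
        (hU.mono fun w hw => (Gfun_neg hK w hw).symm)
    · have hU : ∀ᶠ w : pcone K in 𝓝 z, ‖(w : E × ℝ).1‖ < (w : E × ℝ).2 := by
        apply IsOpen.mem_nhds (isOpen_lt (by fun_prop) (by fun_prop))
        show ‖(z : E × ℝ).1‖ < (z : E × ℝ).2
        rw [hz]; simpa using hs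
      exact (continuousAt_const (y := Susp.pole _ true)).congr
        (hU.mono fun w hw => (Gfun_pos hK w hw).symm)
  · have hUo : IsOpen {w : pcone K | (w : E × ℝ).1 ≠ 0} :=
      isOpen_ne_fun (by fun_prop) continuous_const
    have he : Topology.IsOpenEmbedding
        (Subtype.val : {w : pcone K // (w : E × ℝ).1 ≠ 0} → pcone K) := hUo.isOpenEmbedding_subtypeVal
    have hc : ContinuousAt (Gfun K hK ∘ (Subtype.val : {w : pcone K // (w : E × ℝ).1 ≠ 0} → pcone K))
        ⟨z, hz⟩ := by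
      have : Gfun K hK ∘ (Subtype.val : {w : pcone K // (w : E × ℝ).1 ≠ 0} → pcone K) = Gaux K hK := by
        funext w
        simp only [Function.comp, Gfun]
        rw [dif_neg w.2]
      rw [this]
      exact (continuous_Gaux hK).continuousAt
    exact (he.continuousAt_iff).1 hc

lemma FG (hK : IsScal K) (z : pcone K) : (Ffun K hK (Gfun K hK z) : E × ℝ) =
    ((1 - |2 * (cl (1/2 + (z : E × ℝ).2 / (|(z : E × ℝ).2| + ‖(z : E × ℝ).1‖)) : ℝ) - 1|) •
      (‖(z : E × ℝ).1‖⁻¹ • (z : E × ℝ).1),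
      2 * (cl (1/2 + (z : E × ℝ).2 / (|(z : E × ℝ).2| + ‖(z : E × ℝ).1‖)) : ℝ) - 1) := by
  unfold Gfun
  split_ifs with hz
  · have hs : (z : E × ℝ).2 ≠ 0 := by
      intro h
      exact z.2.2 (Prod.ext hz h)
    rcases lt_or_gt_of_ne hs with hs | hs
    · have : (z : E × ℝ).2 / (|(z : E × ℝ).2| + ‖(z : E × ℝ).1‖) = -1 := by
        rw [hz, abs_of_neg hs]; simp; field_simp
      rw [this, cl_zero (by norm_num)]
      simp [Ffun, hz, not_lt.2 hs.le]
    · have : (z : E × ℝ).2 / (|(z : E × ℝ).2| + ‖(z : E × ℝ).1‖) = 1 := by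
        rw [hz, abs_of_pos hs, norm_zero, add_zero, div_self hs.ne']
      rw [this, cl_one (by norm_num)]
      simp [Ffun, hs, hz]
      norm_num
  · rfl

lemma cl_half_pos {x : ℝ} (h : 0 < x) : 0 < 2 * (cl (1/2 + x) : ℝ) - 1 := by
  rcases le_total (1/2 + x) 1 with h1 | h1
  · rw [cl_of_mem (by linarith) h1]; linarith
  · rw [cl_one h1]; norm_num

lemma cl_half_neg {x : ℝ} (h : x < 0) : 2 * (cl (1/2 + x) : ℝ) - 1 < 0 := by
  rcases le_total 0 (1/2 + x) with h1 | h1
  · rw [cl_of_mem h1 (by linarith)]; linarith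
  · rw [cl_zero h1]; norm_num

lemma cc_pos {r a b : ℝ} (h0 : 0 ≤ r) (h1 : r ≤ 1) (ha : 0 < a) (hb : 0 < b) :
    0 < (1 - r) * a + r * b := by
  rcases h0.eq_or_lt with h | h
  · rw [← h]; simpa using ha
  · have : 0 ≤ (1 - r) * a := mul_nonneg (by linarith) ha.le
    have := mul_pos h hb
    linarith

lemma susp_usph (hK : IsScal K) : Nonempty (Susp (usph K) ≃ₕ pcone K) := by
  refine ⟨⟨Ffun K hK, ⟨Gfun K hK, continuous_Gfun hK⟩, ?_, ?_⟩⟩
  · refine Susp.homotopic_of _ _ ⟨fun z => Susp.mk z.1.1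
      (cl ((1 - (z.2 : ℝ)) * (cl (2 * (z.1.2 : ℝ) - 1/2) : ℝ) + (z.2 : ℝ) * (z.1.2 : ℝ))), ?_⟩
      (fun b => ContinuousMap.const _ (Susp.pole _ b)) ?_ ?_ ?_ ?_ ?_ ?_
    · refine Susp.continuous_mk.comp (f := fun z : (usph K × I) × I => (z.1.1,
        cl ((1 - (z.2 : ℝ)) * (cl (2 * (z.1.2 : ℝ) - 1/2) : ℝ) + (z.2 : ℝ) * (z.1.2 : ℝ)))) ?_
      refine Continuous.prodMk (by fun_prop) (continuous_cl.comp ?_)
      refine Continuous.add (Continuous.mul (by fun_prop) ?_) (by fun_prop)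
      exact continuous_subtype_val.comp (continuous_cl.comp (by fun_prop))
    · intro x r
      simp only [ContinuousMap.coe_mk, Set.Icc.coe_zero, ContinuousMap.const_apply]
      rw [cl_zero (x := 2 * 0 - 1/2) (by norm_num), cl_zero, Susp.mk_zero]
      simp
    · intro x r
      simp only [ContinuousMap.coe_mk, Set.Icc.coe_one, ContinuousMap.const_apply]
      rw [cl_one (x := 2 * 1 - 1/2) (by norm_num), cl_one, Susp.mk_one]
      simp
    · intro x t
      simp only [ContinuousMap.coe_mk, Set.Icc.coe_zero, ContinuousMap.comp_apply, sub_zero,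
        one_mul, zero_mul, add_zero]
      have hx := x.2.2.2
      have hr : (Ffun K hK (Susp.mk x t) : E × ℝ) =
        ((1 - |2 * (t : ℝ) - 1|) • (x : E), 2 * (t : ℝ) - 1) := rfl
      have ht0 := t.2.1
      have ht1 := t.2.2
      have hab : |2 * (t : ℝ) - 1| ≤ 1 := abs_le.2 ⟨by linarith, by linarith⟩
      have hcl : cl (cl (2 * (t : ℝ) - 1/2) : ℝ) = cl (2 * (t : ℝ) - 1/2) :=
        Subtype.ext (cl_of_mem (cl (2 * (t : ℝ) - 1/2)).2.1 (cl (2 * (t : ℝ) - 1/2)).2.2)
      rw [hcl]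
      unfold Gfun
      split_ifs with h
      · rw [hr] at h
        have h' : 1 - |2 * (t : ℝ) - 1| = 0 := by
          rcases smul_eq_zero.1 h with h | h
          · exact h
          · exact absurd h x.2.2.1
        rcases abs_cases (2 * (t : ℝ) - 1) with ⟨h2, h3⟩ | ⟨h2, h3⟩
        · have : (t : ℝ) = 1 := by linarith
          rw [hr, cl_one (by linarith), Susp.mk_one]
          simp [this]
        · have : (t : ℝ) = 0 := by linarith
          rw [hr, cl_zero (by linarith), Susp.mk_zero]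
          have h10 : ¬ ((1:ℝ) < 0) := by norm_num
          simp [this, h10]
      · have h' : 0 < 1 - |2 * (t : ℝ) - 1| := by
          rcases (sub_nonneg.2 hab).lt_or_eq with h1 | h1
          · exact h1
          · exfalso; apply h; rw [hr, ← h1]; simp
        unfold Gaux
        congr 1
        · apply Subtype.ext
          simp only [hr]
          rw [norm_smul, hx, mul_one, Real.norm_eq_abs, abs_of_pos h', smul_smul,
            inv_mul_cancel₀ h'.ne', one_smul]
        · simp only [hr]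
          rw [norm_smul, hx, mul_one, Real.norm_eq_abs, abs_of_pos h']
          congr 1
          ring
    · intro b
      have h10 : ¬ ((1:ℝ) < 0) := by norm_num
      cases b <;> simp [Ffun, Gfun, h10]
    · intro x t
      simp only [ContinuousMap.coe_mk, Set.Icc.coe_one, ContinuousMap.id_apply, sub_self,
        one_mul, zero_mul, zero_add]
      congr 1
      exact Subtype.ext (cl_of_mem t.2.1 t.2.2)
    · intro b; rfl
  · refine ⟨⟨⟨fun w => ⟨(1 - (w.1 : ℝ)) • (Ffun K hK (Gfun K hK w.2) : E × ℝ) +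
      (w.1 : ℝ) • (w.2 : E × ℝ), ?_⟩, ?_⟩, ?_, ?_⟩⟩
    · obtain ⟨r, z⟩ := w
      have hr0 := r.2.1
      have hr1 := r.2.2
      have hz := z.2
      set w0 := 2 * (cl (1/2 + (z : E × ℝ).2 / (|(z : E × ℝ).2| + ‖(z : E × ℝ).1‖)) : ℝ) - 1 with hw0
      have hFG := FG hK z
      rw [← hw0] at hFG
      simp only [hFG]
      have hden : 0 ≤ |(z : E × ℝ).2| + ‖(z : E × ℝ).1‖ := by positivity
      have hw01 : |w0| ≤ 1 := by
        have h0 := (cl (1/2 + (z : E × ℝ).2 / (|(z : E × ℝ).2| + ‖(z : E × ℝ).1‖))).2.1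
        have h1 := (cl (1/2 + (z : E × ℝ).2 / (|(z : E × ℝ).2| + ‖(z : E × ℝ).1‖))).2.2
        exact abs_le.2 ⟨by linarith, by linarith⟩
      constructor
      · refine ⟨?_, trivial⟩
        simp only [Prod.fst_add, Prod.smul_fst]
        rw [smul_smul, smul_smul, ← add_smul]
        refine hK.smul_mem _ ?_ _ hz.1.1
        have := norm_nonneg (z : E × ℝ).1
        have h3 : 0 ≤ 1 - |w0| := by linarith
        have h4 : 0 ≤ 1 - (r : ℝ) := by linarith
        positivity
      · intro h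
        have h1 := congrArg Prod.fst h
        have h2 := congrArg Prod.snd h
        simp only [Prod.fst_add, Prod.smul_fst, Prod.fst_zero, Prod.snd_add, Prod.smul_snd,
          Prod.snd_zero, smul_eq_mul] at h1 h2
        rcases lt_trichotomy (z : E × ℝ).2 0 with hs | hs | hs
        · have hd : 0 < |(z : E × ℝ).2| + ‖(z : E × ℝ).1‖ := by
            have : 0 < |(z : E × ℝ).2| := abs_pos.2 hs.ne
            positivity
          have : w0 < 0 := cl_half_neg (div_neg_of_neg_of_pos hs hd)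
          have := cc_pos hr0 hr1 (neg_pos.2 this) (neg_pos.2 hs)
          linarith
        · have hne : (z : E × ℝ).1 ≠ 0 := fun h0 => hz.2 (Prod.ext h0 hs)
          have hw00 : w0 = 0 := by
            rw [hw0, hs, zero_div, cl_of_mem (by norm_num) (by norm_num)]; norm_num
          rw [hw00, abs_zero, sub_zero, one_smul, smul_smul, ← add_smul] at h1
          rcases smul_eq_zero.1 h1 with h3 | h3
          · have hn : 0 < ‖(z : E × ℝ).1‖ := norm_pos_iff.2 hne
            have h5 : 0 ≤ (1 - (r : ℝ)) * ‖(z : E × ℝ).1‖⁻¹ :=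
              mul_nonneg (by linarith) (by positivity)
            have h6 : (r : ℝ) = 0 := by linarith
            rw [h6] at h3
            simp at h3
            exact hne h3
          · exact hne h3
        · have hd : 0 < |(z : E × ℝ).2| + ‖(z : E × ℝ).1‖ := by
            have : 0 < |(z : E × ℝ).2| := abs_pos.2 hs.ne'
            positivity
          have : 0 < w0 := cl_half_pos (div_pos hs hd)
          have := cc_pos hr0 hr1 this hs
          linarith
    · refine Continuous.subtype_mk ?_ _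
      have hc1 : Continuous (fun w : I × pcone K => (Ffun K hK (Gfun K hK w.2) : E × ℝ)) :=
        continuous_subtype_val.comp ((Ffun K hK).continuous.comp
          ((continuous_Gfun hK).comp continuous_snd))
      have hc2 : Continuous (fun w : I × pcone K => (1 - (w.1 : ℝ))) := by fun_prop
      have hc3 : Continuous (fun w : I × pcone K => (w.1 : ℝ) • (w.2 : E × ℝ)) := by fun_prop
      exact (hc2.smul hc1).add hc3
    · intro z
      apply Subtype.ext
      simp
    · intro z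
      apply Subtype.ext
      simp

/-- The suspension of a punctured cone `K` is the punctured cone `K × ℝ`. -/
lemma susp_cone (hK : IsScal K) : Nonempty (Susp ↥(K \ {0}) ≃ₕ pcone K) := by
  obtain ⟨e⟩ := Susp.congr (cone_norm hK)
  obtain ⟨e'⟩ := susp_usph hK
  exact ⟨e.trans e'⟩

end

lemma cone_transport {E E' : Type} [NormedAddCommGroup E] [NormedSpace ℝ E]
    [NormedAddCommGroup E'] [NormedSpace ℝ E'] (K : Set E) (K' : Set E') (φ : E ≃L[ℝ] E')
    (h : ∀ x, x ∈ K ↔ φ x ∈ K') : Nonempty (↥(K \ {0}) ≃ₕ ↥(K' \ {0})) := by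
  have : ∀ x, x ∈ K \ {0} ↔ φ x ∈ K' \ {0} := by
    intro x
    simp [h x]
  exact ⟨(Homeomorph.subtype φ.toHomeomorph this).toHomotopyEquiv⟩

lemma iterSusp_cone (m : ℕ) {E : Type} [NormedAddCommGroup E] [NormedSpace ℝ E] {K : Set E}
    (hK : IsScal K) : Nonempty (iterSusp m (TopCat.of ↥(K \ {0})) ≃ₕ
      ↥(((K ×ˢ univ) \ {0} : Set (E × (Fin m → ℝ))))) := by
  induction m with
  | zero =>
    show Nonempty (↥(K \ {0}) ≃ₕ _)
    refine cone_transport K _ (ContinuousLinearEquiv.prodUnique ℝ E (Fin 0 → ℝ)).symm ?_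
    intro x
    simp
  | succ m ih =>
    have h1 : Nonempty (iterSusp (m+1) (TopCat.of ↥(K \ {0})) ≃ₕ
        Susp ↥(((K ×ˢ univ) \ {0} : Set (E × (Fin m → ℝ))))) := by
      unfold iterSusp at ih ⊢
      rw [Function.iterate_succ_apply']
      exact Susp.congr ih
    have h2 := susp_cone (K := ((K ×ˢ univ) : Set (E × (Fin m → ℝ)))) ⟨⟨hK.zero_mem, trivial⟩,
      fun c hc k hk => ⟨hK.smul_mem _ hc _ hk.1, trivial⟩⟩
    have h3 : Nonempty (pcone ((K ×ˢ univ) : Set (E × (Fin m → ℝ))) ≃ₕ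
        ↥(((K ×ˢ univ) \ {0} : Set (E × (Fin (m+1) → ℝ))))) := by
      refine cone_transport _ _ ((ContinuousLinearEquiv.prodAssoc ℝ E (Fin m → ℝ) ℝ).trans
        ((ContinuousLinearEquiv.refl ℝ E).prodCongr
          ((ContinuousLinearEquiv.prodComm ℝ (Fin m → ℝ) ℝ).trans
            (Fin.consEquivL ℝ (fun _ : Fin (m+1) => ℝ))))) ?_
      intro x
      simp
    obtain ⟨e1⟩ := h1
    obtain ⟨e2⟩ := h2
    obtain ⟨e3⟩ := h3
    exact ⟨(e1.trans e2).trans e3⟩

end Pool.Agent.H36
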