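import Pool.Agent.H36.StanleyCone

set_option autoImplicit false

open scoped unitInterval Topology
open ContinuousMap Set

namespace Pool.Agent.H36

/-- every `k ∈ N` is blocked at `p`: the vector `e k` cannot be subtracted from `p` any more -/
def Blocked {ι κ : Type} (e : κ → ι → ℝ) (N : Finset κ) (p : ι → ℝ) : Prop :=
  ∀ k ∈ N, ∃ i, p i = 0 ∧ 0 < e k i

section greedy
variable {ι κ : Type} [Fintype ι]

lemma greedy_one (e : ι → ℝ) (he : ∀ i, 0 ≤ e i) (hne : ∃ i, 0 < e i) :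
    ∃ a : (ι → ℝ) → ℝ, Continuous a ∧ (∀ p, (∀ i, a p * e i ≤ p i ∨ e i = 0)) ∧
      (∀ p : ι → ℝ, ∃ i, 0 < e i ∧ p i = a p * e i) := by
  classical
  have hS : (Finset.univ.filter (fun i => 0 < e i)).Nonempty := by
    obtain ⟨i, hi⟩ := hne
    exact ⟨i, by simp [hi]⟩
  refine ⟨fun p => (Finset.univ.filter (fun i => 0 < e i)).inf' hS (fun i => p i / e i), ?_, ?_, ?_⟩
  · apply Continuous.finset_inf'_apply
    intro i _
    fun_prop
  · intro p i
    rcases (he i).eq_or_lt with h | h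
    · right; exact h.symm
    · left
      have := Finset.inf'_le (fun i => p i / e i) (show i ∈ Finset.univ.filter (fun i => 0 < e i) by simp [h])
      exact (le_div_iff₀ h).1 this
  · intro p
    obtain ⟨i, hi, h⟩ := Finset.exists_mem_eq_inf' hS (fun i => p i / e i)
    have hi' : 0 < e i := by simpa using hi
    refine ⟨i, hi', ?_⟩
    beta_reduce
    rw [h]
    field_simp

lemma greedy (e : κ → ι → ℝ) (M : Submodule ℝ (ι → ℝ)) (he : ∀ k i, 0 ≤ e k i) (N : Finset κ)
    (hne : ∀ k ∈ N, ∃ i, 0 < e k i) (hM : ∀ k ∈ N, e k ∈ M) :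
    ∃ ρ : (ι → ℝ) → (ι → ℝ), Continuous ρ ∧ ∀ p : ι → ℝ, (∀ i, 0 ≤ p i) →
      (∀ i, 0 ≤ ρ p i) ∧ (∀ i, ρ p i ≤ p i) ∧ Blocked e N (ρ p) ∧ (Blocked e N p → ρ p = p) ∧
      (p ∈ M ↔ ρ p ∈ M) ∧ ∀ t : ℝ, 0 ≤ t → t ≤ 1 → ρ ((1 - t) • p + t • ρ p) = ρ p := by
  classical
  induction N using Finset.induction_on with
  | empty =>
    refine ⟨id, continuous_id, fun p hp => ⟨hp, fun i => le_rfl, ?_, fun _ => rfl, Iff.rfl, ?_⟩⟩
    · intro k hk; simp at hk
    · intro t _ _
      show (1 - t) • p + t • p = p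
      rw [← add_smul]; simp
  | insert k N hk ih =>
    obtain ⟨ρ, hρc, hρ⟩ := ih (fun k' h => hne k' (Finset.mem_insert_of_mem h))
      (fun k' h => hM k' (Finset.mem_insert_of_mem h))
    obtain ⟨a, hac, ha1, ha2⟩ := greedy_one (e k) (he k) (hne k (Finset.mem_insert_self _ _))
    have hkM : e k ∈ M := hM k (Finset.mem_insert_self _ _)
    have hs0 : ∀ p : ι → ℝ, (∀ i, 0 ≤ p i) → ∀ i, 0 ≤ (p - a p • e k) i := by
      intro p hp i
      simp only [Pi.sub_apply, Pi.smul_apply, smul_eq_mul]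
      rcases ha1 p i with h | h
      · linarith
      · rw [h]; simpa using hp i
    have ha0 : ∀ p : ι → ℝ, (∀ i, 0 ≤ p i) → 0 ≤ a p := by
      intro p hp
      obtain ⟨i, hi, h⟩ := ha2 p
      by_contra hneg
      push Not at hneg
      have := mul_neg_of_neg_of_pos hneg hi
      linarith [hp i]
    have hsle : ∀ p : ι → ℝ, (∀ i, 0 ≤ p i) → ∀ i, (p - a p • e k) i ≤ p i := by
      intro p hp i
      simp only [Pi.sub_apply, Pi.smul_apply, smul_eq_mul]
      have := mul_nonneg (ha0 p hp) (he k i)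
      linarith
    refine ⟨fun p => ρ (p - a p • e k), hρc.comp (continuous_id.sub (hac.smul continuous_const)), ?_⟩
    intro p hp
    have hq := hρ (p - a p • e k) (hs0 p hp)
    obtain ⟨h1, h2, h3, h4, h5, h6⟩ := hq
    obtain ⟨i0, hi0, hpi0⟩ := ha2 p
    have hz : ρ (p - a p • e k) i0 = 0 := by
      have hh := h2 i0
      have hh' := h1 i0
      simp only [Pi.sub_apply, Pi.smul_apply, smul_eq_mul] at hh
      linarith
    refine ⟨h1, fun i => (h2 i).trans (hsle p hp i), ?_, ?_, ?_, ?_⟩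
    · intro k' hk'
      rcases Finset.mem_insert.1 hk' with rfl | hk'
      · exact ⟨i0, hz, hi0⟩
      · exact h3 k' hk'
    · intro hb
      obtain ⟨j, hj0, hj⟩ := hb k (Finset.mem_insert_self _ _)
      have ha : a p = 0 := by
        rcases ha1 p j with h | h
        · rw [hj0] at h
          have h' := ha0 p hp
          by_contra hne0
          have : 0 < a p := lt_of_le_of_ne h' (Ne.symm hne0)
          have := mul_pos this hj
          linarith
        · exact absurd h hj.ne'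
      have hpp : p - a p • e k = p := by rw [ha]; simp
      show ρ (p - a p • e k) = p
      rw [hpp] at h4 ⊢
      exact h4 (fun k' hk' => hb k' (Finset.mem_insert_of_mem hk'))
    · rw [← h5]
      constructor
      · intro h
        exact M.sub_mem h (M.smul_mem _ hkM)
      · intro h
        have := M.add_mem h (M.smul_mem (a p) hkM)
        simpa using this
    · intro t ht0 ht1
      have h1t : 0 ≤ 1 - t := by linarith
      show ρ (((1 - t) • p + t • ρ (p - a p • e k)) -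
        a ((1 - t) • p + t • ρ (p - a p • e k)) • e k) = ρ (p - a p • e k)
      set p' := p - a p • e k with hp'
      have hpe : p = p' + a p • e k := by rw [hp']; simp
      set q := (1 - t) • p + t • ρ p' with hq
      have hqi : ∀ i, q i = (1 - t) * p i + t * ρ p' i := fun i => by simp [hq]
      have hq0 : ∀ i, 0 ≤ q i := by
        intro i
        rw [hqi]
        have := mul_nonneg h1t (hp i)
        have := mul_nonneg ht0 (h1 i)
        linarith
      -- a q = (1-t) * a p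
      have haq : a q = (1 - t) * a p := by
        apply le_antisymm
        · rcases ha1 q i0 with h | h
          · rw [hqi, hz, mul_zero, add_zero, hpi0, ← mul_assoc] at h
            exact le_of_mul_le_mul_right h hi0
          · exact absurd h hi0.ne'
        · obtain ⟨i, hi, h⟩ := ha2 q
          have h7 : a p * e k i ≤ p i := by
            rcases ha1 p i with h | h
            · exact h
            · exact absurd h hi.ne'
          have h8 : (1 - t) * (a p * e k i) ≤ (1 - t) * p i := mul_le_mul_of_nonneg_left h7 h1t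
          have h9 := mul_nonneg ht0 (h1 i)
          have h10 : (1 - t) * a p * e k i ≤ a q * e k i := by
            rw [← h, hqi]
            nlinarith
          exact le_of_mul_le_mul_right h10 hi
      have : q - a q • e k = (1 - t) • p' + t • ρ p' := by
        rw [haq, hq, hp']
        module
      rw [this]
      exact h6 t ht0 ht1

/-- the cone of blocked nonnegative vectors -/
def BCone (e : κ → ι → ℝ) (N : Finset κ) : Set (ι → ℝ) := {p | (∀ i, 0 ≤ p i) ∧ Blocked e N p}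

/-- its intersection with the subspace `M` -/
def BConeM (e : κ → ι → ℝ) (N : Finset κ) (M : Submodule ℝ (ι → ℝ)) : Set (ι → ℝ) :=
  {p | p ∈ M ∧ (∀ i, 0 ≤ p i) ∧ Blocked e N p}

omit [Fintype ι] in
lemma blocked_smul {e : κ → ι → ℝ} {N : Finset κ} {p : ι → ℝ} (c : ℝ) (h : Blocked e N p) :
    Blocked e N (c • p) := by
  intro k hk
  obtain ⟨i, hi, h'⟩ := h k hk
  exact ⟨i, by simp [hi], h'⟩

omit [Fintype ι] in
lemma isScal_BCone (e : κ → ι → ℝ) (N : Finset κ) (hne : ∀ k ∈ N, ∃ i, 0 < e k i) :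
    IsScal (BCone e N) := by
  refine ⟨⟨fun i => le_rfl, fun k hk => ?_⟩, fun c hc p hp => ⟨fun i => ?_, blocked_smul c hp.2⟩⟩
  · obtain ⟨i, hi⟩ := hne k hk
    exact ⟨i, rfl, hi⟩
  · exact mul_nonneg hc (hp.1 i)

omit [Fintype ι] in
lemma isScal_BConeM (e : κ → ι → ℝ) (N : Finset κ) (hne : ∀ k ∈ N, ∃ i, 0 < e k i)
    (M : Submodule ℝ (ι → ℝ)) : IsScal (BConeM e N M) := by
  refine ⟨⟨M.zero_mem, fun i => le_rfl, fun k hk => ?_⟩,
    fun c hc p hp => ⟨M.smul_mem _ hp.1, fun i => ?_, blocked_smul c hp.2.2⟩⟩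
  · obtain ⟨i, hi⟩ := hne k hk
    exact ⟨i, rfl, hi⟩
  · exact mul_nonneg hc (hp.2.1 i)

lemma splitting (M : Submodule ℝ (ι → ℝ)) (m : ℕ)
    (hm : Module.finrank ℝ M + m = Fintype.card ι) :
    ∃ (P : (ι → ℝ) →ₗ[ℝ] (ι → ℝ)) (Q : (ι → ℝ) →ₗ[ℝ] (Fin m → ℝ)) (θ : (Fin m → ℝ) →ₗ[ℝ] (ι → ℝ)),
      (∀ q, P q ∈ M) ∧ (∀ q, P q + θ (Q q) = q) ∧ (∀ q ∈ M, P q = q) ∧ (∀ q ∈ M, Q q = 0) ∧
      (∀ μ, P (θ μ) = 0) ∧ (∀ μ, Q (θ μ) = μ) := by
  classical
  obtain ⟨M', hMM'⟩ := M.exists_isCompl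
  have hfr : Module.finrank ℝ M' = m := by
    have := Submodule.finrank_add_eq_of_isCompl hMM'
    rw [Module.finrank_fintype_fun_eq_card] at this
    omega
  let φ : M' ≃ₗ[ℝ] (Fin m → ℝ) := LinearEquiv.ofFinrankEq _ _ (by simp [hfr])
  refine ⟨M.projection M' hMM', φ.toLinearMap ∘ₗ (M'.projectionOnto M hMM'.symm),
    M'.subtype ∘ₗ φ.symm.toLinearMap, ?_, ?_, ?_, ?_, ?_, ?_⟩
  · intro q; exact Submodule.projection_apply_mem hMM' q
  · intro q
    simpa using Submodule.projection_add_projection_eq_self hMM' q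
  · intro q hq; exact Submodule.projection_apply_of_mem_left hMM' hq
  · intro q hq
    have : M'.projectionOnto M hMM'.symm q = 0 := Submodule.projectionOnto_apply_of_mem_right _ hq
    simp [this]
  · intro μ
    simp
  · intro μ
    simp

lemma core (e : κ → ι → ℝ) (M : Submodule ℝ (ι → ℝ)) (he : ∀ k i, 0 ≤ e k i) (N : Finset κ)
    (hne : ∀ k ∈ N, ∃ i, 0 < e k i) (hM : ∀ k ∈ N, e k ∈ M) (u : ι → ℝ) (huM : u ∈ M)
    (hu : ∀ i, 1 ≤ u i) (m : ℕ) (hm : Module.finrank ℝ M + m = Fintype.card ι) :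
    Nonempty (↥(BCone e N \ {0}) ≃ₕ
      ↥(((BConeM e N M ×ˢ univ) \ {0} : Set ((ι → ℝ) × (Fin m → ℝ))))) := by
  classical
  obtain ⟨ρ, hρc, hρ⟩ := greedy e M he N hne hM
  obtain ⟨P, Q, θ, hP, hPQ, hPM, hQM, hPθ, hQθ⟩ := splitting M m hm
  have hPc : Continuous P := P.continuous_of_finiteDimensional
  have hQc : Continuous Q := Q.continuous_of_finiteDimensional
  have hθc : Continuous θ := θ.continuous_of_finiteDimensional
  let D : Set (ι → ℝ) := {p | (∀ i, 0 ≤ p i) ∧ ρ p ≠ 0}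
  have hρ0 : ρ 0 = 0 := by
    have := (hρ 0 (fun i => le_rfl)).2.2.2.1
    exact this (isScal_BCone e N hne).zero_mem.2
  have hρM : ∀ p : ι → ℝ, (∀ i, 0 ≤ p i) → ρ p = 0 → p ∈ M := by
    intro p hp h
    rw [(hρ p hp).2.2.2.2.1, h]; exact M.zero_mem
  -- step 1
  have step1 : Nonempty (↥(BCone e N \ {0}) ≃ₕ D) := by
    refine hEquiv_of _ _ id ρ continuousOn_id hρc.continuousOn ?_ ?_ (fun r a => a) ?_ ?_ ?_ ?_
      (fun r b => (1 - r) • ρ b + r • b) ?_ ?_ ?_ ?_
    · intro p hp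
      refine ⟨hp.1.1, ?_⟩
      show ρ p ≠ 0
      rw [(hρ p hp.1.1).2.2.2.1 hp.1.2]
      exact hp.2
    · intro p hp
      exact ⟨⟨(hρ p hp.1).1, (hρ p hp.1).2.2.1⟩, hp.2⟩
    · exact continuousOn_snd
    · intro r hr a ha; exact ha
    · intro a ha
      exact ((hρ a ha.1.1).2.2.2.1 ha.1.2).symm
    · intro a ha; rfl
    · exact Continuous.continuousOn (by fun_prop)
    · intro r hr b hb
      have h := (hρ b hb.1).2.2.2.2.2 (1 - r) (by linarith [hr.2]) (by linarith [hr.1])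
      rw [show (1 - (1 - r)) = r by ring] at h
      refine ⟨?_, ?_⟩
      · intro i
        have h1 := mul_nonneg (sub_nonneg.2 hr.2) ((hρ b hb.1).1 i)
        have h2 := mul_nonneg hr.1 (hb.1 i)
        simp only [Pi.add_apply, Pi.smul_apply, smul_eq_mul]
        linarith
      · rw [add_comm, h]
        exact hb.2
    · intro b hb; simp
    · intro b hb; simp
  -- the vector ‖θ μ‖ • u - dominates
  have hdom : ∀ (v : ι → ℝ) (i : ι), |v i| ≤ (‖v‖ • u) i := by
    intro v i
    have h1 : |v i| ≤ ‖v‖ := by simpa using norm_le_pi_norm v i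
    simp only [Pi.smul_apply, smul_eq_mul]
    nlinarith [hu i, norm_nonneg v]
  have hA : ∀ q : ι → ℝ, (∀ i, 0 ≤ q i) → ∀ i, 0 ≤ (P q + ‖θ (Q q)‖ • u) i := by
    intro q hq i
    have h1 : P q i + θ (Q q) i = q i := congrFun (hPQ q) i
    have h2 := hdom (θ (Q q)) i
    have h3 := le_abs_self (θ (Q q) i)
    simp only [Pi.add_apply]
    linarith [hq i]
  have hAM : ∀ q : ι → ℝ, P q + ‖θ (Q q)‖ • u ∈ M := fun q =>
    M.add_mem (hP q) (M.smul_mem _ huM)
  have hF : ∀ (y : ι → ℝ) (μ : Fin m → ℝ), (∀ i, 0 ≤ y i) →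
      ∀ i, 0 ≤ (y + θ μ + ‖θ μ‖ • u) i := by
    intro y μ hy i
    have h2 := hdom (θ μ) i
    have h3 := neg_abs_le (θ μ i)
    simp only [Pi.add_apply]
    linarith [hy i]
  have hPF : ∀ (y : ι → ℝ) (μ : Fin m → ℝ), y ∈ M → P (y + θ μ + ‖θ μ‖ • u) = y + ‖θ μ‖ • u := by
    intro y μ hy
    rw [map_add, map_add, hPM y hy, hPθ, map_smul, hPM u huM, add_zero]
  have hQF : ∀ (y : ι → ℝ) (μ : Fin m → ℝ), y ∈ M → Q (y + θ μ + ‖θ μ‖ • u) = μ := by
    intro y μ hy
    rw [map_add, map_add, hQM y hy, hQθ, map_smul, hQM u huM, zero_add, smul_zero, add_zero]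
  have step2 : Nonempty (D ≃ₕ
      ↥(((BConeM e N M ×ˢ univ) \ {0} : Set ((ι → ℝ) × (Fin m → ℝ))))) := by
    refine hEquiv_of _ _ (fun q => (ρ (P q + ‖θ (Q q)‖ • u), Q q))
      (fun z => z.1 + θ z.2 + ‖θ z.2‖ • u) (Continuous.continuousOn (by fun_prop))
      (Continuous.continuousOn (by fun_prop)) ?_ ?_
      (fun r q => (1 - r) • (ρ (P q + ‖θ (Q q)‖ • u) + θ (Q q) + ‖θ (Q q)‖ • u) + r • q)
      (Continuous.continuousOn (by fun_prop)) ?_ ?_ ?_
      (fun r z => (ρ (z.1 + ((1 - r) * (2 * ‖θ z.2‖)) • u), z.2))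
      (Continuous.continuousOn (by fun_prop)) ?_ ?_ ?_
    · intro q hq
      refine ⟨⟨⟨?_, ?_, ?_⟩, trivial⟩, ?_⟩
      · exact ((hρ _ (hA q hq.1)).2.2.2.2.1).1 (hAM q)
      · exact (hρ _ (hA q hq.1)).1
      · exact (hρ _ (hA q hq.1)).2.2.1
      · intro h
        have h1 := congrArg Prod.fst h
        have h2 := congrArg Prod.snd h
        simp only [Prod.fst_zero, Prod.snd_zero] at h1 h2
        rw [h2, map_zero, norm_zero, zero_smul, add_zero] at h1
        have h3 := hPQ q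
        rw [h2, map_zero, add_zero] at h3
        rw [h3] at h1
        exact hq.2 h1
    · intro z hz
      refine ⟨hF _ _ hz.1.1.2.1, ?_⟩
      intro h
      have h1 := hρM _ (hF _ z.2 hz.1.1.2.1) h
      have h2 := hQM _ h1
      rw [hQF _ _ hz.1.1.1] at h2
      simp only [h2, map_zero, norm_zero, zero_smul, add_zero] at h
      rw [(hρ _ hz.1.1.2.1).2.2.2.1 hz.1.1.2.2] at h
      exact hz.2 (Prod.ext h h2)
    · intro r hr q hq
      have hFG0 := hF _ (Q q) (hρ _ (hA q hq.1)).1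
      have hr1 : 0 ≤ 1 - r := by linarith [hr.2]
      have hnn : ∀ i, 0 ≤ ((1 - r) • (ρ (P q + ‖θ (Q q)‖ • u) + θ (Q q) + ‖θ (Q q)‖ • u) + r • q) i := by
        intro i
        have h1 := mul_nonneg hr1 (hFG0 i)
        have h2 := mul_nonneg hr.1 (hq.1 i)
        simp only [Pi.add_apply, Pi.smul_apply, smul_eq_mul] at h1 ⊢
        linarith
      refine ⟨hnn, ?_⟩
      intro h
      have h1 := hρM _ hnn h
      have h2 := hQM _ h1
      rw [map_add, map_smul, map_smul, hQF _ _ (((hρ _ (hA q hq.1)).2.2.2.2.1).1 (hAM q)),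
        ← add_smul] at h2
      simp only [sub_add_cancel, one_smul] at h2
      have h3 := hPQ q
      rw [h2, map_zero, add_zero] at h3
      simp only [h2, map_zero, norm_zero, zero_smul, add_zero, h3] at h
      have h4 := (hρ q hq.1).2.2.2.2.2 (1 - r) hr1 (by linarith [hr.1])
      rw [show (1 - (1 - r)) = r by ring, add_comm] at h4
      rw [h4] at h
      exact hq.2 h
    · intro q hq
      simp
    · intro q hq
      simp
    · intro r hr z hz
      have hr1 : 0 ≤ 1 - r := by linarith [hr.2]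
      have hnn : ∀ i, 0 ≤ (z.1 + ((1 - r) * (2 * ‖θ z.2‖)) • u) i := by
        intro i
        have h1 : 0 ≤ ((1 - r) * (2 * ‖θ z.2‖)) * u i := by
          have := hu i
          positivity
        have h2 := hz.1.1.2.1 i
        simp only [Pi.add_apply, Pi.smul_apply, smul_eq_mul]
        linarith
      refine ⟨⟨⟨?_, ?_, ?_⟩, trivial⟩, ?_⟩
      · exact ((hρ _ hnn).2.2.2.2.1).1 (M.add_mem hz.1.1.1 (M.smul_mem _ huM))
      · exact (hρ _ hnn).1
      · exact (hρ _ hnn).2.2.1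
      · intro h
        have h1 := congrArg Prod.fst h
        have h2 := congrArg Prod.snd h
        simp only [Prod.fst_zero, Prod.snd_zero] at h1 h2
        rw [h2] at h1
        simp only [map_zero, norm_zero, mul_zero, zero_smul, add_zero] at h1
        rw [(hρ _ hz.1.1.2.1).2.2.2.1 hz.1.1.2.2] at h1
        exact hz.2 (Prod.ext h1 h2)
    · intro z hz
      have h1 := hPF z.1 z.2 hz.1.1.1
      have h2 := hQF z.1 z.2 hz.1.1.1
      simp only [h1, h2]
      congr 2
      module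
    · intro z hz
      simp only [sub_self, zero_mul, zero_smul, add_zero]
      rw [(hρ _ hz.1.1.2.1).2.2.2.1 hz.1.1.2.2]
  obtain ⟨e1⟩ := step1
  obtain ⟨e2⟩ := step2
  exact ⟨e1.trans e2⟩

end greedy

end Pool.Agent.H36
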