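import Mathlib

set_option autoImplicit false

open scoped unitInterval Matrix

namespace Pool.Agent.H36

/-- Gluing relation of the unreduced suspension: `(x, 0)` is glued to the pole `false` and
`(x, 1)` to the pole `true`. -/
def SuspRel (X : Type) : (X × unitInterval) ⊕ Bool → (X × unitInterval) ⊕ Bool → Prop :=
  fun a b => ∃ x : X, (a = Sum.inl (x, 0) ∧ b = Sum.inr false) ∨
    (a = Sum.inl (x, 1) ∧ b = Sum.inr true)

/-- The unreduced suspension (two points if `X` is empty). -/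
def Susp (X : Type) : Type := Quot (SuspRel X)

instance instTopSusp (X : Type) [TopologicalSpace X] : TopologicalSpace (Susp X) :=
  inferInstanceAs (TopologicalSpace (Quot (SuspRel X)))

/-- The `m`-fold unreduced suspension. -/
def iterSusp (m : ℕ) (X : TopCat.{0}) : TopCat.{0} :=
  (fun Y : TopCat.{0} => TopCat.of (Susp Y))^[m] X

variable {r n : ℕ}

/-- An integer vector seen as a real vector. -/
def toReal (δ : Fin n → ℤ) : Fin n → ℝ := fun i => (δ i : ℝ)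

/-- The cone `C_Φ` of nonnegative real solutions of `Φ x = 0`. -/
def realCone (Φ : Matrix (Fin r) (Fin n) ℤ) : Set (Fin n → ℝ) :=
  {x | (∀ i, 0 ≤ x i) ∧ (Φ.map (fun a : ℤ => (a : ℝ))) *ᵥ x = 0}

/-- `E_{Φ,α}`: the nonnegative integer solutions of `Φ γ = α`. -/
def natSol (Φ : Matrix (Fin r) (Fin n) ℤ) (α : Fin r → ℤ) : Set (Fin n → ℤ) :=
  {γ | (∀ i, 0 ≤ γ i) ∧ Φ *ᵥ γ = α}

/-- The coset of the group generated by `E_Φ` that contains `E_{Φ,α}`. -/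
def solCoset (Φ : Matrix (Fin r) (Fin n) ℤ) (α : Fin r → ℤ) : Set (Fin n → ℤ) :=
  {β | ∃ γ ∈ natSol Φ α, ∃ ε ∈ AddSubgroup.closure (natSol Φ 0), β = γ + ε}

/-- `x` spans an extreme ray of the cone `C`. -/
def IsExtremeDir (C : Set (Fin n → ℝ)) (x : Fin n → ℝ) : Prop :=
  x ∈ C ∧ x ≠ 0 ∧ ∀ y ∈ C, ∀ z ∈ C, y + z = x → ∃ c : ℝ, y = c • x

/-- `CF_Φ`: the nonzero integer points nearest the origin on the extreme rays of `C_Φ`. -/
def CF (Φ : Matrix (Fin r) (Fin n) ℤ) : Set (Fin n → ℤ) :=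
  {δ | IsExtremeDir (realCone Φ) (toReal δ) ∧
    ∀ (δ' : Fin n → ℤ) (t : ℝ), 0 < t → toReal δ' = t • toReal δ → 1 ≤ t}

/-- The faces of the simplicial complex `Δ_β`. -/
def deltaFaces (Φ : Matrix (Fin r) (Fin n) ℤ) (β : Fin n → ℤ) : Set (Set (CF Φ)) :=
  {S | ∀ i, β i < 0 → ∃ δ : CF Φ, δ ∉ S ∧ 0 < (δ : Fin n → ℤ) i}

/-- The geometric realisation of `Δ_β`. -/
def Delta (Φ : Matrix (Fin r) (Fin n) ℤ) (β : Fin n → ℤ) : Set (CF Φ → ℝ) :=
  {w | (∀ δ, 0 ≤ w δ) ∧ ∑ᶠ δ, w δ = 1 ∧ {δ | w δ ≠ 0} ∈ deltaFaces Φ β}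

/-- The polar dual (inside the direction space) of `P` with respect to the point `x₀`. -/
def polarDual (P : Set (Fin n → ℝ)) (x₀ : Fin n → ℝ) : Set (Fin n → ℝ) :=
  {y | y ∈ vectorSpan ℝ P ∧ ∀ x ∈ P, y ⬝ᵥ (x - x₀) ≤ 1}

/-- The face of the polar dual corresponding to the face `F` of `P`. -/
def dualFace (P : Set (Fin n → ℝ)) (x₀ : Fin n → ℝ) (F : Set (Fin n → ℝ)) :
    Set (Fin n → ℝ) :=
  {y | y ∈ polarDual P x₀ ∧ ∀ x ∈ F, y ⬝ᵥ (x - x₀) = 1}

/-- `Γ_β`: the union of the dual faces `F*` over the faces `F` of `P` whose support contains the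
negative support of `β`. -/
def Gamma (P : Set (Fin n → ℝ)) (x₀ : Fin n → ℝ) (β : Fin n → ℤ) : Set (Fin n → ℝ) :=
  {y | ∃ F : Set (Fin n → ℝ), IsExposed ℝ P F ∧ (∀ i, β i < 0 → ∃ x ∈ F, 0 < x i) ∧
    y ∈ dualFace P x₀ F}

end Pool.Agent.H36
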