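import Pool.Agent.H36.StanleyRat

set_option autoImplicit false

open scoped Matrix
open Set

namespace Pool.Agent.H36

variable {r n : ℕ} {Φ : Matrix (Fin r) (Fin n) ℤ}

lemma realCone_add {x y : Fin n → ℝ} (hx : x ∈ realCone Φ) (hy : y ∈ realCone Φ) :
    x + y ∈ realCone Φ := by
  rw [mem_realCone] at hx hy ⊢
  refine ⟨fun i => add_nonneg (hx.1 i) (hy.1 i), fun a => ?_⟩
  simp only [Pi.add_apply, mul_add, Finset.sum_add_distrib, hx.2 a, hy.2 a, add_zero]

lemma realCone_smul {x : Fin n → ℝ} {c : ℝ} (hc : 0 ≤ c) (hx : x ∈ realCone Φ) :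
    c • x ∈ realCone Φ := by
  rw [mem_realCone] at hx ⊢
  refine ⟨fun i => mul_nonneg hc (hx.1 i), fun a => ?_⟩
  have : ∑ i, (Φ a i : ℝ) * (c • x) i = c * ∑ i, (Φ a i : ℝ) * x i := by
    rw [Finset.mul_sum]
    apply Finset.sum_congr rfl
    intro i _
    simp only [Pi.smul_apply, smul_eq_mul]; ring
  rw [this, hx.2 a, mul_zero]

lemma realCone_sub {x y : Fin n → ℝ} (hx : x ∈ realCone Φ) (hy : y ∈ realCone Φ)
    (h : ∀ i, y i ≤ x i) : x - y ∈ realCone Φ := by
  rw [mem_realCone] at hx hy ⊢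
  refine ⟨fun i => sub_nonneg.2 (h i), fun a => ?_⟩
  simp only [Pi.sub_apply, mul_sub, Finset.sum_sub_distrib, hx.2 a, hy.2 a, sub_zero]

lemma realCone_zero : (0 : Fin n → ℝ) ∈ realCone Φ := by
  rw [mem_realCone]; simp

lemma realCone_sum {ι : Type*} (s : Finset ι) (f : ι → Fin n → ℝ) (h : ∀ i ∈ s, f i ∈ realCone Φ) :
    ∑ i ∈ s, f i ∈ realCone Φ := by
  classical
  induction s using Finset.induction_on with
  | empty => simpa using realCone_zero
  | insert a s ha ih =>
    rw [Finset.sum_insert ha]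
    exact realCone_add (h a (Finset.mem_insert_self _ _))
      (ih fun i hi => h i (Finset.mem_insert_of_mem hi))

/-- support as a finset -/
noncomputable def spt (x : Fin n → ℝ) : Finset (Fin n) := by
  classical exact Finset.univ.filter (fun i => x i ≠ 0)

lemma mem_spt {x : Fin n → ℝ} {i : Fin n} : i ∈ spt x ↔ x i ≠ 0 := by
  classical
  simp [spt]

/-- The maximal multiple of `y` below `x`. -/
lemma max_mult {x y : Fin n → ℝ} (hx : x ∈ realCone Φ) (hy : y ∈ realCone Φ) (hy0 : y ≠ 0)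
    (hs : spt y ⊆ spt x) : ∃ t : ℝ, 0 < t ∧ x - t • y ∈ realCone Φ ∧ spt (x - t • y) ⊂ spt x := by
  classical
  have hne : (spt y).Nonempty := by
    rw [Finset.nonempty_iff_ne_empty]
    intro h
    apply hy0
    funext i
    by_contra hi
    have := mem_spt.2 hi
    rw [h] at this
    simp at this
  obtain ⟨i0, hi0, hmin⟩ := Finset.exists_min_image (spt y) (fun i => x i / y i) hne
  have hypos : ∀ i ∈ spt y, 0 < y i := fun i hi =>
    lt_of_le_of_ne ((mem_realCone.1 hy).1 i) (Ne.symm (mem_spt.1 hi))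
  have hxpos : ∀ i ∈ spt x, 0 < x i := fun i hi =>
    lt_of_le_of_ne ((mem_realCone.1 hx).1 i) (Ne.symm (mem_spt.1 hi))
  have ht : 0 < x i0 / y i0 := div_pos (hxpos i0 (hs hi0)) (hypos i0 hi0)
  refine ⟨x i0 / y i0, ht, ?_, ?_⟩
  · refine realCone_sub hx (realCone_smul ht.le hy) ?_
    intro i
    by_cases hi : i ∈ spt y
    · have := hmin i hi
      rw [le_div_iff₀ (hypos i hi)] at this
      exact this
    · have : y i = 0 := by
        by_contra h; exact hi (mem_spt.2 h)
      simp only [Pi.smul_apply, smul_eq_mul, this, mul_zero]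
      exact (mem_realCone.1 hx).1 i
  · rw [Finset.ssubset_iff_of_subset]
    · refine ⟨i0, hs hi0, ?_⟩
      rw [mem_spt]
      have := hypos i0 hi0
      simp only [Pi.sub_apply, Pi.smul_apply, smul_eq_mul, ne_eq, not_not]
      field_simp
      ring
    · intro i hi
      rw [mem_spt] at hi ⊢
      intro hxi
      apply hi
      have : y i = 0 := by
        by_contra h
        exact (mem_spt.1 (hs (mem_spt.2 h))) hxi
      simp [hxi, this]

/-- every nonzero point of the cone dominates (in support) an element of `CF` -/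
lemma exists_CF {x : Fin n → ℝ} (hx : x ∈ realCone Φ) (hx0 : x ≠ 0) :
    ∃ δ ∈ CF Φ, spt (toReal δ) ⊆ spt x := by
  classical
  -- minimal support
  let T : Set (Fin n → ℝ) := {y | y ∈ realCone Φ ∧ y ≠ 0 ∧ spt y ⊆ spt x}
  have hT : ∃ k, ∃ y ∈ T, (spt y).card = k := ⟨_, x, ⟨hx, hx0, Finset.Subset.refl _⟩, rfl⟩
  obtain ⟨y, hyT, hyk⟩ := Nat.find_spec hT
  have hmin : ∀ y' ∈ T, (spt y).card ≤ (spt y').card := by
    intro y' hy'
    rw [hyk]
    exact Nat.find_min' hT ⟨y', hy', rfl⟩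
  -- integer point with the same support
  obtain ⟨z, hz, hzs⟩ := rational_point Φ y hyT.1
  let Z : ℕ → Prop := fun k => ∃ z : Fin n → ℤ, toReal z ∈ realCone Φ ∧ (∀ i, z i = 0 ↔ y i = 0) ∧
    (∑ i, z i).toNat = k
  have hZ : ∃ k, Z k := ⟨_, z, hz, hzs, rfl⟩
  obtain ⟨δ, hδ, hδs, hδk⟩ := Nat.find_spec hZ
  have hspt : spt (toReal δ) = spt y := by
    ext i
    rw [mem_spt, mem_spt]
    simp only [toReal, ne_eq, Int.cast_eq_zero]
    rw [hδs]
  have hδ0 : toReal δ ≠ 0 := by
    intro h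
    apply hyT.2.1
    funext i
    have : toReal δ i = 0 := by rw [h]; rfl
    simp only [toReal, Int.cast_eq_zero] at this
    exact (hδs i).1 this
  refine ⟨δ, ⟨⟨hδ, hδ0, ?_⟩, ?_⟩, ?_⟩
  · intro u hu v hv huv
    by_cases hu0 : u = 0
    · exact ⟨0, by simp [hu0]⟩
    · have hus : spt u ⊆ spt (toReal δ) := by
        intro i hi
        rw [mem_spt] at hi ⊢
        have h1 := (mem_realCone.1 hu).1 i
        have h2 := (mem_realCone.1 hv).1 i
        have h3 : u i + v i = toReal δ i := congrFun huv i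
        have h4 : 0 < u i := lt_of_le_of_ne h1 (Ne.symm hi)
        linarith
      obtain ⟨t, ht, h1, h2⟩ := max_mult hδ hu hu0 hus
      have h3 : toReal δ - t • u = 0 := by
        by_contra hne
        have h4 := hmin (toReal δ - t • u) ⟨h1, hne, (h2.subset.trans hspt.subset).trans hyT.2.2⟩
        have h5 := Finset.card_lt_card h2
        rw [hspt] at h5
        omega
      refine ⟨t⁻¹, ?_⟩
      rw [sub_eq_zero.1 h3, smul_smul, inv_mul_cancel₀ ht.ne', one_smul]
  · intro δ' t ht h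
    have hδ'C : toReal δ' ∈ realCone Φ := by rw [h]; exact realCone_smul ht.le hδ
    have hδ's : ∀ i, δ' i = 0 ↔ y i = 0 := by
      intro i
      rw [← hδs]
      have h1 : (δ' i : ℝ) = t * (δ i : ℝ) := congrFun h i
      constructor
      · intro h2
        rw [h2] at h1
        simp only [Int.cast_zero] at h1
        have := (mul_eq_zero.1 h1.symm).resolve_left ht.ne'
        exact_mod_cast this
      · intro h2
        rw [h2] at h1
        simp only [Int.cast_zero, mul_zero] at h1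
        exact_mod_cast h1
    have h3 : (∑ i, δ i).toNat ≤ (∑ i, δ' i).toNat := by
      rw [hδk]
      exact Nat.find_min' hZ ⟨δ', hδ'C, hδ's, rfl⟩
    have hnn : ∀ i, 0 ≤ δ i := fun i => by
      have := (mem_realCone.1 hδ).1 i
      simp only [toReal] at this
      exact_mod_cast this
    have hnn' : ∀ i, 0 ≤ δ' i := fun i => by
      have := (mem_realCone.1 hδ'C).1 i
      simp only [toReal] at this
      exact_mod_cast this
    have h4 : ∑ i, δ i ≤ ∑ i, δ' i := by
      have e1 : 0 ≤ ∑ i, δ i := Finset.sum_nonneg fun i _ => hnn i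
      have e2 : 0 ≤ ∑ i, δ' i := Finset.sum_nonneg fun i _ => hnn' i
      omega
    have h5 : (∑ i, (δ' i : ℝ)) = t * ∑ i, (δ i : ℝ) := by
      rw [Finset.mul_sum]
      exact Finset.sum_congr rfl fun i _ => congrFun h i
    have h6 : (∑ i, (δ i : ℝ)) ≤ ∑ i, (δ' i : ℝ) := by exact_mod_cast h4
    have h7 : 0 < ∑ i, (δ i : ℝ) := by
      obtain ⟨i, hi⟩ := Function.ne_iff.1 hδ0
      refine Finset.sum_pos' (fun j _ => by exact_mod_cast hnn j) ⟨i, Finset.mem_univ _, ?_⟩
      exact lt_of_le_of_ne (by exact_mod_cast hnn i) (Ne.symm hi)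
    rw [h5] at h6
    by_contra hlt
    push Not at hlt
    nlinarith
  · rw [hspt]; exact hyT.2.2

lemma CF_nonneg {δ : Fin n → ℤ} (hδ : δ ∈ CF Φ) (i : Fin n) : 0 ≤ δ i := by
  have := (mem_realCone.1 hδ.1.1).1 i
  simp only [toReal] at this
  exact_mod_cast this

lemma CF_inj {δ δ' : Fin n → ℤ} (hδ : δ ∈ CF Φ) (hδ' : δ' ∈ CF Φ)
    (h : spt (toReal δ) = spt (toReal δ')) : δ = δ' := by
  obtain ⟨t, ht, h1, h2⟩ := max_mult hδ.1.1 hδ'.1.1 hδ'.1.2.1 h.symm.subset
  obtain ⟨c, hc⟩ := hδ.1.2.2 (t • toReal δ') (realCone_smul ht.le hδ'.1.1) _ h1 (by simp)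
  have hc0 : c ≠ 0 := by
    intro h0
    rw [h0, zero_smul] at hc
    exact hδ'.1.2.1 ((smul_eq_zero.1 hc).resolve_left ht.ne')
  have h3 : toReal δ' = (t⁻¹ * c) • toReal δ := by
    rw [mul_smul, ← hc, smul_smul, inv_mul_cancel₀ ht.ne', one_smul]
  obtain ⟨i, hi⟩ := Function.ne_iff.1 hδ'.1.2.1
  have h4 : toReal δ' i = (t⁻¹ * c) * toReal δ i := congrFun h3 i
  have h5 : 0 < toReal δ' i := lt_of_le_of_ne ((mem_realCone.1 hδ'.1.1).1 i) (Ne.symm hi)
  have h6 : 0 ≤ toReal δ i := (mem_realCone.1 hδ.1.1).1 i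
  have h7 : 0 < t⁻¹ * c := by
    rw [h4] at h5
    by_contra hneg
    push Not at hneg
    nlinarith
  have h8 := hδ.2 δ' _ h7 h3
  have h9 : toReal δ = (t⁻¹ * c)⁻¹ • toReal δ' := by
    rw [h3, smul_smul, inv_mul_cancel₀ h7.ne', one_smul]
  have h10 := hδ'.2 δ _ (inv_pos.2 h7) h9
  have h11 : t⁻¹ * c = 1 := by
    apply le_antisymm _ h8
    rw [← one_div, le_div_iff₀ h7, one_mul] at h10
    exact h10
  rw [h11, one_smul] at h3
  funext i
  have := congrFun h3 i
  simp only [toReal] at this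
  exact_mod_cast this.symm

lemma CF_finite : (CF Φ).Finite := by
  apply Set.Finite.of_injOn (f := fun δ => spt (toReal δ)) (t := Set.univ)
  · intro _ _; trivial
  · intro δ hδ δ' hδ' h
    exact CF_inj hδ hδ' h
  · exact Set.finite_univ

/-- the cone is generated by `CF` -/
lemma cone_gen [Fintype (CF Φ)] (x : Fin n → ℝ) (hx : x ∈ realCone Φ) :
    ∃ l : CF Φ → ℝ, (∀ δ, 0 ≤ l δ) ∧ x = ∑ δ, l δ • toReal (δ : Fin n → ℤ) := by
  classical
  induction h : (spt x).card using Nat.strong_induction_on generalizing x with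
  | _ k ih =>
    by_cases hx0 : x = 0
    · exact ⟨0, fun δ => le_rfl, by simp [hx0]⟩
    · obtain ⟨δ, hδ, hs⟩ := exists_CF hx hx0
      obtain ⟨t, ht, h1, h2⟩ := max_mult hx hδ.1.1 hδ.1.2.1 hs
      obtain ⟨l, hl, hl'⟩ := ih _ (h ▸ Finset.card_lt_card h2) _ h1 rfl
      refine ⟨fun δ' => l δ' + if δ' = ⟨δ, hδ⟩ then t else 0, ?_, ?_⟩
      · intro δ'
        have := hl δ'
        beta_reduce
        split_ifs <;> linarith
      · simp only [add_smul, Finset.sum_add_distrib, ← hl', ite_smul, zero_smul,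
          Finset.sum_ite_eq', Finset.mem_univ, if_true]
        simp

lemma coset_neg {α : Fin r → ℤ} {β : Fin n → ℤ} (hβ : β ∈ solCoset Φ α) [Fintype (CF Φ)] (k : Fin n)
    (hk : β k < 0) : ∃ δ : CF Φ, 0 < (δ : Fin n → ℤ) k := by
  by_contra hno
  push Not at hno
  have hC : ∀ x ∈ realCone Φ, x k = 0 := by
    intro x hx
    obtain ⟨l, hl, hl'⟩ := cone_gen x hx
    rw [hl']
    simp only [Finset.sum_apply, Pi.smul_apply, smul_eq_mul]
    apply Finset.sum_eq_zero
    intro δ _
    have : (δ : Fin n → ℤ) k = 0 := le_antisymm (hno δ) (CF_nonneg δ.2 k)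
    simp [toReal, this]
  have hnat : ∀ η ∈ natSol Φ 0, η k = 0 := by
    intro η hη
    have h1 : toReal η ∈ realCone Φ := by
      rw [mem_realCone]
      refine ⟨fun i => by simpa [toReal] using hη.1 i, fun a => ?_⟩
      have h2 := congrFun hη.2 a
      simp only [Matrix.mulVec, dotProduct, Pi.zero_apply] at h2
      have h3 := congrArg (fun z : ℤ => (z : ℝ)) h2
      push_cast at h3
      exact h3
    have := hC _ h1
    simp only [toReal] at this
    exact_mod_cast this
  obtain ⟨γ, hγ, ε, hε, rfl⟩ := hβ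
  have hε0 : ε k = 0 := by
    have hle : AddSubgroup.closure (natSol Φ 0) ≤ (Pi.evalAddMonoidHom (fun _ : Fin n => ℤ) k).ker := by
      rw [AddSubgroup.closure_le]
      intro η hη
      exact hnat η hη
    exact hle hε
  have := hγ.1 k
  simp only [Pi.add_apply, hε0, add_zero] at hk
  omega

end Pool.Agent.H36
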