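import Pool.Agent.H36.StanleyPoly

set_option autoImplicit false

open scoped Matrix Topology unitInterval
open Set ContinuousMap

namespace Pool.Agent.H36

variable {r n : ℕ} {Φ : Matrix (Fin r) (Fin n) ℤ}
  {P : Set (Fin n → ℝ)} {x₀ : Fin n → ℝ} {g : (Fin n → ℝ) →ₗ[ℝ] ℝ}

/-- coordinate functionals evaluated at `CF` -/
def evec (Φ : Matrix (Fin r) (Fin n) ℤ) : Fin n → CF Φ → ℝ :=
  fun k δ => toReal (δ : Fin n → ℤ) k

/-- negative support -/
noncomputable def negs (β : Fin n → ℤ) : Finset (Fin n) := by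
  classical exact Finset.univ.filter (fun k => β k < 0)

lemma mem_negs {β : Fin n → ℤ} {k : Fin n} : k ∈ negs β ↔ β k < 0 := by
  classical
  simp [negs]

lemma evec_mem (k : Fin n) : evec Φ k ∈ LinearMap.range (pairing Φ) := by
  classical
  refine ⟨Pi.single k 1, ?_⟩
  funext δ
  rw [pairing_apply]
  simp [evec]

lemma evec_nonneg (k : Fin n) (δ : CF Φ) : 0 ≤ evec Φ k δ := by
  have := CF_nonneg δ.2 k
  simp only [evec, toReal]
  exact_mod_cast this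

lemma evec_pos {k : Fin n} {δ : CF Φ} : 0 < evec Φ k δ ↔ 0 < (δ : Fin n → ℤ) k := by
  simp [evec, toReal]

lemma Delta_eq [Fintype (CF Φ)] (β : Fin n → ℤ) :
    Delta Φ β = {k : CF Φ → ℝ | k ∈ BCone (evec Φ) (negs β) ∧ k ≠ 0 ∧ ∑ δ, k δ = 1} := by
  ext w
  simp only [Delta, deltaFaces, Set.mem_ofPred_eq, BCone, Blocked, finsum_eq_sum_of_fintype,
    ne_eq, not_not]
  constructor
  · rintro ⟨h1, h2, h3⟩
    refine ⟨⟨h1, fun k hk => ?_⟩, ?_, h2⟩
    · obtain ⟨δ, hδ, hδ'⟩ := h3 k (mem_negs.1 hk)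
      exact ⟨δ, hδ, evec_pos.2 hδ'⟩
    · rintro rfl
      simp at h2
  · rintro ⟨⟨h1, h3⟩, h4, h2⟩
    refine ⟨h1, h2, fun k hk => ?_⟩
    obtain ⟨δ, hδ, hδ'⟩ := h3 k (mem_negs.2 hk)
    exact ⟨δ, hδ, evec_pos.1 hδ'⟩

lemma sum_pos_of [Fintype (CF Φ)] {p l : CF Φ → ℝ} (hp : ∀ δ, 0 ≤ p δ) (hp0 : p ≠ 0)
    (hl : ∀ δ, 0 < l δ) : 0 < ∑ δ, l δ * p δ := by
  obtain ⟨δ, hδ⟩ := Function.ne_iff.1 hp0
  refine Finset.sum_pos' (fun δ' _ => mul_nonneg (hl δ').le (hp δ')) ⟨δ, Finset.mem_univ _, ?_⟩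
  exact mul_pos (hl δ) (lt_of_le_of_ne (hp δ) (Ne.symm hδ))

lemma delta_equiv [Fintype (CF Φ)] (β : Fin n → ℤ)
    (hne : ∀ k ∈ negs β, ∃ δ, 0 < evec Φ k δ) :
    Nonempty (↥(BCone (evec Φ) (negs β) \ {0}) ≃ₕ Delta Φ β) := by
  rw [Delta_eq]
  refine cone_normalize (isScal_BCone _ _ hne) (fun p => ∑ δ, p δ)
    (Continuous.continuousOn (by fun_prop)) ?_ ?_
  · intro p hp hp0
    have := sum_pos_of (l := fun _ => 1) hp.1 hp0 (fun _ => one_pos)
    simpa using this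
  · intro c _ p _
    simp [Finset.mul_sum]

lemma Gamma_iff [Fintype (CF Φ)] (S : Setup Φ P x₀ g) (β : Fin n → ℤ) (y : Fin n → ℝ) :
    y ∈ Gamma P x₀ β ↔ y ∈ vectorSpan ℝ P ∧ Psi Φ x₀ g (y, 1) ∈ BCone (evec Φ) (negs β) := by
  constructor
  · rintro ⟨F, hF, hFs, ⟨hyW, hyP⟩, hyF⟩
    have hδ0 : ∀ δ : CF Φ, 0 ≤ Psi Φ x₀ g (y, 1) δ := by
      intro δ
      have hδ := S.gCF δ.2
      have h1 := hyP _ (S.vert δ.2)
      have h2 : toReal (δ : Fin n → ℤ) - g (toReal (δ : Fin n → ℤ)) • x₀ =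
          g (toReal (δ : Fin n → ℤ)) •
            ((g (toReal (δ : Fin n → ℤ)))⁻¹ • toReal (δ : Fin n → ℤ) - x₀) := by
        rw [smul_sub, smul_smul, mul_inv_cancel₀ hδ.ne', one_smul]
      rw [Psi_apply, h2, dotProduct_smul, one_mul, smul_eq_mul]
      nlinarith
    refine ⟨hyW, hδ0, ?_⟩
    intro k hk
    obtain ⟨x, hxF, hxk⟩ := hFs k (mem_negs.1 hk)
    have hxP : x ∈ P := hF.subset hxF
    obtain ⟨l, hl, hl', h1⟩ := S.value y 1 hxP
    rw [hyF x hxF, sub_self] at h1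
    have h2 : ∀ δ, l δ * Psi Φ x₀ g (y, 1) δ = 0 := by
      intro δ
      exact (Finset.sum_eq_zero_iff_of_nonneg
        (fun δ _ => mul_nonneg (hl δ) (hδ0 δ))).1 h1 δ (Finset.mem_univ _)
    have h3 : 0 < ∑ δ : CF Φ, l δ * toReal (δ : Fin n → ℤ) k := by
      have := congrFun hl' k
      rw [Finset.sum_apply] at this
      simp only [Pi.smul_apply, smul_eq_mul] at this
      rw [← this]; exact hxk
    obtain ⟨δ, hδ⟩ : ∃ δ : CF Φ, 0 < l δ * toReal (δ : Fin n → ℤ) k := by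
      by_contra hno
      push Not at hno
      exact absurd h3 (not_lt.2 (Finset.sum_nonpos fun δ _ => hno δ))
    have hlδ : l δ ≠ 0 := by
      intro h0; rw [h0, zero_mul] at hδ; exact lt_irrefl _ hδ
    refine ⟨δ, (mul_eq_zero.1 (h2 δ)).resolve_left hlδ, ?_⟩
    exact (pos_iff_pos_of_mul_pos hδ).1 (lt_of_le_of_ne (hl δ) (Ne.symm hlδ))
  · rintro ⟨hyW, hy0, hyB⟩
    have hle : ∀ x ∈ P, y ⬝ᵥ (x - x₀) ≤ 1 := by
      intro x hx
      obtain ⟨l, hl, hl', h1⟩ := S.value y 1 hx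
      have : 0 ≤ ∑ δ, l δ * Psi Φ x₀ g (y, 1) δ :=
        Finset.sum_nonneg fun δ _ => mul_nonneg (hl δ) (hy0 δ)
      rw [h1] at this
      linarith
    refine ⟨{x | x ∈ P ∧ y ⬝ᵥ (x - x₀) = 1}, ?_, ?_, ⟨hyW, hle⟩, fun x hx => hx.2⟩
    · rintro ⟨x1, hx1P, hx1⟩
      let L : (Fin n → ℝ) →ₗ[ℝ] ℝ :=
        { toFun := fun x => y ⬝ᵥ x
          map_add' := fun a b => dotProduct_add _ _ _
          map_smul' := fun c a => by simp [dotProduct_smul] }
      refine ⟨LinearMap.toContinuousLinearMap L, ?_⟩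
      ext x
      simp only [Set.mem_ofPred_eq]
      refine and_congr_right fun hxP => ?_
      have hL : ∀ z, LinearMap.toContinuousLinearMap L z = y ⬝ᵥ z := fun z => rfl
      simp only [hL]
      rw [dotProduct_sub] at hx1 ⊢
      constructor
      · intro hx x' hx'
        have := hle x' hx'
        rw [dotProduct_sub] at this
        linarith
      · intro hx
        have h1 := hx x1 hx1P
        have h2 := hle x hxP
        rw [dotProduct_sub] at h2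
        linarith
    · intro k hk
      obtain ⟨δ, hδ, hδk⟩ := hyB k (mem_negs.2 hk)
      have hgδ := S.gCF δ.2
      refine ⟨(g (toReal (δ : Fin n → ℤ)))⁻¹ • toReal (δ : Fin n → ℤ), ⟨S.vert δ.2, ?_⟩, ?_⟩
      · rw [Psi_apply] at hδ
        have h2 : toReal (δ : Fin n → ℤ) - g (toReal (δ : Fin n → ℤ)) • x₀ =
            g (toReal (δ : Fin n → ℤ)) •
              ((g (toReal (δ : Fin n → ℤ)))⁻¹ • toReal (δ : Fin n → ℤ) - x₀) := by
          rw [smul_sub, smul_smul, mul_inv_cancel₀ hgδ.ne', one_smul]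
        rw [h2, dotProduct_smul, one_mul, smul_eq_mul] at hδ
        have h3 : g (toReal (δ : Fin n → ℤ)) *
            (1 - y ⬝ᵥ ((g (toReal (δ : Fin n → ℤ)))⁻¹ • toReal (δ : Fin n → ℤ) - x₀)) = 0 := by
          linarith
        have h4 := (mul_eq_zero.1 h3).resolve_left hgδ.ne'
        linarith
      · simp only [Pi.smul_apply, smul_eq_mul]
        exact mul_pos (inv_pos.2 hgδ) hδk

lemma gamma_equiv [Fintype (CF Φ)] (S : Setup Φ P x₀ g) (β : Fin n → ℤ) :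
    Nonempty (↥(BConeM (evec Φ) (negs β) (LinearMap.range (pairing Φ)) \ {0}) ≃ₕ
      Gamma P x₀ β) := by
  obtain ⟨A, hA⟩ := (PsiW Φ P x₀ g).exists_leftInverse_of_injective
    (LinearMap.ker_eq_bot.2 S.PsiW_inj)
  have hAw : ∀ w, A (PsiW Φ P x₀ g w) = w := fun w => congrArg (fun f => f w) hA
  have hAc : Continuous A := A.continuous_of_finiteDimensional
  have hΨc : Continuous (Psi Φ x₀ g) := (Psi Φ x₀ g).continuous_of_finiteDimensional
  have hAp : ∀ p ∈ LinearMap.range (pairing Φ), PsiW Φ P x₀ g (A p) = p := by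
    intro p hp
    rw [← S.PsiW_range] at hp
    obtain ⟨w, rfl⟩ := hp
    rw [hAw]
  obtain ⟨l, hl, hl'⟩ := S.pos_comb
  have hg0 : g x₀ = 1 := by
    have := S.x0P
    rw [S.hP] at this
    exact this.2
  set B := BConeM (evec Φ) (negs β) (LinearMap.range (pairing Φ)) with hB
  have ht : ∀ p ∈ B \ {0}, 0 < (A p).2 := by
    intro p hp
    have h1 := sum_pos_of (l := l) hp.1.2.1 hp.2 hl
    have h2 := hAp p hp.1.1
    have h3 := Psi_comb (Φ := Φ) (g := g) (x₀ := x₀) ((A p).1 : Fin n → ℝ) (A p).2 l x₀ hl'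
    have h4 : Psi Φ x₀ g (((A p).1 : Fin n → ℝ), (A p).2) = p := h2
    rw [h4, hg0] at h3
    rw [h3] at h1
    simpa using h1
  have hscale : ∀ p ∈ B \ {0},
      Psi Φ x₀ g ((A p).2⁻¹ • ((A p).1 : Fin n → ℝ), 1) = (A p).2⁻¹ • p := by
    intro p hp
    have h2 : Psi Φ x₀ g (((A p).1 : Fin n → ℝ), (A p).2) = p := hAp p hp.1.1
    have h3 : (((A p).2⁻¹ • ((A p).1 : Fin n → ℝ), 1) : (Fin n → ℝ) × ℝ) =
        (A p).2⁻¹ • (((A p).1 : Fin n → ℝ), (A p).2) := by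
      rw [Prod.smul_mk, smul_eq_mul, inv_mul_cancel₀ (ht p hp).ne']
    rw [h3, map_smul, h2]
  have hAc1 : Continuous (fun p => ((A p).1 : Fin n → ℝ)) :=
    continuous_subtype_val.comp (continuous_fst.comp hAc)
  have hAc2 : Continuous (fun p => (A p).2) := continuous_snd.comp hAc
  have hinv : ContinuousOn (fun p => (A p).2⁻¹) (B \ {0}) :=
    hAc2.continuousOn.inv₀ fun p hp => (ht p hp).ne'
  refine hEquiv_of _ _ (fun p => (A p).2⁻¹ • ((A p).1 : Fin n → ℝ)) (fun y => Psi Φ x₀ g (y, 1))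
    (hinv.smul hAc1.continuousOn)
    (hΨc.comp (continuous_id.prodMk continuous_const)).continuousOn ?_ ?_
    (fun s p => ((1 - s) * (A p).2⁻¹ + s) • p) ?_ ?_ ?_ ?_ (fun s y => y) continuousOn_snd
    (fun _ _ _ h => h) ?_ (fun _ _ => rfl)
  · intro p hp
    rw [Gamma_iff S]
    refine ⟨Submodule.smul_mem _ _ (A p).1.2, ?_⟩
    rw [hscale p hp]
    have := ht p hp
    exact ⟨fun δ => mul_nonneg (by positivity) (hp.1.2.1 δ), blocked_smul _ hp.1.2.2⟩
  · intro y hy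
    rw [Gamma_iff S] at hy
    refine ⟨⟨?_, hy.2.1, hy.2.2⟩, ?_⟩
    · rw [← S.PsiW_range]
      exact ⟨(⟨y, hy.1⟩, 1), rfl⟩
    · intro h0
      have h1 : PsiW Φ P x₀ g (⟨y, hy.1⟩, 1) = 0 := h0
      have h2 := S.PsiW_inj (h1.trans (map_zero _).symm)
      have h3 := congrArg Prod.snd h2
      simp at h3
  · have c1 : ContinuousOn (fun z : ℝ × (CF Φ → ℝ) => (A z.2).2⁻¹) (Icc 0 1 ×ˢ (B \ {0})) :=
      hinv.comp continuousOn_snd (fun z hz => hz.2)
    have c2 : ContinuousOn (fun z : ℝ × (CF Φ → ℝ) => 1 - z.1) (Icc 0 1 ×ˢ (B \ {0})) := by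
      fun_prop
    exact ((c2.mul c1).add continuousOn_fst).smul continuousOn_snd
  · intro s hs p hp
    have hp' := ht p hp
    have h1 : 0 < (1 - s) * (A p).2⁻¹ + s := by
      have := cc_pos hs.1 hs.2 (inv_pos.2 hp') one_pos
      simpa using this
    refine ⟨⟨Submodule.smul_mem _ _ hp.1.1, fun δ => mul_nonneg h1.le (hp.1.2.1 δ),
      blocked_smul _ hp.1.2.2⟩, smul_ne_zero h1.ne' hp.2⟩
  · intro p hp
    beta_reduce
    rw [hscale p hp]
    simp
  · intro p hp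
    simp
  · intro y hy
    rw [Gamma_iff S] at hy
    have h1 := hAw (⟨y, hy.1⟩, 1)
    have h2 : A (Psi Φ x₀ g (y, 1)) = (⟨y, hy.1⟩, 1) := h1
    beta_reduce
    rw [h2]
    simp

theorem stanley_main {α : Fin r → ℤ} (β : Fin n → ℤ) (hβ : β ∈ solCoset Φ α)
    (hC : realCone Φ ≠ {0}) (h : (Fin n → ℝ) →ₗ[ℝ] ℝ) (c : ℝ)
    (hmeet : (intrinsicInterior ℝ (realCone Φ) ∩ {x | h x = c}).Nonempty)
    (hb : Bornology.IsBounded (realCone Φ ∩ {x | h x = c}))
    (x₀ : Fin n → ℝ) (hx₀ : x₀ ∈ intrinsicInterior ℝ (realCone Φ ∩ {x | h x = c})) :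
    (CF Φ).Finite ∧
    Module.finrank ℝ (vectorSpan ℝ (realCone Φ ∩ {x | h x = c})) + 1 ≤ (CF Φ).ncard ∧
    Nonempty (Delta Φ β ≃ₕ
      iterSusp ((CF Φ).ncard - (Module.finrank ℝ (vectorSpan ℝ (realCone Φ ∩ {x | h x = c})) + 1))
        (TopCat.of (Gamma (realCone Φ ∩ {x | h x = c}) x₀ β))) := by
  classical
  have hfin : (CF Φ).Finite := CF_finite
  let _ : Fintype (CF Φ) := hfin.fintype
  obtain ⟨g, hP, hpos⟩ := normalise hC h c hmeet hb
  have S : Setup Φ (realCone Φ ∩ {x | h x = c}) x₀ g := ⟨hP, hpos, hx₀⟩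
  have hcard : (CF Φ).ncard = Fintype.card (CF Φ) := by
    rw [← Nat.card_coe_set_eq, Nat.card_eq_fintype_card]
  have hle : Module.finrank ℝ (vectorSpan ℝ (realCone Φ ∩ {x | h x = c})) + 1 ≤ (CF Φ).ncard := by
    rw [← S.finrank_M, hcard]
    have := Submodule.finrank_le (LinearMap.range (pairing Φ))
    rwa [Module.finrank_fintype_fun_eq_card] at this
  refine ⟨hfin, hle, ?_⟩
  set m := (CF Φ).ncard - (Module.finrank ℝ (vectorSpan ℝ (realCone Φ ∩ {x | h x = c})) + 1) with hm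
  have hne : ∀ k ∈ negs β, ∃ δ, 0 < evec Φ k δ := by
    intro k hk
    obtain ⟨δ, hδ⟩ := coset_neg hβ k (mem_negs.1 hk)
    exact ⟨δ, evec_pos.2 hδ⟩
  -- the interior vector
  have hu : ∀ δ : CF Φ, 1 ≤ (∑ k, evec Φ k) δ := by
    intro δ
    rw [Finset.sum_apply]
    obtain ⟨i, hi⟩ := Function.ne_iff.1 δ.2.1.2.1
    have h1 : (1:ℤ) ≤ (δ : Fin n → ℤ) i := by
      have h2 := CF_nonneg δ.2 i
      have h3 : (δ : Fin n → ℤ) i ≠ 0 := by
        intro h0; apply hi; simp [toReal, h0]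
      omega
    have h4 : (1:ℝ) ≤ evec Φ i δ := by
      simp only [evec, toReal]; exact_mod_cast h1
    exact h4.trans (Finset.single_le_sum (f := fun k => evec Φ k δ)
      (fun k _ => evec_nonneg k δ) (Finset.mem_univ i))
  obtain ⟨e1⟩ := delta_equiv (Φ := Φ) β hne
  obtain ⟨e2⟩ := core (evec Φ) (LinearMap.range (pairing Φ)) evec_nonneg (negs β) hne
    (fun k _ => evec_mem k) (∑ k, evec Φ k) (Submodule.sum_mem _ fun k _ => evec_mem k) hu m
    (by rw [S.finrank_M, hm]; omega)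
  obtain ⟨e3⟩ := iterSusp_cone m (isScal_BConeM (evec Φ) (negs β) hne
    (LinearMap.range (pairing Φ)))
  obtain ⟨e4⟩ := iterSusp_congr m (X := TopCat.of ↥(BConeM (evec Φ) (negs β)
    (LinearMap.range (pairing Φ)) \ {0})) (Y := TopCat.of (Gamma (realCone Φ ∩ {x | h x = c}) x₀ β))
    (gamma_equiv S β)
  exact ⟨((e1.symm.trans e2).trans e3.symm).trans e4⟩

end Pool.Agent.H36
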