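import Pool.Agent.H36.StanleyExt
import Pool.Agent.H36.StanleyCore

set_option autoImplicit false

open scoped Matrix Topology
open Set

namespace Pool.Agent.H36

variable {r n : ℕ} {Φ : Matrix (Fin r) (Fin n) ℤ}

lemma intrinsic_push {S : Set (Fin n → ℝ)} {x v : Fin n → ℝ} (hx : x ∈ intrinsicInterior ℝ S)
    (hv : v ∈ S) : ∃ ε : ℝ, 0 < ε ∧ x + ε • (x - v) ∈ S := by
  rw [mem_intrinsicInterior] at hx
  obtain ⟨y, hy, rfl⟩ := hx
  have hvA : v ∈ affineSpan ℝ S := subset_affineSpan ℝ S hv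
  have hmem : ∀ t : ℝ, (y : Fin n → ℝ) + t • ((y : Fin n → ℝ) - v) ∈ affineSpan ℝ S := by
    intro t
    have := AffineMap.lineMap_mem (-t) y.2 hvA
    rw [AffineMap.lineMap_apply] at this
    convert this using 1
    simp only [vsub_eq_sub, vadd_eq_add]
    module
  let γ : ℝ → affineSpan ℝ S := fun t => ⟨_, hmem t⟩
  have hγ : Continuous γ := Continuous.subtype_mk (by fun_prop) _
  have hγ0 : γ 0 = y := Subtype.ext (by simp [γ])
  have hopen : IsOpen (γ ⁻¹' (interior ((↑) ⁻¹' S : Set (affineSpan ℝ S)))) :=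
    isOpen_interior.preimage hγ
  have h0 : (0:ℝ) ∈ γ ⁻¹' (interior ((↑) ⁻¹' S : Set (affineSpan ℝ S))) := by
    rw [Set.mem_preimage, hγ0]; exact hy
  obtain ⟨ε, hε, hball⟩ := Metric.isOpen_iff.1 hopen 0 h0
  refine ⟨ε / 2, by positivity, ?_⟩
  have : ε / 2 ∈ Metric.ball (0:ℝ) ε := by
    rw [Metric.mem_ball, Real.dist_eq, sub_zero, abs_of_pos (by positivity)]
    linarith
  have h1 : γ (ε / 2) ∈ interior ((↑) ⁻¹' S : Set (affineSpan ℝ S)) := hball this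
  have h2 := interior_subset h1
  exact h2

lemma unbdd {P : Set (Fin n → ℝ)} {x v : Fin n → ℝ} (hv : v ≠ 0) (h : ∀ t : ℝ, 0 ≤ t → x + t • v ∈ P) :
    ¬ Bornology.IsBounded P := by
  intro hb
  obtain ⟨R, hR⟩ := hb.exists_norm_le
  have hvn : 0 < ‖v‖ := norm_pos_iff.2 hv
  have h1 := hR _ (h ((|R| + ‖x‖ + 1) / ‖v‖) (by positivity))
  have h2 : ‖((|R| + ‖x‖ + 1) / ‖v‖) • v‖ = |R| + ‖x‖ + 1 := by
    rw [norm_smul, Real.norm_eq_abs, abs_of_nonneg (by positivity)]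
    field_simp
  have h3 : ‖((|R| + ‖x‖ + 1) / ‖v‖) • v‖ ≤ ‖x + ((|R| + ‖x‖ + 1) / ‖v‖) • v‖ + ‖x‖ := by
    have := norm_sub_le (x + ((|R| + ‖x‖ + 1) / ‖v‖) • v) x
    simpa using this
  rw [h2] at h3
  have := le_abs_self R
  linarith

/-- normalisation of the hyperplane -/
lemma normalise (hC : realCone Φ ≠ {0}) (h : (Fin n → ℝ) →ₗ[ℝ] ℝ) (c : ℝ)
    (hmeet : (intrinsicInterior ℝ (realCone Φ) ∩ {x | h x = c}).Nonempty)
    (hb : Bornology.IsBounded (realCone Φ ∩ {x | h x = c})) :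
    ∃ g : (Fin n → ℝ) →ₗ[ℝ] ℝ, realCone Φ ∩ {x | h x = c} = realCone Φ ∩ {x | g x = 1} ∧
      ∀ v ∈ realCone Φ, v ≠ 0 → 0 < g v := by
  obtain ⟨x, hxi, hxc⟩ := hmeet
  have hxC : x ∈ realCone Φ := intrinsicInterior_subset hxi
  simp only [Set.mem_ofPred_eq] at hxc
  have hnn : ∀ {v : Fin n → ℝ}, v ∈ realCone Φ → ∀ i, 0 ≤ v i := fun hv => (mem_realCone.1 hv).1
  obtain ⟨w, hw, hw0⟩ : ∃ w ∈ realCone Φ, w ≠ 0 := by
    by_contra hno
    push Not at hno
    apply hC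
    ext v
    constructor
    · intro hv; exact hno v hv
    · rintro rfl; exact realCone_zero
  have hx0 : x ≠ 0 := by
    rintro rfl
    obtain ⟨ε, hε, hmem⟩ := intrinsic_push hxi hw
    apply hw0
    funext i
    have h1 := hnn hmem i
    have h2 := hnn hw i
    simp only [zero_add, zero_sub, smul_neg, Pi.neg_apply, Pi.smul_apply, smul_eq_mul] at h1
    have h3 : ε * w i ≤ 0 := by linarith
    have h4 : w i ≤ 0 := by
      by_contra h5
      push Not at h5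
      have := mul_pos hε h5
      linarith
    exact le_antisymm h4 h2
  have hc : c ≠ 0 := by
    rintro rfl
    refine unbdd (x := x) hx0 (fun t ht => ?_) hb
    refine ⟨realCone_add hxC (realCone_smul ht hxC), ?_⟩
    simp [hxc]
  have hker : ∀ v ∈ realCone Φ, v ≠ 0 → h v ≠ 0 := by
    intro v hv hv0 hhv
    refine unbdd (x := x) hv0 (fun t ht => ?_) hb
    refine ⟨realCone_add hxC (realCone_smul ht hv), ?_⟩
    simp [hxc, hhv]
  refine ⟨c⁻¹ • h, ?_, ?_⟩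
  · ext v
    simp only [Set.mem_inter_iff, Set.mem_ofPred_eq, LinearMap.smul_apply, smul_eq_mul]
    refine and_congr_right fun _ => ?_
    constructor
    · intro hh; rw [hh]; field_simp
    · intro hh; field_simp at hh; exact hh
  · intro v hv hv0
    by_contra hneg
    push Not at hneg
    have hne := hker v hv hv0
    simp only [LinearMap.smul_apply, smul_eq_mul] at hneg
    have hlt : c⁻¹ * h v < 0 := lt_of_le_of_ne hneg (mul_ne_zero (inv_ne_zero hc) hne)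
    set a := -(c⁻¹ * h v) with ha
    have ha0 : 0 < a := by rw [ha]; linarith
    have hw1 : x + a⁻¹ • v ∈ realCone Φ := realCone_add hxC (realCone_smul (by positivity) hv)
    have hw2 : x + a⁻¹ • v ≠ 0 := by
      intro h0
      apply hv0
      funext i
      have h1 := congrFun h0 i
      have h2 := hnn hxC i
      have h3 := hnn hv i
      simp only [Pi.add_apply, Pi.smul_apply, smul_eq_mul, Pi.zero_apply] at h1
      have h4 : 0 ≤ a⁻¹ * v i := by positivity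
      have h5 : a⁻¹ * v i = 0 := by linarith
      exact (mul_eq_zero.1 h5).resolve_left (by positivity)
    apply hker _ hw1 hw2
    rw [map_add, map_smul, hxc, smul_eq_mul]
    have h6 : h v = -(a * c) := by rw [ha]; field_simp
    rw [h6]
    field_simp
    ring

/-- Data of the normalised situation -/
structure Setup (Φ : Matrix (Fin r) (Fin n) ℤ) (P : Set (Fin n → ℝ)) (x₀ : Fin n → ℝ)
    (g : (Fin n → ℝ) →ₗ[ℝ] ℝ) : Prop where
  hP : P = realCone Φ ∩ {x | g x = 1}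
  hpos : ∀ v ∈ realCone Φ, v ≠ 0 → 0 < g v
  hx₀ : x₀ ∈ intrinsicInterior ℝ P

section
variable {P : Set (Fin n → ℝ)} {x₀ : Fin n → ℝ} {g : (Fin n → ℝ) →ₗ[ℝ] ℝ}

lemma Setup.gCF (S : Setup Φ P x₀ g) {δ : Fin n → ℤ} (hδ : δ ∈ CF Φ) : 0 < g (toReal δ) :=
  S.hpos _ hδ.1.1 hδ.1.2.1

lemma Setup.vert (S : Setup Φ P x₀ g) {δ : Fin n → ℤ} (hδ : δ ∈ CF Φ) :
    (g (toReal δ))⁻¹ • toReal δ ∈ P := by
  rw [S.hP]
  have := S.gCF hδ
  refine ⟨realCone_smul (by positivity) hδ.1.1, ?_⟩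
  simp only [Set.mem_ofPred_eq, map_smul, smul_eq_mul]
  field_simp

lemma Setup.x0P (S : Setup Φ P x₀ g) : x₀ ∈ P := intrinsicInterior_subset S.hx₀

lemma Setup.convex (S : Setup Φ P x₀ g) {x y : Fin n → ℝ} (hx : x ∈ P) (hy : y ∈ P) {a b : ℝ}
    (ha : 0 ≤ a) (hb : 0 ≤ b) (hab : a + b = 1) : a • x + b • y ∈ P := by
  rw [S.hP] at *
  refine ⟨realCone_add (realCone_smul ha hx.1) (realCone_smul hb hy.1), ?_⟩
  have h1 : g x = 1 := hx.2
  have h2 : g y = 1 := hy.2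
  simp only [Set.mem_ofPred_eq, map_add, map_smul, smul_eq_mul, h1, h2]
  linarith

/-- `x₀` is a strictly positive combination of the elements of `CF`. -/
lemma Setup.pos_comb [Fintype (CF Φ)] (S : Setup Φ P x₀ g) :
    ∃ l : CF Φ → ℝ, (∀ δ, 0 < l δ) ∧ x₀ = ∑ δ, l δ • toReal (δ : Fin n → ℤ) := by
  classical
  -- the sum b of all the δ, normalised
  set b : Fin n → ℝ := ∑ δ : CF Φ, toReal (δ : Fin n → ℤ) with hb
  have hbC : b ∈ realCone Φ := realCone_sum _ _ fun δ _ => δ.2.1.1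
  have hx0P := S.x0P
  have hx0 : x₀ ∈ realCone Φ ∧ g x₀ = 1 := by
    have := S.x0P; rw [S.hP] at this; exact this
  have hx00 : x₀ ≠ 0 := by
    intro h
    have := hx0.2
    rw [h] at this
    simp at this
  obtain ⟨δ0, hδ0, _⟩ := exists_CF hx0.1 hx00
  have hgb : 0 < g b := by
    rw [hb, map_sum]
    exact Finset.sum_pos (fun δ _ => S.gCF δ.2) ⟨⟨δ0, hδ0⟩, Finset.mem_univ _⟩
  have hbP : (g b)⁻¹ • b ∈ P := by
    rw [S.hP]
    refine ⟨realCone_smul (by positivity) hbC, ?_⟩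
    simp only [Set.mem_ofPred_eq, map_smul, smul_eq_mul]
    field_simp
  obtain ⟨ε, hε, hmem⟩ := intrinsic_push S.hx₀ hbP
  rw [S.hP] at hmem
  obtain ⟨l, hl, hl'⟩ := cone_gen _ hmem.1
  refine ⟨fun δ => (1 + ε)⁻¹ * (l δ + ε * (g b)⁻¹), fun δ => ?_, ?_⟩
  · have := hl δ
    positivity
  · have h1 : x₀ = (1 + ε)⁻¹ • ((x₀ + ε • (x₀ - (g b)⁻¹ • b)) + (ε * (g b)⁻¹) • b) := by
      have : (1 + ε) ≠ 0 := by positivity
      rw [show (x₀ + ε • (x₀ - (g b)⁻¹ • b)) + (ε * (g b)⁻¹) • b = (1 + ε) • x₀ by module,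
        smul_smul, inv_mul_cancel₀ this, one_smul]
    rw [h1, hl', hb, Finset.smul_sum, ← Finset.sum_add_distrib, Finset.smul_sum]
    apply Finset.sum_congr rfl
    intro δ _
    module

/-- pairing map `z ↦ (z · δ)_δ` -/
noncomputable def pairing (Φ : Matrix (Fin r) (Fin n) ℤ) : (Fin n → ℝ) →ₗ[ℝ] (CF Φ → ℝ) where
  toFun z δ := z ⬝ᵥ toReal (δ : Fin n → ℤ)
  map_add' z w := by funext δ; simp [add_dotProduct]
  map_smul' c z := by funext δ; simp [smul_dotProduct]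

lemma pairing_apply (z : Fin n → ℝ) (δ : CF Φ) : pairing Φ z δ = z ⬝ᵥ toReal (δ : Fin n → ℤ) := rfl

/-- the functional `η_{y,t}` evaluated at the vertices -/
noncomputable def Psi (Φ : Matrix (Fin r) (Fin n) ℤ) (x₀ : Fin n → ℝ) (g : (Fin n → ℝ) →ₗ[ℝ] ℝ) :
    ((Fin n → ℝ) × ℝ) →ₗ[ℝ] (CF Φ → ℝ) where
  toFun w δ := w.2 * g (toReal (δ : Fin n → ℤ)) -
    w.1 ⬝ᵥ (toReal (δ : Fin n → ℤ) - g (toReal (δ : Fin n → ℤ)) • x₀)
  map_add' z w := by funext δ; simp [add_dotProduct]; ring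
  map_smul' c z := by funext δ; simp [smul_dotProduct]; ring

lemma Psi_apply (y : Fin n → ℝ) (t : ℝ) (δ : CF Φ) : Psi Φ x₀ g (y, t) δ =
    t * g (toReal (δ : Fin n → ℤ)) -
    y ⬝ᵥ (toReal (δ : Fin n → ℤ) - g (toReal (δ : Fin n → ℤ)) • x₀) := rfl

/-- combination formula -/
lemma Psi_comb [Fintype (CF Φ)] (y : Fin n → ℝ) (t : ℝ) (l : CF Φ → ℝ) (x : Fin n → ℝ)
    (hx : x = ∑ δ, l δ • toReal (δ : Fin n → ℤ)) :
    ∑ δ, l δ * Psi Φ x₀ g (y, t) δ = t * g x - y ⬝ᵥ (x - g x • x₀) := by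
  have h1 : g x = ∑ δ, l δ * g (toReal (δ : Fin n → ℤ)) := by
    rw [hx, map_sum]; simp
  have h2 : y ⬝ᵥ x = ∑ δ, l δ * (y ⬝ᵥ toReal (δ : Fin n → ℤ)) := by
    rw [hx, dotProduct_sum]; simp [dotProduct_smul]
  rw [dotProduct_sub, dotProduct_smul, h2, smul_eq_mul]
  simp only [Psi_apply, dotProduct_sub, dotProduct_smul, smul_eq_mul]
  rw [h1, Finset.mul_sum, Finset.sum_mul, ← Finset.sum_sub_distrib, ← Finset.sum_sub_distrib]
  apply Finset.sum_congr rfl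
  intro δ _
  ring

lemma Psi_mem (w : (Fin n → ℝ) × ℝ) : Psi Φ x₀ g w ∈ LinearMap.range (pairing Φ) := by
  classical
  obtain ⟨y, t⟩ := w
  -- represent g by a vector
  let zg : Fin n → ℝ := fun i => g (Pi.single i 1)
  have hzg : ∀ x, g x = zg ⬝ᵥ x := by
    intro x
    have h := congrArg g (pi_eq_sum_univ' x)
    rw [h, map_sum]
    simp only [dotProduct, zg]
    apply Finset.sum_congr rfl
    intro i _
    rw [map_smul, smul_eq_mul, mul_comm]
  refine ⟨(t + y ⬝ᵥ x₀) • zg - y, ?_⟩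
  funext δ
  rw [pairing_apply, Psi_apply, sub_dotProduct, smul_dotProduct, ← hzg, dotProduct_sub,
    dotProduct_smul]
  simp only [smul_eq_mul]
  ring

/-- Riesz representation inside a subspace -/
lemma riesz (W : Submodule ℝ (Fin n → ℝ)) (z : Fin n → ℝ) :
    ∃ y ∈ W, ∀ v ∈ W, y ⬝ᵥ v = z ⬝ᵥ v := by
  let A : W →ₗ[ℝ] Module.Dual ℝ W :=
    { toFun := fun y =>
        { toFun := fun v => (y : Fin n → ℝ) ⬝ᵥ (v : Fin n → ℝ)
          map_add' := fun v w => by simp [dotProduct_add]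
          map_smul' := fun c v => by simp [dotProduct_smul] }
      map_add' := fun y y' => by ext v; simp [add_dotProduct]
      map_smul' := fun c y => by ext v; simp [smul_dotProduct] }
  have hinj : Function.Injective A := by
    rw [injective_iff_map_eq_zero]
    intro y hy
    have h1 : (y : Fin n → ℝ) ⬝ᵥ (y : Fin n → ℝ) = 0 := congrArg (fun f : Module.Dual ℝ W => f y) hy
    exact Subtype.ext (dotProduct_self_eq_zero.1 h1)
  have hsurj : Function.Surjective A :=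
    (LinearMap.injective_iff_surjective_of_finrank_eq_finrank
      (Subspace.dual_finrank_eq (K := ℝ) (V := W)).symm).1 hinj
  obtain ⟨y, hy⟩ := hsurj
    { toFun := fun v => z ⬝ᵥ (v : Fin n → ℝ)
      map_add' := fun v w => by simp [dotProduct_add]
      map_smul' := fun c v => by simp [dotProduct_smul] }
  refine ⟨y, y.2, fun v hv => ?_⟩
  exact congrArg (fun f : Module.Dual ℝ W => f ⟨v, hv⟩) hy

lemma vs_mem {x y : Fin n → ℝ} (hx : x ∈ P) (hy : y ∈ P) : x - y ∈ vectorSpan ℝ P :=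
  vsub_mem_vectorSpan ℝ hx hy

lemma Setup.vs_zero (S : Setup Φ P x₀ g) {y : Fin n → ℝ} (h : ∀ x ∈ P, y ⬝ᵥ (x - x₀) = 0) :
    ∀ v ∈ vectorSpan ℝ P, y ⬝ᵥ v = 0 := by
  intro v hv
  rw [vectorSpan_eq_span_vsub_set_right ℝ S.x0P] at hv
  induction hv using Submodule.span_induction with
  | mem w hw =>
    obtain ⟨x, hx, rfl⟩ := hw
    exact h x hx
  | zero => simp
  | add a b _ _ ha hb => rw [dotProduct_add, ha, hb, add_zero]
  | smul c a _ ha => rw [dotProduct_smul, ha, smul_zero]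

/-- `Psi` restricted to `W × ℝ` -/
noncomputable def PsiW (Φ : Matrix (Fin r) (Fin n) ℤ) (P : Set (Fin n → ℝ)) (x₀ : Fin n → ℝ)
    (g : (Fin n → ℝ) →ₗ[ℝ] ℝ) : (vectorSpan ℝ P × ℝ) →ₗ[ℝ] (CF Φ → ℝ) :=
  Psi Φ x₀ g ∘ₗ ((vectorSpan ℝ P).subtype.prodMap LinearMap.id)

lemma PsiW_apply (y : vectorSpan ℝ P) (t : ℝ) : PsiW Φ P x₀ g (y, t) = Psi Φ x₀ g (y, t) := rfl

lemma Setup.value [Fintype (CF Φ)] (S : Setup Φ P x₀ g) (y : Fin n → ℝ) (t : ℝ)
    {x : Fin n → ℝ} (hx : x ∈ P) :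
    ∃ l : CF Φ → ℝ, (∀ δ, 0 ≤ l δ) ∧ x = ∑ δ, l δ • toReal (δ : Fin n → ℤ) ∧
      ∑ δ, l δ * Psi Φ x₀ g (y, t) δ = t - y ⬝ᵥ (x - x₀) := by
  rw [S.hP] at hx
  obtain ⟨l, hl, hl'⟩ := cone_gen _ hx.1
  refine ⟨l, hl, hl', ?_⟩
  have h1 : g x = 1 := hx.2
  rw [Psi_comb y t l x hl', h1]
  simp

lemma Setup.PsiW_inj [Fintype (CF Φ)] (S : Setup Φ P x₀ g) :
    Function.Injective (PsiW Φ P x₀ g) := by
  rw [injective_iff_map_eq_zero]
  rintro ⟨y, t⟩ h
  rw [PsiW_apply] at h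
  have key : ∀ x ∈ P, t - (y : Fin n → ℝ) ⬝ᵥ (x - x₀) = 0 := by
    intro x hx
    obtain ⟨l, hl, hl', h1⟩ := S.value y t hx
    rw [← h1, h]
    simp
  have ht : t = 0 := by
    have := key x₀ S.x0P
    simpa using this
  have h2 : ∀ x ∈ P, (y : Fin n → ℝ) ⬝ᵥ (x - x₀) = 0 := by
    intro x hx
    have := key x hx
    rw [ht] at this
    linarith
  have h3 := S.vs_zero h2 y y.2
  have h4 : (y : Fin n → ℝ) = 0 := dotProduct_self_eq_zero.1 h3
  exact Prod.ext (Subtype.ext h4) ht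

lemma Setup.PsiW_range [Fintype (CF Φ)] (S : Setup Φ P x₀ g) :
    LinearMap.range (PsiW Φ P x₀ g) = LinearMap.range (pairing Φ) := by
  apply le_antisymm
  · rintro _ ⟨w, rfl⟩
    exact Psi_mem _
  · rintro _ ⟨z, rfl⟩
    obtain ⟨y, hy, hyv⟩ := riesz (vectorSpan ℝ P) (-z)
    refine ⟨(⟨y, hy⟩, z ⬝ᵥ x₀), ?_⟩
    rw [PsiW_apply]
    funext δ
    rw [Psi_apply, pairing_apply]
    have hδ := S.gCF δ.2
    have h1 := hyv _ (vs_mem (S.vert δ.2) S.x0P)
    rw [neg_dotProduct] at h1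
    have h2 : toReal (δ : Fin n → ℤ) - g (toReal (δ : Fin n → ℤ)) • x₀ =
        g (toReal (δ : Fin n → ℤ)) • ((g (toReal (δ : Fin n → ℤ)))⁻¹ • toReal (δ : Fin n → ℤ) - x₀) := by
      rw [smul_sub, smul_smul, mul_inv_cancel₀ hδ.ne', one_smul]
    rw [h2, dotProduct_smul, h1, dotProduct_sub, dotProduct_smul]
    simp only [smul_eq_mul]
    field_simp
    ring

lemma Setup.finrank_M [Fintype (CF Φ)] (S : Setup Φ P x₀ g) :
    Module.finrank ℝ (LinearMap.range (pairing Φ)) = Module.finrank ℝ (vectorSpan ℝ P) + 1 := by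
  rw [← S.PsiW_range, LinearMap.finrank_range_of_inj S.PsiW_inj, Module.finrank_prod,
    Module.finrank_self]

end

end Pool.Agent.H36
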