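import Pool.Agent.H36.StanleyDefs

set_option autoImplicit false

open scoped Matrix
open Set

namespace Pool.Agent.H36

variable {r n : ℕ}

lemma exists_rat_near {d : ℕ} (s : Fin d → ℝ) (U : Set (Fin d → ℝ)) (hU : IsOpen U) (hs : s ∈ U) :
    ∃ t : Fin d → ℚ, (fun j => (t j : ℝ)) ∈ U := by
  have : DenseRange (fun t : Fin d → ℚ => (fun j => (t j : ℝ))) := by
    exact DenseRange.piMap (fun _ => Rat.denseRange_cast)
  exact this.exists_mem_open hU ⟨s, hs⟩

lemma clear_denoms (y : Fin n → ℚ) : ∃ (D : ℝ) (z : Fin n → ℤ), 0 < D ∧ ∀ i, (z i : ℝ) = D * (y i : ℝ) := by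
  obtain ⟨b, hb⟩ := IsLocalization.exist_integer_multiples (nonZeroDivisors ℤ) (Finset.univ) y
  have hb0 : (b : ℤ) ≠ 0 := nonZeroDivisors.coe_ne_zero b
  choose z hz using fun i => hb i (Finset.mem_univ i)
  refine ⟨((b : ℤ) : ℝ)^2, fun i => (b : ℤ) * z i, by positivity, fun i => ?_⟩
  have h1 := hz i
  have h2 : (z i : ℚ) = ((b : ℤ) : ℚ) * y i := by
    simpa using h1
  have h3 : (z i : ℝ) = ((b : ℤ) : ℝ) * (y i : ℝ) := by
    exact_mod_cast congrArg (fun q : ℚ => (q : ℝ)) h2
  push_cast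
  rw [h3]; ring

lemma mem_realCone {Φ : Matrix (Fin r) (Fin n) ℤ} {x : Fin n → ℝ} :
    x ∈ realCone Φ ↔ (∀ i, 0 ≤ x i) ∧ ∀ a, ∑ i, (Φ a i : ℝ) * x i = 0 := by
  unfold realCone
  simp only [Set.mem_ofPred_eq]
  refine and_congr Iff.rfl ?_
  rw [funext_iff]
  rfl

lemma rational_point (Φ : Matrix (Fin r) (Fin n) ℤ) (x : Fin n → ℝ) (hx : x ∈ realCone Φ) :
    ∃ z : Fin n → ℤ, toReal z ∈ realCone Φ ∧ ∀ i, z i = 0 ↔ x i = 0 := by
  classical
  rw [mem_realCone] at hx
  let V0 := Submodule.span ℚ (Set.range x)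
  have : Module.Finite ℚ V0 := Module.Finite.span_of_finite ℚ (Set.finite_range x)
  let d := Module.finrank ℚ V0
  let b : Module.Basis (Fin d) ℚ V0 := Module.finBasis ℚ V0
  let xv : Fin n → V0 := fun i => ⟨x i, Submodule.subset_span ⟨i, rfl⟩⟩
  let q : Fin n → Fin d → ℚ := fun i j => b.repr (xv i) j
  have hxq : ∀ i, x i = ∑ j, (q i j : ℝ) * (b j : ℝ) := by
    intro i
    have h1 : xv i = ∑ j, q i j • b j := (b.sum_repr (xv i)).symm
    have h2 := congrArg (fun v : V0 => (v : ℝ)) h1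
    simp only [xv] at h2
    rw [h2]
    simp only [AddSubmonoidClass.coe_finsetSum, SetLike.val_smul]
    apply Finset.sum_congr rfl
    intro j _
    rw [Rat.smul_def]
  have hrow : ∀ a j, ∑ i, (Φ a i : ℚ) * q i j = 0 := by
    intro a j
    have h1 : ∑ i, (Φ a i : ℚ) • xv i = 0 := by
      apply Subtype.ext
      simp only [AddSubmonoidClass.coe_finsetSum, SetLike.val_smul, ZeroMemClass.coe_zero]
      rw [← hx.2 a]
      apply Finset.sum_congr rfl
      intro i _
      rw [Rat.smul_def]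
      simp [xv]
    have h2 := congrArg (fun v : V0 => b.repr v j) h1
    simpa [q] using h2
  have hq0 : ∀ i, x i = 0 → ∀ j, q i j = 0 := by
    intro i hi j
    have : xv i = 0 := Subtype.ext hi
    simp [q, this]
  let U : Set (Fin d → ℝ) := {t | ∀ i, 0 < x i → 0 < ∑ j, (q i j : ℝ) * t j}
  have hU : IsOpen U := by
    have : U = ⋂ i : Fin n, {t | 0 < x i → 0 < ∑ j, (q i j : ℝ) * t j} := by
      ext t; simp [U]
    rw [this]
    apply isOpen_iInter_of_finite
    intro i
    by_cases hi : 0 < x i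
    · simp only [hi, forall_const]
      exact isOpen_lt continuous_const (by fun_prop)
    · simp only [hi, false_imp_iff, Set.ofPred_true]
      exact isOpen_univ
  obtain ⟨t, ht⟩ := exists_rat_near (fun j => (b j : ℝ)) U hU (by
    intro i hi
    rw [← hxq i]; exact hi)
  obtain ⟨D, z, hD, hz⟩ := clear_denoms (fun i => ∑ j, q i j * t j)
  have hz' : ∀ i, (z i : ℝ) = D * ∑ j, (q i j : ℝ) * (t j : ℝ) := by
    intro i
    rw [hz i]
    push_cast
    rfl
  have hpos : ∀ i, 0 < x i → 0 < (z i : ℝ) := by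
    intro i hi
    rw [hz']
    exact mul_pos hD (ht i hi)
  have hzero : ∀ i, x i = 0 → (z i : ℝ) = 0 := by
    intro i hi
    rw [hz']
    simp [hq0 i hi]
  refine ⟨z, mem_realCone.2 ⟨?_, ?_⟩, ?_⟩
  · intro i
    rcases (hx.1 i).eq_or_lt with h | h
    · simp only [toReal]; rw [hzero i h.symm]
    · exact (hpos i h).le
  · intro a
    simp only [toReal]
    calc ∑ i, (Φ a i : ℝ) * (z i : ℝ) = D * ∑ j, ((∑ i, (Φ a i : ℚ) * q i j : ℚ) : ℝ) * (t j : ℝ) := by
          simp_rw [hz', Finset.mul_sum]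
          rw [Finset.sum_comm]
          apply Finset.sum_congr rfl
          intro j _
          push_cast
          rw [Finset.sum_mul, Finset.mul_sum]
          apply Finset.sum_congr rfl
          intro i _
          ring
      _ = 0 := by simp [hrow]
  · intro i
    constructor
    · intro h
      rcases (hx.1 i).eq_or_lt with h' | h'
      · exact h'.symm
      · have := hpos i h'
        rw [h] at this
        simp at this
    · intro h
      exact_mod_cast hzero i h

end Pool.Agent.H36
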