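import Pool.Agent.H36.StanleyDefs

set_option autoImplicit false

open scoped unitInterval Topology
open ContinuousMap Set

namespace Pool.Agent.H36

/-- Builder for homotopy equivalences between subsets. -/
lemma hEquiv_of {E E' : Type} [TopologicalSpace E] [TopologicalSpace E'] (A : Set E) (B : Set E')
    (f : E → E') (g : E' → E) (hf : ContinuousOn f A) (hg : ContinuousOn g B)
    (hfB : MapsTo f A B) (hgA : MapsTo g B A)
    (H : ℝ → E → E) (hHc : ContinuousOn (fun z : ℝ × E => H z.1 z.2) (Icc 0 1 ×ˢ A))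
    (hHm : ∀ r ∈ Icc (0:ℝ) 1, ∀ a ∈ A, H r a ∈ A)
    (hH0 : ∀ a ∈ A, H 0 a = g (f a)) (hH1 : ∀ a ∈ A, H 1 a = a)
    (H' : ℝ → E' → E') (hHc' : ContinuousOn (fun z : ℝ × E' => H' z.1 z.2) (Icc 0 1 ×ˢ B))
    (hHm' : ∀ r ∈ Icc (0:ℝ) 1, ∀ b ∈ B, H' r b ∈ B)
    (hH0' : ∀ b ∈ B, H' 0 b = f (g b)) (hH1' : ∀ b ∈ B, H' 1 b = b) :
    Nonempty (A ≃ₕ B) := by
  refine ⟨⟨⟨fun a => ⟨f a, hfB a.2⟩, ?_⟩, ⟨fun b => ⟨g b, hgA b.2⟩, ?_⟩, ?_, ?_⟩⟩
  · exact Continuous.subtype_mk (hf.comp_continuous continuous_subtype_val (fun a => a.2)) _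
  · exact Continuous.subtype_mk (hg.comp_continuous continuous_subtype_val (fun a => a.2)) _
  · refine ⟨⟨⟨fun z => ⟨H z.1 z.2, hHm _ z.1.2 _ z.2.2⟩, ?_⟩, ?_, ?_⟩⟩
    · refine Continuous.subtype_mk ?_ _
      exact hHc.comp_continuous (f := fun z : I × A => ((z.1 : ℝ), (z.2 : E))) (by fun_prop)
        (fun z => ⟨z.1.2, z.2.2⟩)
    · intro a
      apply Subtype.ext
      simpa using hH0 a a.2
    · intro a
      apply Subtype.ext
      simpa using hH1 a a.2
  · refine ⟨⟨⟨fun z => ⟨H' z.1 z.2, hHm' _ z.1.2 _ z.2.2⟩, ?_⟩, ?_, ?_⟩⟩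
    · refine Continuous.subtype_mk ?_ _
      exact hHc'.comp_continuous (f := fun z : I × B => ((z.1 : ℝ), (z.2 : E'))) (by fun_prop)
        (fun z => ⟨z.1.2, z.2.2⟩)
    · intro a
      apply Subtype.ext
      simpa using hH0' a a.2
    · intro a
      apply Subtype.ext
      simpa using hH1' a a.2

namespace Susp

variable {X Y Z : Type} [TopologicalSpace X] [TopologicalSpace Y] [TopologicalSpace Z]

/-- the class of `(x,t)` -/
def mk (x : X) (t : I) : Susp X := Quot.mk _ (Sum.inl (x, t))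

/-- poles -/
def pole (X : Type) (b : Bool) : Susp X := Quot.mk _ (Sum.inr b)

omit [TopologicalSpace X] in
lemma mk_zero (x : X) : mk x 0 = pole X false := Quot.sound ⟨x, Or.inl ⟨rfl, rfl⟩⟩

omit [TopologicalSpace X] in
lemma mk_one (x : X) : mk x 1 = pole X true := Quot.sound ⟨x, Or.inr ⟨rfl, rfl⟩⟩

lemma continuous_mk : Continuous (fun p : X × I => mk p.1 p.2) :=
  continuous_quot_mk.comp continuous_inl

/-- maps out of the suspension -/
def lift (f : C(X × I, Y)) (a : Bool → Y) (h0 : ∀ x, f (x, 0) = a false)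
    (h1 : ∀ x, f (x, 1) = a true) : C(Susp X, Y) where
  toFun := Quot.lift (Sum.elim f a) (by
    rintro _ _ ⟨x, (⟨rfl, rfl⟩ | ⟨rfl, rfl⟩)⟩
    · simpa using h0 x
    · simpa using h1 x)
  continuous_toFun := by
    apply continuous_quot_lift
    apply Continuous.sumElim
    · exact f.continuous
    · exact continuous_of_discreteTopology

@[simp] lemma lift_mk (f : C(X × I, Y)) (a : Bool → Y) (h0 : ∀ x, f (x, 0) = a false)
    (h1 : ∀ x, f (x, 1) = a true) (x : X) (t : I) : lift f a h0 h1 (mk x t) = f (x, t) := rfl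

@[simp] lemma lift_pole (f : C(X × I, Y)) (a : Bool → Y) (h0 : ∀ x, f (x, 0) = a false)
    (h1 : ∀ x, f (x, 1) = a true) (b : Bool) : lift f a h0 h1 (pole X b) = a b := rfl

omit [TopologicalSpace X] in
@[elab_as_elim]
lemma ind {P : Susp X → Prop} (h : ∀ x t, P (mk x t)) (h' : ∀ b, P (pole X b)) (z : Susp X) :
    P z := by
  induction z using Quot.ind with
  | mk a =>
    rcases a with ⟨x, t⟩ | b
    · exact h x t
    · exact h' b

/-- Homotopies out of the suspension. -/
lemma homotopic_of (u v : C(Susp X, Y)) (f : C((X × I) × I, Y)) (a : Bool → C(I, Y))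
    (h0 : ∀ x r, f ((x, 0), r) = a false r) (h1 : ∀ x r, f ((x, 1), r) = a true r)
    (hu : ∀ x t, f ((x, t), 0) = u (mk x t)) (hu' : ∀ b, a b 0 = u (pole X b))
    (hv : ∀ x t, f ((x, t), 1) = v (mk x t)) (hv' : ∀ b, a b 1 = v (pole X b)) :
    u.Homotopic v := by
  let L : C(Susp X, C(I, Y)) := lift f.curry a
    (fun x => by ext r; simpa using h0 x r) (fun x => by ext r; simpa using h1 x r)
  refine ⟨⟨⟨fun z => L z.2 z.1, ?_⟩, ?_, ?_⟩⟩
  · have := L.uncurry.continuous
    exact this.comp (continuous_swap)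
  · intro z
    induction z using ind with
    | h x t => simpa [L] using hu x t
    | h' b => simpa [L] using hu' b
  · intro z
    induction z using ind with
    | h x t => simpa [L] using hv x t
    | h' b => simpa [L] using hv' b

/-- functoriality -/
def map (f : C(X, Y)) : C(Susp X, Susp Y) :=
  lift ⟨fun p => mk (f p.1) p.2,
      continuous_mk.comp (f := fun p : X × I => (f p.1, p.2)) (by fun_prop)⟩ (fun b => pole Y b)
    (fun x => mk_zero _) (fun x => mk_one _)

@[simp] lemma map_mk (f : C(X, Y)) (x : X) (t : I) : map f (mk x t) = mk (f x) t := rfl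
@[simp] lemma map_pole (f : C(X, Y)) (b : Bool) : map f (pole X b) = pole Y b := rfl

lemma map_id : map (ContinuousMap.id X) = ContinuousMap.id (Susp X) := by
  ext z
  induction z using ind with
  | h x t => rfl
  | h' b => rfl

lemma map_comp (f : C(X, Y)) (g : C(Y, Z)) : map (g.comp f) = (map g).comp (map f) := by
  ext z
  induction z using ind with
  | h x t => rfl
  | h' b => rfl

lemma map_homotopic {f g : C(X, Y)} (h : f.Homotopic g) : (map f).Homotopic (map g) := by
  obtain ⟨H⟩ := h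
  refine homotopic_of _ _ ⟨fun z => mk (H (z.2, z.1.1)) z.1.2, ?_⟩
    (fun b => ContinuousMap.const _ (pole Y b)) ?_ ?_ ?_ ?_ ?_ ?_
  · exact continuous_mk.comp (f := fun z : (X × I) × I => (H (z.2, z.1.1), z.1.2)) (by fun_prop)
  · intro x r; exact mk_zero _
  · intro x r; exact mk_one _
  · intro x t; simp
  · intro b; rfl
  · intro x t; simp
  · intro b; rfl

lemma congr (h : Nonempty (X ≃ₕ Y)) : Nonempty (Susp X ≃ₕ Susp Y) := by
  obtain ⟨e⟩ := h
  refine ⟨⟨map e.toFun, map e.invFun, ?_, ?_⟩⟩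
  · rw [← map_comp, ← map_id]
    exact map_homotopic e.left_inv
  · rw [← map_comp, ← map_id]
    exact map_homotopic e.right_inv

end Susp

lemma iterSusp_congr (m : ℕ) {X Y : TopCat.{0}} (h : Nonempty (X ≃ₕ Y)) :
    Nonempty (iterSusp m X ≃ₕ iterSusp m Y) := by
  induction m with
  | zero => exact h
  | succ m ih =>
    unfold iterSusp at ih ⊢
    rw [Function.iterate_succ_apply', Function.iterate_succ_apply']
    exact Susp.congr ih

end Pool.Agent.H36
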